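import Pool.Agent.MP_68d28f_lc.ce.t4.Bas

/-! Block T4: harmless extensions keep the entry invariants; every step keeps the invariant. -/

namespace Pool.Agent.MP_68d28f_lc.CE.T4

open Pool.Agent.MP_b427ce_lc

theorem actS : ActS := by
  intro X σ L S0 ext L' hE ok x hx
  have h := hE x hx
  have hpre : σ <+: σ ++ ext := List.prefix_append _ _
  have hq : frz (qq (vw S0 x.sl)) ext :=
    ok.fz.mono fun e he => qq_mono (fun y hy => (mem_vw.1 hy).1) he
  refine ⟨?_, ?_, ?_, h.ow, ?_, ?_⟩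
  · intro ht
    obtain ⟨j, ω, y, h1, h2, h3⟩ := h.wn ht
    refine ⟨j, ω, y, ?_, h2, fun p hp => val_mono hpre (h3 p hp)⟩
    unfold xval at h1 ⊢
    refine ev_mono (zip2_mono (List.prefix_refl _) (cd_mono ?_)) h1
    simp
  · intro ht
    obtain ⟨h1, h2, h3, h4, h5⟩ := h.wk ht
    have hd : (σ ++ ext).drop x.a = σ.drop x.a ++ ext := List.drop_append_of_le_length h1
    rw [hd]
    refine ⟨by simp; omega, fun l hl => ok.sub l (h2 l hl),
      resp_append.2 ⟨h3, ok.rsp.mono h2⟩, frz_append.2 ⟨h4, hq⟩, ?_⟩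
    intro i hi hti
    rcases List.mem_append.1 hi with hi | hi
    · exact h5 i hi hti
    · intro hm
      obtain ⟨y, hy, hy5, hyp, hyb⟩ := mem_NB.1 hm
      exact (ok.cl i hi hti y (mem_vw.1 hy).1 hy5 hyb).1 x hx ⟨(mem_vw.1 hy).2, hyp⟩
  · intro ht
    obtain ⟨h1, h2, h3, h4⟩ := h.wm ht
    refine ⟨h1, h2, h3.mono hpre, ?_⟩
    rcases h4 with ⟨h4, y, h5, h6⟩ | h4
    · exact Or.inl ⟨h4, y, oval_mono hpre h5, h6⟩
    · refine Or.inr fun τ c hr hf hc => ?_
      rw [List.append_assoc]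
      exact h4 (ext ++ τ) c (resp_append.2 ⟨ok.rsp, hr.mono ok.sub⟩) (frz_append.2 ⟨hq, hf⟩) hc
  · intro ht
    obtain ⟨h1, h2, h3, h4, h5⟩ := h.rd ht
    have he : eS x.sl ∈ qq S0 := mem_qq.2 ⟨x, hx, isOwn_iff.2 (Or.inr ht), rfl⟩
    refine ⟨fun n hn => zd_mono hpre (h1 n hn), fun l hl hc => h2 l (ok.nl l hl _ he hc) hc, ?_,
      h4.mono hpre, h5⟩
    intro i hi hc
    rcases List.mem_append.1 hi with hi | hi
    · exact h3 i hi hc
    · exact absurd hc (ok.fz i hi _ he)
  · intro ht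
    obtain ⟨h1, h2⟩ := h.fe ht
    refine ⟨h1, fun i hi hti hc => ?_⟩
    rcases List.mem_append.1 hi with hi | hi
    · rcases h2 i hi hti hc with h3 | h3
      · exact Or.inl (zd_mono hpre h3)
      · exact Or.inr (h3.ext ok.rsp hq ok.sub)
    · exact (ok.cl i hi hti x hx ht hc.symm).2

namespace Act

variable {X : ℕ → ℕ} {s s' : St} {ext : List Ins} {S0 : List Ent}

lemma isSome_mono {σ ρ : List Ins} {c p : ℕ} {T : List ℕ → Bool} (h : σ <+: ρ)
    (hv : (val c T σ p).isSome = true) : (val c T ρ p).isSome = true := by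
  obtain ⟨v, hv⟩ := Option.isSome_iff_exists.1 hv
  rw [val_mono h hv]; rfl

lemma srt (hI : Inv X s) (hE : Eff X s s' ext S0) : s'.S.Pairwise fun x y => x.sl < y.sl := by
  have h0 : S0.Pairwise fun x y => x.sl < y.sl := hI.srt.sublist hE.sub
  rcases hE.st with h | ⟨y, h, h1, -⟩
  · rw [h]; exact h0
  · rw [h, List.pairwise_append]
    refine ⟨h0, List.pairwise_singleton _ _, fun a ha b hb => ?_⟩
    rw [List.mem_singleton.1 hb]; exact h1 a ha

lemma shp (hI : Inv X s) (hE : Eff X s s' ext S0) : ∀ x ∈ s'.S, Shape x := by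
  intro x hx
  rcases hE.st with h | ⟨y, h, -, -, h1, -⟩
  · rw [h] at hx; exact hI.shp x (hE.sub.subset hx)
  · rw [h] at hx
    rcases List.mem_append.1 hx with hx | hx
    · exact hI.shp x (hE.sub.subset hx)
    · rw [List.mem_singleton.1 hx]; exact h1

lemma ent (h1 : ActS) (hI : Inv X s) (hE : Eff X s s' ext S0) :
    ∀ x ∈ s'.S, EI X s'.sg s'.L (vw s'.S x.sl) x := by
  have h0 : ∀ x ∈ S0, EI X s'.sg s'.L (vw S0 x.sl) x := by
    rw [hE.sg]
    refine h1 X s.sg s.L S0 ext s'.L (fun x hx => ?_) hE.ok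
    rw [hE.dn x hx]; exact hI.ent x (hE.sub.subset hx)
  intro x hx
  rcases hE.st with h | ⟨y, h, h2, -, -, h3, -⟩
  · rw [h] at hx ⊢; exact h0 x hx
  · rw [h] at hx ⊢
    rcases List.mem_append.1 hx with hx | hx
    · rw [vw_snoc_le (h2 x hx).le]; exact h0 x hx
    · rw [List.mem_singleton.1 hx, vw_snoc_le le_rfl, vw_eq_self h2]; exact h3

lemma dif (hI : Inv X s) (hE : Eff X s s' ext S0) :
    ∀ x ∈ s'.S, ∀ y ∈ s'.S, x.tag = 5 → y.tag = 5 → x.b = y.b → x = y := by
  intro x hx y hy hx5 hy5 hb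
  rcases hE.st with h | ⟨z, h, -, -, -, -, h2⟩
  · rw [h] at hx hy
    exact hI.dif x (hE.sub.subset hx) y (hE.sub.subset hy) hx5 hy5 hb
  · rw [h] at hx hy
    rcases List.mem_append.1 hx with hx | hx <;> rcases List.mem_append.1 hy with hy | hy
    · exact hI.dif x (hE.sub.subset hx) y (hE.sub.subset hy) hx5 hy5 hb
    · rw [List.mem_singleton.1 hy] at hy5 hb
      exact absurd hb (h2 hy5 x hx hx5)
    · rw [List.mem_singleton.1 hx] at hx5 hb
      exact absurd hb.symm (h2 hx5 y hy hy5)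
    · rw [List.mem_singleton.1 hx, List.mem_singleton.1 hy]

/-- the invariant after the end of a stage -/
lemma inv_fin {τ : List Ins} {L' : Lit} {S' : List Ent} (h1 : ActS) (hI : Inv X s)
    (hE : Eff X s (fin X s τ L' S') ext S0) : Inv X (fin X s τ L' S') := by
  refine ⟨hE.lit, srt hI hE, shp hI hE, ?_, ?_, ent h1 hI hE, dif hI hE, ?_, ?_⟩
  · have := hI.len
    simp only [fin, List.length_append, List.length_singleton]
    omega
  · intro p hp
    have hp' : p < s.stg + 1 := hp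
    rcases Nat.lt_succ_iff_lt_or_eq.1 hp' with hp1 | hp1
    · refine isSome_mono ?_ (hI.hk p hp1)
      show s.sg <+: s.sg ++ τ ++ _
      rw [List.append_assoc]; exact List.prefix_append _ _
    · subst hp1
      exact val_isSome (i := ⟨0, pre X (JJ L'), s.stg, 0⟩) (T := tru X)
        (σ := s.sg ++ τ ++ [⟨0, pre X (JJ L'), s.stg, 0⟩]) (by simp) (tru_pre _ _)
  · intro x hx hx5 hp
    obtain ⟨γ, -, hγ⟩ := (shp hI hE x hx).five hx5
    have hp' : x.sl <+: [] := hp
    rw [hγ] at hp'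
    simp at hp'
  · intro j hj
    exact absurd hj (Nat.not_lt_zero _)

/-- the invariant after a move, given the clean clause -/
lemma inv_mov {τ : List Ins} {o : ℕ} (h1 : ActS) (hI : Inv X s)
    (hE : Eff X s (mov s τ o) ext S0)
    (hc : ∀ x ∈ s.S, x.tag = 5 → x.sl <+: s.cur ++ [o] → ∀ i ∈ s.sg ++ τ, tnz X i = true →
      col i.p = x.b → zd X (eS x.sl) (s.sg ++ τ) (row i.p) = some (i.w - 1)) :
    Inv X (mov s τ o) := by
  refine ⟨hE.lit, srt hI hE, shp hI hE, ?_, ?_, ent h1 hI hE, dif hI hE, ?_, ?_⟩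
  · have := hI.len
    simp only [mov, List.length_append]
    omega
  · intro p hp
    exact isSome_mono (List.prefix_append _ _) (hI.hk p hp)
  · intro x hx
    exact hc x (mem_keep.1 hx).1
  · intro j hj
    exact absurd hj (Nat.not_lt_zero _)

/-- the invariant after a move without instructions to an outcome other than two -/
lemma inv_mov_nil {o : ℕ} (h1 : ActS) (hI : Inv X s) (hE : Eff X s (mov s [] o) ext S0)
    (ho : o ≠ 2) : Inv X (mov s [] o) := by
  refine inv_mov h1 hI hE fun x hx hx5 hp => ?_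
  rw [List.append_nil]
  rcases pre_snoc.1 hp with hp | hp
  · exact hI.cln x hx hx5 hp
  · obtain ⟨γ, -, hγ⟩ := (hI.shp x hx).five hx5
    rw [hγ] at hp
    have := List.append_inj_right' hp rfl
    simp at this
    exact absurd this.symm ho

/-- the invariant after a coding move -/
lemma inv_cod {x : Ent} (h1 : ActS) (hI : Inv X s) (hM : AtM s)
    (hg : get s.S (s.cur ++ [2]) = some x) (hz : zdet X (eS x.sl) s.sg (RR X x.b s.sg))
    (hall : ∀ i ∈ s.sg, tnz X i = true → col i.p = x.b →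
      zd X (eS x.sl) s.sg (row i.p) = some (i.w - 1))
    (hE : Eff X s (mov s (cod X (eS x.sl) x.b s.sg s.L) 2) ext S0) :
    Inv X (mov s (cod X (eS x.sl) x.b s.sg s.L) 2) := by
  obtain ⟨hxS, hxs⟩ := get_some hg
  have hx5 : x.tag = 5 := by
    rcases (hI.shp x hxS).tagM hxs hM.2 with ⟨h, -⟩ | ⟨h, -⟩ | ⟨-, h⟩
    · omega
    · omega
    · exact h
  refine inv_mov h1 hI hE fun y hy hy5 hp i hi hti hc => ?_
  refine zd_mono (List.prefix_append _ _) ?_
  rcases List.mem_append.1 hi with hi1 | hi1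
  · rcases pre_snoc.1 hp with hp1 | hp1
    · exact hI.cln y hy hy5 hp1 i hi1 hti hc
    · have hyx : y = x := sl_inj hI.srt hy hxS (hp1.trans hxs.symm)
      subst hyx
      exact hall i hi1 hti hc
  · obtain ⟨n, hn, rfl⟩ := mem_cod.1 hi1
    simp only [col_mkp] at hc
    have hyx : y = x := hI.dif y hy x hxS hy5 hx5 hc.symm
    subst hyx
    simp only [row_mkp, Nat.add_sub_cancel]
    obtain ⟨v, hv⟩ := Option.isSome_iff_exists.1 (hz n hn)
    rw [hv]; rfl

end Act

theorem invS (h1 : ActS) (h2 : EffS) : InvS := by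
  intro X s b s' hX hI hS
  obtain ⟨ext, S0, hE⟩ := h2 X s b s' hX hI hS
  cases hS with
  | cap => exact Act.inv_fin h1 hI hE
  | nRef => exact Act.inv_fin h1 hI hE
  | nMov => exact Act.inv_mov_nil h1 hI hE (by decide)
  | nAb => exact Act.inv_fin h1 hI hE
  | nW1 => exact Act.inv_fin h1 hI hE
  | nLoop w _ _ _ _ hx hv =>
    refine ⟨hI.lit, hI.srt, hI.shp, hI.len, hI.hk, hI.ent, hI.dif, hI.cln, fun j hj => ?_⟩
    have hj' : j < s.j + 1 := hj
    rcases Nat.lt_succ_iff_lt_or_eq.1 hj' with hj1 | hj1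
    · exact hI.lp j hj1
    · subst hj1
      exact ⟨w, hx, hv⟩
  | nWx => exact Act.inv_fin h1 hI hE
  | nCert => exact Act.inv_fin h1 hI hE
  | mPass => exact Act.inv_mov_nil h1 hI hE (by decide)
  | mNew => exact Act.inv_fin h1 hI hE
  | mFill => exact Act.inv_fin h1 hI hE
  | mWait => exact Act.inv_mov_nil h1 hI hE (by decide)
  | mW1 => exact Act.inv_fin h1 hI hE
  | mCert => exact Act.inv_fin h1 hI hE
  | mRef => exact Act.inv_fin h1 hI hE
  | mFin => exact Act.inv_mov_nil h1 hI hE (by decide)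
  | mW2 => exact Act.inv_fin h1 hI hE
  | mCod o x hM _ _ _ hg _ hz hall => exact Act.inv_cod h1 hI hM hg hz hall hE

end Pool.Agent.MP_68d28f_lc.CE.T4
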