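import Pool.Agent.MP_68d28f_lc.ce.t4.Spec
import Pool.Agent.MP_68d28f_lc.ce.Lex

/-! Block T4: basic facts, part A: order of nodes, views, entries. -/

namespace Pool.Agent.MP_68d28f_lc.CE.T4

open Pool.Agent.MP_b427ce_lc

section A
variable {a b c t t' k : List ℕ} {S V : List Ent} {x y o : Ent}

lemma left_iff :
    left a b ↔ ∃ (r : List ℕ) (u v : ℕ), u < v ∧ r ++ [u] <+: a ∧ r ++ [v] <+: b := lft_iff
lemma lt_iff_left : a < b ↔ (a <+: b ∧ a ≠ b) ∨ left a b := lt_iff_prefix_or_lft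
lemma le_of_pre (h : a <+: b) : a ≤ b := le_of_prefix h
lemma left.ext {a' b' : List ℕ} (h : left a b) (ha : a <+: a') (hb : b <+: b') : left a' b' :=
  lft.mono h ha hb
lemma left.not_pre (h : left a b) : ¬ b <+: a := lft.not_prefix' h
lemma left.trans_lt (h : left a b) (h' : b < c) : left a c := lft.trans_le h h'.le
lemma left.trans_le (h : left a b) (h' : b ≤ c) : left a c := lft.trans_le h h'
lemma lt_snoc (a : List ℕ) (u : ℕ) : a < a ++ [u] := lt_concat a u
lemma snoc_lt_snoc {u v : ℕ} : a ++ [u] < a ++ [v] ↔ u < v := concat_lt_concat_iff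
lemma left_snoc_snoc {u v : ℕ} (h : u < v) : left (a ++ [u]) (a ++ [v]) := lft_concat a h
lemma lt_snoc_zero : a < b ++ [0] ↔ a ≤ b := lt_concat_zero_iff
lemma left_snoc {u : ℕ} : left a (b ++ [u]) ↔ left a b ∨ ∃ v, v < u ∧ b ++ [v] <+: a :=
  lft_concat_iff
lemma lt_snoc_iff {u : ℕ} : a < b ++ [u] ↔ a ≤ b ∨ ∃ v, v < u ∧ b ++ [v] <+: a := lt_concat_iff
lemma pre_snoc {u : ℕ} : a <+: b ++ [u] ↔ a <+: b ∨ a = b ++ [u] :=
  List.prefix_concat_iff.trans or_comm
lemma wonS_snoc (a : List ℕ) (u : ℕ) : wonS (a ++ [u]) = a ++ [0] := by simp [wonS]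
lemma eS_snoc (a : List ℕ) (u : ℕ) : eS (a ++ [u]) = eN a.length := by simp [eS]
lemma lamS_snoc (a : List ℕ) (u : ℕ) : lamS (a ++ [u]) = lamN a.length := by simp [lamS]
lemma sdS_snoc (a : List ℕ) (u : ℕ) : sdS (a ++ [u]) = sdN a.length := by simp [sdS]
lemma sdN_le (n : ℕ) : sdN n ≤ 1 := by unfold sdN; omega

lemma mem_vw : x ∈ vw S t ↔ x ∈ S ∧ x.sl < t := by simp [vw]
lemma vw_sublist (S : List Ent) (t : List ℕ) : (vw S t).Sublist S := List.filter_sublist
lemma vw_vw (h : t' ≤ t) : vw (vw S t) t' = vw S t' := by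
  unfold vw
  rw [List.filter_filter]
  refine List.filter_congr fun x _ => ?_
  rw [Bool.eq_iff_iff]
  simp only [Bool.and_eq_true, ltB_iff]
  exact ⟨fun h' => h'.1, fun h' => ⟨h', lt_of_lt_of_le h' h⟩⟩
lemma vw_append (S V : List Ent) (t : List ℕ) : vw (S ++ V) t = vw S t ++ vw V t :=
  List.filter_append _ _
lemma vw_snoc_le (h : t ≤ y.sl) : vw (S ++ [y]) t = vw S t := by
  have : vw [y] t = [] := by
    refine List.filter_eq_nil_iff.2 fun z hz => ?_
    rw [List.mem_singleton.1 hz, ltB_iff]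
    exact not_lt.2 h
  rw [vw_append, this, List.append_nil]
lemma vw_eq_self (h : ∀ x ∈ S, x.sl < t) : vw S t = S :=
  List.filter_eq_self.2 fun x hx => ltB_iff.2 (h x hx)
lemma vw_snoc_lt (h : y.sl < t) : vw (S ++ [y]) t = vw S t ++ [y] := by
  rw [vw_append, vw_eq_self (S := [y]) fun z hz => by rw [List.mem_singleton.1 hz]; exact h]
lemma vw_congr {S' : List Ent} (h : vw S t = vw S' t) (h' : t' ≤ t) : vw S t' = vw S' t' := by
  rw [← vw_vw (S := S) h', h, vw_vw h']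
lemma mem_keep : x ∈ keep S c ↔ x ∈ S ∧ ¬ left c x.sl := by
  unfold keep
  rw [List.mem_filter, Bool.not_eq_true', ← Bool.not_eq_true]
  exact and_congr_right fun _ => not_congr lftB_iff
lemma keep_sublist (S : List Ent) (c : List ℕ) : (keep S c).Sublist S := List.filter_sublist
lemma vw_keep (h : ¬ left c t) : vw (keep S c) t = vw S t := by
  unfold vw keep
  rw [List.filter_filter]
  refine List.filter_congr fun x _ => ?_
  rw [Bool.eq_iff_iff, Bool.and_eq_true, Bool.not_eq_true', ← Bool.not_eq_true, ltB_iff]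
  exact ⟨fun h' => h'.1, fun h' => ⟨h', fun hl => h (left.trans_lt (lftB_iff.1 hl) h')⟩⟩
lemma get_some (h : get S t = some x) : x ∈ S ∧ x.sl = t :=
  ⟨List.mem_of_find?_eq_some h, by simpa using List.find?_some h⟩
lemma get_none : get S t = none ↔ ∀ x ∈ S, x.sl ≠ t := by simp [get]
lemma sl_inj (hS : S.Pairwise fun x y => x.sl < y.sl) (hx : x ∈ S) (hy : y ∈ S)
    (h : x.sl = y.sl) : x = y := by
  induction S with
  | nil => simp at hx
  | cons z S ih =>
    rw [List.pairwise_cons] at hS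
    rcases List.mem_cons.1 hx with rfl | hx' <;> rcases List.mem_cons.1 hy with rfl | hy'
    · rfl
    · exact absurd h (ne_of_lt (hS.1 y hy'))
    · exact absurd h.symm (ne_of_lt (hS.1 x hx'))
    · exact ih hS.2 hx' hy'
lemma get_of_mem (hS : S.Pairwise fun x y => x.sl < y.sl) (hx : x ∈ S) :
    get S x.sl = some x := by
  cases h : get S x.sl with
  | none => exact absurd rfl (get_none.1 h x hx)
  | some y => rw [sl_inj hS (get_some h).1 hx (get_some h).2]
lemma get_filter {p : Ent → Bool} (h : ∀ x ∈ S, x.sl = t → p x = true) :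
    get (S.filter p) t = get S t := by
  unfold get
  induction S with
  | nil => rfl
  | cons z S ih =>
    have ih' := ih fun x hx => h x (List.mem_cons_of_mem _ hx)
    by_cases hz : z.sl = t
    · rw [List.filter_cons_of_pos (h z List.mem_cons_self hz)]
      simp [hz]
    · by_cases hp : p z = true
      · rw [List.filter_cons_of_pos hp, List.find?_cons_of_neg (by simpa using hz),
          List.find?_cons_of_neg (by simpa using hz), ih']
      · rw [List.filter_cons_of_neg hp, List.find?_cons_of_neg (by simpa using hz), ih']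
lemma get_vw (h : t' < t) : get (vw S t) t' = get S t' :=
  get_filter fun _ _ hx => ltB_iff.2 (hx ▸ h)
lemma get_vw_none (h : t ≤ t') : get (vw S t) t' = none :=
  get_none.2 fun _ hx he => absurd (mem_vw.1 hx).2 (not_lt.2 (he ▸ h))
lemma get_congr {S' : List Ent} (h : vw S t = vw S' t) (h' : t' < t) :
    get S t' = get S' t' := by
  rw [← get_vw (S := S) h', h, get_vw h']
lemma get_snoc_self (h : ∀ x ∈ S, x.sl ≠ y.sl) : get (S ++ [y]) y.sl = some y := by
  have h0 : get S y.sl = none := get_none.2 h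
  unfold get at h0 ⊢
  rw [List.find?_append, h0]
  simp
lemma get_snoc_ne (h : y.sl ≠ t) : get (S ++ [y]) t = get S t := by
  unfold get
  rw [List.find?_append, List.find?_cons_of_neg (by simpa using h)]
  simp
lemma get_keep (h : ¬ left c t) : get (keep S c) t = get S t := by
  refine get_filter fun x _ hx => ?_
  rw [Bool.not_eq_true', ← Bool.not_eq_true]
  exact fun hl => h (hx ▸ lftB_iff.1 hl)
lemma vw_succ (hS : S.Pairwise fun x y => x.sl < y.sl) (t : List ℕ) :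
    vw S (t ++ [0]) = vw S t ++ (get S t).toList := by
  induction S with
  | nil => rfl
  | cons z S ih =>
    rw [List.pairwise_cons] at hS
    have ih' := ih hS.2
    rcases lt_trichotomy z.sl t with h | h | h
    · have e1 : vw (z :: S) (t ++ [0]) = z :: vw S (t ++ [0]) :=
        List.filter_cons_of_pos (ltB_iff.2 (lt_snoc_zero.2 h.le))
      have e2 : vw (z :: S) t = z :: vw S t := List.filter_cons_of_pos (ltB_iff.2 h)
      have e3 : get (z :: S) t = get S t :=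
        List.find?_cons_of_neg (by simpa using ne_of_lt h)
      rw [e1, e2, e3, ih', List.cons_append]
    · have e0 : vw S (t ++ [0]) = [] := List.filter_eq_nil_iff.2 fun y hy => by
        rw [ltB_iff, lt_snoc_zero]
        exact not_le.2 (h ▸ hS.1 y hy)
      have e1 : vw (z :: S) (t ++ [0]) = z :: vw S (t ++ [0]) :=
        List.filter_cons_of_pos (ltB_iff.2 (lt_snoc_zero.2 h.le))
      have e2 : vw (z :: S) t = [] := List.filter_eq_nil_iff.2 fun y hy => by
        rw [ltB_iff]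
        rcases List.mem_cons.1 hy with rfl | hy
        · exact not_lt.2 h.ge
        · exact not_lt.2 (h ▸ hS.1 y hy).le
      have e3 : get (z :: S) t = some z := List.find?_cons_of_pos (by simpa using h)
      rw [e1, e0, e2, e3]
      rfl
    · have hall : ∀ y ∈ z :: S, t < y.sl := by
        intro y hy
        rcases List.mem_cons.1 hy with rfl | hy
        · exact h
        · exact lt_trans h (hS.1 y hy)
      have e1 : vw (z :: S) (t ++ [0]) = [] := List.filter_eq_nil_iff.2 fun y hy => by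
        rw [ltB_iff, lt_snoc_zero]
        exact not_le.2 (hall y hy)
      have e2 : vw (z :: S) t = [] := List.filter_eq_nil_iff.2 fun y hy => by
        rw [ltB_iff]
        exact not_lt.2 (hall y hy).le
      have e3 : get (z :: S) t = none := get_none.2 fun y hy => ne_of_gt (hall y hy)
      rw [e1, e2, e3]
      rfl
lemma isOwn_iff : isOwn x = true ↔ x.tag = 3 ∨ x.tag = 4 := by simp [isOwn]
lemma mem_qq {e : ℕ} : e ∈ qq V ↔ ∃ x ∈ V, isOwn x = true ∧ eS x.sl = e := by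
  simp [qq, and_assoc]
lemma mem_EE : x ∈ EE V t ↔ x ∈ V ∧ x.tag = 5 ∧ x.sl <+: t := by simp [EE]
lemma mem_NB {d : ℕ} : d ∈ NB V t ↔ ∃ x ∈ V, x.tag = 5 ∧ ¬ x.sl <+: t ∧ x.b = d := by
  simp only [NB, List.mem_map, List.mem_filter, Bool.and_eq_true, eqB_iff, Bool.not_eq_true',
    ← preB_iff, Bool.not_eq_true, and_assoc]
lemma own_some (h : own V t = some o) : o ∈ V ∧ isOwn o = true ∧ eS o.sl = eS t :=
  ⟨List.mem_of_find?_eq_some h, by simpa using List.find?_some h⟩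
lemma own_none : own V t = none ↔ eS t ∉ qq V := by
  simp [own, mem_qq]
lemma qq_mono {V' : List Ent} (h : ∀ x ∈ V, x ∈ V') {e : ℕ} (he : e ∈ qq V) : e ∈ qq V' := by
  obtain ⟨x, hx, h'⟩ := mem_qq.1 he
  exact mem_qq.2 ⟨x, h x hx, h'⟩
lemma qq_vw_mono (h : t' ≤ t) {e : ℕ} (he : e ∈ qq (vw S t')) : e ∈ qq (vw S t) :=
  qq_mono (fun _ hx => mem_vw.2 ⟨(mem_vw.1 hx).1, lt_of_lt_of_le (mem_vw.1 hx).2 h⟩) he
lemma NB_mono (h : t' ≤ t) {d : ℕ} (hd : d ∈ NB (vw S t') t') : d ∈ NB (vw S t) t := by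
  obtain ⟨x, hx, h5, hp, hb⟩ := mem_NB.1 hd
  obtain ⟨hx1, hx2⟩ := mem_vw.1 hx
  have hl : left x.sl t := left.trans_le ⟨hx2, hp⟩ h
  exact mem_NB.2 ⟨x, mem_vw.2 ⟨hx1, hl.1⟩, h5, hl.2, hb⟩
lemma wt_append (S V : List Ent) : wt (S ++ V) = wt S + wt V := by
  simp [wt]
lemma wt_sublist (h : V.Sublist S) : wt V ≤ wt S :=
  (h.map _).sum_le_sum fun _ _ => Nat.zero_le _
lemma Shape.own (h : Shape x) (ho : isOwn x = true) :
    ∃ α : List ℕ, α.length % 2 = 1 ∧ x.sl = α ++ [1] := by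
  rw [isOwn_iff] at ho
  obtain ⟨δ, ⟨_, _, h⟩ | ⟨h0, ⟨_, h⟩ | ⟨h, _⟩ | ⟨_, h⟩⟩⟩ := h
  · omega
  · omega
  · exact ⟨δ, h0, h⟩
  · omega
lemma Shape.five (h : Shape x) (ho : x.tag = 5) :
    ∃ γ : List ℕ, γ.length % 2 = 1 ∧ x.sl = γ ++ [2] := by
  obtain ⟨δ, ⟨_, _, h⟩ | ⟨h0, ⟨_, h⟩ | ⟨_, h⟩ | ⟨h, _⟩⟩⟩ := h
  · omega
  · omega
  · omega
  · exact ⟨δ, h0, h⟩
lemma snoc_inj {u v : ℕ} (h : a ++ [u] = b ++ [v]) : a = b ∧ u = v := by
  have := List.append_inj' h rfl
  exact ⟨this.1, by simpa using this.2⟩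
lemma Shape.tagN {δ : List ℕ} {u : ℕ} (h : Shape x) (hs : x.sl = δ ++ [u])
    (hδ : δ.length % 2 = 0) : u = 0 ∧ x.tag ≤ 1 := by
  obtain ⟨δ', ⟨_, h1, h⟩ | ⟨h0, ⟨h1, _⟩ | ⟨h1, _⟩ | ⟨h1, _⟩⟩⟩ := h <;>
    obtain ⟨rfl, rfl⟩ := snoc_inj (hs.symm.trans h1)
  · exact ⟨rfl, h⟩
  all_goals omega
lemma Shape.tagM {δ : List ℕ} {u : ℕ} (h : Shape x) (hs : x.sl = δ ++ [u])
    (hδ : δ.length % 2 = 1) :
    (u = 0 ∧ x.tag = 2) ∨ (u = 1 ∧ (x.tag = 3 ∨ x.tag = 4)) ∨ (u = 2 ∧ x.tag = 5) := by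
  obtain ⟨δ', ⟨h0, h1, h⟩ | ⟨h0, ⟨h1, h⟩ | ⟨h1, h⟩ | ⟨h1, h⟩⟩⟩ := h <;>
    obtain ⟨rfl, rfl⟩ := snoc_inj (hs.symm.trans h1) <;> omega
lemma Cut.unique {s s' : St} (h : Cut s s' k) (h' : Cut s s' t) : k = t := by
  rcases lt_trichotomy k t with hl | hl | hl
  · exact absurd (get_congr h'.low hl) h.chg
  · exact hl
  · exact absurd (get_congr h.low hl) h'.chg
end A

end Pool.Agent.MP_68d28f_lc.CE.T4
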