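import Pool.Agent.MP_68d28f_lc.ce.t4.BasA

/-! Block T4: basic facts about instructions. -/

namespace Pool.Agent.MP_68d28f_lc.CE.T4

open Pool.Agent.MP_b427ce_lc

section B
variable {X z : ℕ → ℕ} {σ ρ τ τ' : List Ins} {L L' : Lit} {e n v c p j u : ℕ}
  {T T' : List ℕ → Bool} {i : Ins} {q q' : List ℕ} {V : List Ent} {t : List ℕ}

lemma dec_encode {α : Type} [Primcodable α] [Inhabited α] (a : α) :
    dec α (Encodable.encode a) = a := by simp [dec]

lemma Fnd.ex {α : Type} [Primcodable α] [Inhabited α] {P : α → Prop} {b : ℕ} (h : Fnd b P) :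
    ∃ a, P a := by
  obtain ⟨w, -, hw⟩ := h
  exact ⟨_, hw⟩

lemma fnd_of {α : Type} [Primcodable α] [Inhabited α] {P : α → Prop} {a : α} (h : P a) :
    ∃ N, ∀ b, N ≤ b → Fnd b P :=
  ⟨Encodable.encode a + 1, fun _ hb => ⟨Encodable.encode a, hb, by rwa [dec_encode]⟩⟩

lemma length_cd (σ : List Ins) : (cd σ).length = σ.length := by simp [cd]

lemma cd_mono (h : σ <+: ρ) : cd σ <+: cd ρ := h.map _

lemma cd_pre (G : ℕ → Ins) (n : ℕ) : cd (pre G n) = pre (gG G) n := map_pre _ _ _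

lemma zd_mono (h : σ <+: ρ) (hv : zd X e σ n = some v) : zd X e ρ n = some v :=
  ev_mono (zip2_mono (pre_isPrefix X h.length_le) (cd_mono h)) hv

lemma zd_pre (G : ℕ → Ins) (m : ℕ) : zd X e (pre G m) n = ev e (pre (jn X (gG G)) m) n := by
  rw [zd, length_pre, cd_pre, pre_jn]

lemma cons.mono (h : σ <+: ρ) (hz : cons X e ρ z) : cons X e σ z :=
  fun n v hv => hz n v (zd_mono h hv)

lemma tru_iff {l : List ℕ} : tru z l = true ↔ l = pre z l.length := by simp [tru]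

lemma tru_iff' {l : List ℕ} : tru z l = true ↔ ∀ n, n < l.length → l.getD n 0 = z n := by
  rw [tru_iff]
  refine ⟨fun h n hn => ?_, fun h => eq_pre_of rfl h⟩
  rw [h, getD_pre _ hn]

lemma tru_pre (z : ℕ → ℕ) (n : ℕ) : tru z (pre z n) = true := by simp [tru_iff]

lemma tnz_iff : tnz X i = true ↔ i.c = 0 ∧ tru X i.z = true ∧ i.w ≠ 0 := by
  simp [tnz, and_assoc]

lemma val_some (h : val c T σ p = some v) :
    ∃ i ∈ σ, i.c = c ∧ i.p = p ∧ T i.z = true ∧ i.w = v := by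
  obtain ⟨i, hi, rfl⟩ := Option.map_eq_some_iff.1 h
  have h1 := List.find?_some hi
  simp only [Bool.and_eq_true, eqB_iff] at h1
  exact ⟨i, List.mem_of_find?_eq_some hi, h1.1.1, h1.1.2, h1.2, rfl⟩

lemma val_none : val c T σ p = none ↔ ∀ i ∈ σ, i.c = c → i.p = p → T i.z = false := by
  simp [val]

lemma val_append (c : ℕ) (T : List ℕ → Bool) (σ τ : List Ins) (p : ℕ) :
    val c T (σ ++ τ) p = (val c T σ p).or (val c T τ p) := by
  simp only [val, List.find?_append]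
  cases σ.find? fun i => eqB i.c c && eqB i.p p && T i.z <;> simp

lemma val_mono (h : σ <+: ρ) (hv : val c T σ p = some v) : val c T ρ p = some v := by
  obtain ⟨τ, rfl⟩ := h
  rw [val_append, hv]
  rfl

lemma val_congr (h : ∀ i ∈ σ, i.c = c → T i.z = T' i.z) : val c T σ p = val c T' σ p := by
  unfold val
  congr 1
  induction σ with
  | nil => rfl
  | cons a σ ih =>
    have h1 : (eqB a.c c && eqB a.p p && T a.z) = (eqB a.c c && eqB a.p p && T' a.z) := by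
      by_cases hc : a.c = c
      · rw [h a List.mem_cons_self hc]
      · rw [eqB_false_iff.2 hc]
        rfl
    rw [List.find?_cons, List.find?_cons, h1, ih fun i hi => h i (List.mem_cons_of_mem _ hi)]

lemma val_isSome (hi : i ∈ σ) (hT : T i.z = true) : (val i.c T σ i.p).isSome = true := by
  cases hv : val i.c T σ i.p with
  | none => rw [val_none.1 hv i hi rfl rfl] at hT; cases hT
  | some v => rfl

lemma mem_wr {l l' : List ℕ} :
    i ∈ wr c l l' ↔ ∃ p, p < l'.length ∧ i = ⟨c, l, p, l'.getD p 0⟩ := by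
  simp only [wr, List.mem_map, List.mem_range, eq_comm]

lemma val_wr {l l' : List ℕ} (hT : T l = true) (hp : p < l'.length) :
    val c T (wr c l l') p = some (l'.getD p 0) := by
  have h1 := val_isSome (T := T) (mem_wr.2 ⟨p, hp, rfl⟩ : (⟨c, l, p, l'.getD p 0⟩ : Ins) ∈ _) hT
  obtain ⟨v, hv⟩ := Option.isSome_iff_exists.1 h1
  obtain ⟨i, hi, -, h2, -, h3⟩ := val_some hv
  obtain ⟨p', -, rfl⟩ := mem_wr.1 hi
  obtain rfl : p' = p := h2
  exact hv.trans (congrArg some h3.symm)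

lemma resp_append : resp L (τ ++ τ') ↔ resp L τ ∧ resp L τ' := by
  simp only [resp, List.forall_mem_append]

lemma frz_append : frz q (τ ++ τ') ↔ frz q τ ∧ frz q τ' := by
  simp only [frz, List.forall_mem_append]

lemma sil_append : sil c j u (τ ++ τ') ↔ sil c j u τ ∧ sil c j u τ' := by
  simp only [sil, List.forall_mem_append]

lemma resp.mono (h : resp L' τ) (hL : ∀ l ∈ L, l ∈ L') : resp L τ :=
  fun i hi l hl => h i hi l (hL l hl)

lemma frz.mono (h : frz q' τ) (hq : ∀ e ∈ q, e ∈ q') : frz q τ :=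
  fun i hi e he => h i hi e (hq e he)

lemma frz.sil (h : frz q τ) (he : e ∈ q) : sil (e + 1) n v τ :=
  fun i hi hc => absurd hc (h i hi e he)

lemma sil.not_tru (h : sil c j (z j) τ) (hi : i ∈ τ) (hc : i.c = c) : tru z i.z = false := by
  obtain ⟨h1, h2⟩ := h i hi hc
  rw [← Bool.not_eq_true, tru_iff']
  exact fun h3 => h2 (h3 j h1)

lemma resp_zero (h : LitOK X σ L) (hτ : ∀ i ∈ τ, i.c = 0 ∧ i.z = pre X (JJ L)) : resp L τ := by
  intro i hi l hl hc
  obtain ⟨h1, h2⟩ := hτ i hi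
  rw [h2, (h l hl).1 (hc.symm.trans h1)]
  exact pre_isPrefix X (le_lmax (List.mem_map.2 ⟨l, hl, rfl⟩))

lemma frz_zero (hτ : ∀ i ∈ τ, i.c = 0) : frz q τ := fun i hi e _ => by
  rw [hτ i hi]; omega

lemma LitOK.mono (h : LitOK X σ L) (hσ : σ <+: ρ) : LitOK X ρ L :=
  fun l hl => ⟨(h l hl).1, fun e he n hn => zd_mono hσ ((h l hl).2 e he n hn)⟩

lemma LitOK.cons_zero (h : LitOK X σ L) (J : ℕ) : LitOK X σ ((0, pre X J) :: L) := by
  intro l hl
  rcases List.mem_cons.1 hl with rfl | hl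
  · exact ⟨fun _ => by simp, fun e he => absurd he (by simp)⟩
  · exact h l hl

lemma sec.ext (h : sec V t L σ n v) (hr : resp L τ) (hq : frz (qq V) τ) (hL : ∀ l ∈ L, l ∈ L') :
    sec V t L' (σ ++ τ) n v := by
  rintro τ2 c ⟨o, ho, a1, a2, a3, a4, a5⟩
  obtain ⟨b1, b2, b3⟩ := own_some ho
  refine h (τ ++ τ2) c ⟨o, ho, resp_append.2 ⟨hr, a1.mono hL⟩,
    sil_append.2 ⟨hq.sil (mem_qq.2 ⟨o, b1, b2, b3⟩), a2⟩,
    frz_append.2 ⟨hq.mono fun e he => qq_mono (fun x hx => (mem_vw.1 hx).1) he, a3⟩, a4, ?_⟩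
  rwa [← List.append_assoc]

lemma tab.mono {l : List ℕ} (h : tab X e σ l) (hσ : σ <+: ρ) : tab X e ρ l :=
  fun z hz p hp => val_mono hσ (h z (hz.mono hσ) p hp)

lemma col_mkp (d n m : ℕ) : col (mkp d n m) = d := by simp [col, mkp]

lemma row_mkp (d n m : ℕ) : row (mkp d n m) = n := by simp [row, mkp]

lemma le_mkp (d n m : ℕ) : m ≤ mkp d n m :=
  (Nat.right_le_pair n m).trans (Nat.right_le_pair d _)

lemma col_le (p : ℕ) : col p ≤ p := Nat.unpair_left_le p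

lemma lt_big (hi : i ∈ σ) : i.p < big σ :=
  Nat.lt_succ_of_le (le_lmax (List.mem_map.2 ⟨i, hi, rfl⟩))

lemma row_lt_RR {d : ℕ} (hi : i ∈ σ) (ht : tnz X i = true) (hd : col i.p = d) :
    row i.p + 1 < RR X d σ :=
  Nat.lt_succ_of_le (le_lmax (List.mem_map.2 ⟨i, List.mem_filter.2 ⟨hi, by simp [ht, hd]⟩, rfl⟩))

lemma RR_le {d : ℕ} (h : ∀ i ∈ ρ, tnz X i = true → col i.p = d → i ∈ σ) :
    RR X d ρ ≤ RR X d σ := by
  refine Nat.succ_le_succ (lmax_le fun x hx => ?_)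
  obtain ⟨i, hi, rfl⟩ := List.mem_map.1 hx
  obtain ⟨h1, h2⟩ := List.mem_filter.1 hi
  simp only [Bool.and_eq_true, eqB_iff] at h2
  exact Nat.le_of_lt_succ (row_lt_RR (h i h1 h2.1 h2.2) h2.1 h2.2)

lemma Lz_le (h : ∀ i ∈ ρ, i.c = e + 1 → i ∈ σ) (h' : ∀ l ∈ L', l.1 = e + 1 → l ∈ L) :
    Lz e ρ L' ≤ Lz e σ L := by
  refine max_le_max (lmax_le fun x hx => ?_) (lmax_le fun x hx => ?_)
  · obtain ⟨i, hi, rfl⟩ := List.mem_map.1 hx
    obtain ⟨h1, h2⟩ := List.mem_filter.1 hi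
    exact le_lmax (List.mem_map.2 ⟨i, List.mem_filter.2 ⟨h i h1 (eqB_iff.1 h2), h2⟩, rfl⟩)
  · obtain ⟨i, hi, rfl⟩ := List.mem_map.1 hx
    obtain ⟨h1, h2⟩ := List.mem_filter.1 hi
    exact le_lmax (List.mem_map.2 ⟨i, List.mem_filter.2 ⟨h' i h1 (eqB_iff.1 h2), h2⟩, rfl⟩)

lemma length_mask (sd : ℕ) (l : List ℕ) : (mask sd l).length = l.length := by simp [mask]

lemma mask_mono {sd : ℕ} {l l' : List ℕ} (hl : l.length ≤ l'.length)
    (h : ∀ p, p < l.length → p % 2 = sd → l.getD p 0 = l'.getD p 0) :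
    mask sd l <+: mask sd l' := by
  unfold mask
  rw [pre_congr (b := fun p => cond (eqB (p % 2) sd) (l'.getD p 0) 0) fun p hp => ?_]
  · exact pre_isPrefix _ hl
  · by_cases hs : p % 2 = sd
    · rw [h p hp hs]
    · rw [eqB_false_iff.2 hs]
      rfl

lemma mask_pre (sd : ℕ) (C : ℕ → ℕ) (m : ℕ) : mask sd (pre C m) = pre (maskF sd C) m := by
  unfold mask
  rw [length_pre]
  exact pre_congr fun p hp => by rw [getD_pre _ hp]; rfl

lemma oval_mono {o : Ent} {l : List ℕ} (h : σ <+: ρ) (hv : oval o l σ = some v) :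
    oval o l ρ = some v :=
  ev_mono (zip2_mono (List.prefix_refl _) (cd_mono h)) hv

lemma length_zstr (X : ℕ → ℕ) (e : ℕ) (σ : List Ins) (R : ℕ) : (zstr X e σ R).length = R := by
  simp [zstr]

lemma zd_zstr {R : ℕ} (h : zdet X e σ R) (hn : n < R) :
    zd X e σ n = some ((zstr X e σ R).getD n 0) := by
  obtain ⟨v, hv⟩ := Option.isSome_iff_exists.1 (h n hn)
  rw [zstr, getD_pre _ hn, hv]
  rfl

lemma mem_cod {d : ℕ} : i ∈ cod X e d σ L ↔ ∃ n, n < RR X d σ ∧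
    i = ⟨0, pre X (JJ L), mkp d n (big σ), (zd X e σ n).getD 0 + 1⟩ := by
  simp only [cod, List.mem_map, List.mem_range, eq_comm]

lemma mem_opw {ω : List ℕ} : i ∈ opw X L σ ω ↔ ∃ p, p < ω.length ∧
    val 0 (tru X) σ p = none ∧ i = ⟨0, pre X (JJ L), p, ω.getD p 0⟩ := by
  simp only [opw, List.mem_map, List.mem_filter, List.mem_range, Option.isNone_iff_eq_none,
    and_assoc]
  exact exists_congr fun _ => and_congr Iff.rfl (and_congr Iff.rfl eq_comm)

lemma ActOK.hk {S0 : List Ent} (h : ActOK X σ L S0 τ L') (hL' : LitOK X ρ L') (m : ℕ) :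
    ActOK X σ L S0 (τ ++ [⟨0, pre X (JJ L'), m, 0⟩]) L' := by
  have r : resp L' [(⟨0, pre X (JJ L'), m, 0⟩ : Ins)] := resp_zero hL' (by simp)
  have f : ∀ q, frz q [(⟨0, pre X (JJ L'), m, 0⟩ : Ins)] := fun q => frz_zero (by simp)
  refine ⟨resp_append.2 ⟨h.rsp, r.mono h.sub⟩, h.sub, frz_append.2 ⟨h.fz, f _⟩, h.nl, ?_⟩
  intro i hi ht y hy h5 hb
  rcases List.mem_append.1 hi with hi | hi
  · obtain ⟨a1, a2⟩ := h.cl i hi ht y hy h5 hb
    refine ⟨a1, ?_⟩
    rw [← List.append_assoc]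
    exact a2.imp (zd_mono (List.prefix_append _ _)) fun a => a.ext r (f _) fun _ h => h
  · obtain rfl := List.mem_singleton.1 hi
    exact absurd rfl (tnz_iff.1 ht).2.2
end B

end Pool.Agent.MP_68d28f_lc.CE.T4
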