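import Pool.Agent.MP_68d28f_lc.ce.t4.Spec

/-! Block T4: computability of the data and decidability of the objects.
Besides the lemmas `dec_<name>` the file tags, for `fun_prop`, one compositional lemma `c_<name>`
for each projection and constructor of `Ins`, `Ent`, `St` and for each function of `Defs` (with the
hypothesis `ComputableIn O X` when `X` is an argument); the lemmas `d_<name>` are compositional
forms of the deciders. -/

namespace Pool.Agent.MP_68d28f_lc.CE.T4

open Pool.Agent.MP_b427ce_lc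

variable {α β : Type} [Primcodable α] [Primcodable β] {O : Set (ℕ →. ℕ)} {X : ℕ → ℕ}


lemma c_Ins_eqv {f : α → Ins} (hf : ComputableIn O f) :
    ComputableIn O fun a => Ins.eqv (f a) := c_prim Primrec.of_equiv hf

@[fun_prop] lemma c_Ins_c {f : α → Ins} (hf : ComputableIn O f) :
    ComputableIn O fun a => (f a).c :=
  c_fst (c_Ins_eqv hf)

@[fun_prop] lemma c_Ins_z {f : α → Ins} (hf : ComputableIn O f) :
    ComputableIn O fun a => (f a).z :=
  c_fst (c_snd (c_Ins_eqv hf))

@[fun_prop] lemma c_Ins_p {f : α → Ins} (hf : ComputableIn O f) :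
    ComputableIn O fun a => (f a).p :=
  c_fst (c_snd (c_snd (c_Ins_eqv hf)))

@[fun_prop] lemma c_Ins_w {f : α → Ins} (hf : ComputableIn O f) :
    ComputableIn O fun a => (f a).w :=
  c_snd (c_snd (c_snd (c_Ins_eqv hf)))

@[fun_prop] lemma c_Ins_mk
    {f0 : α → ℕ} {f1 : α → List ℕ} {f2 : α → ℕ} {f3 : α → ℕ}
    (h0 : ComputableIn O f0) (h1 : ComputableIn O f1) (h2 : ComputableIn O f2)
    (h3 : ComputableIn O f3) :
    ComputableIn O fun a => Ins.mk (f0 a) (f1 a) (f2 a) (f3 a) :=
  cin_of_eq (c_prim (f := Ins.eqv.symm) Primrec.of_equiv_symm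
    (c_pair h0 (c_pair h1 (c_pair h2 h3)))) fun _ => rfl

lemma c_Ent_eqv {f : α → Ent} (hf : ComputableIn O f) :
    ComputableIn O fun a => Ent.eqv (f a) := c_prim Primrec.of_equiv hf

@[fun_prop] lemma c_Ent_sl {f : α → Ent} (hf : ComputableIn O f) :
    ComputableIn O fun a => (f a).sl :=
  c_fst (c_Ent_eqv hf)

@[fun_prop] lemma c_Ent_tag {f : α → Ent} (hf : ComputableIn O f) :
    ComputableIn O fun a => (f a).tag :=
  c_fst (c_snd (c_Ent_eqv hf))

@[fun_prop] lemma c_Ent_a {f : α → Ent} (hf : ComputableIn O f) :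
    ComputableIn O fun a => (f a).a :=
  c_fst (c_snd (c_snd (c_Ent_eqv hf)))

@[fun_prop] lemma c_Ent_b {f : α → Ent} (hf : ComputableIn O f) :
    ComputableIn O fun a => (f a).b :=
  c_fst (c_snd (c_snd (c_snd (c_Ent_eqv hf))))

@[fun_prop] lemma c_Ent_l1 {f : α → Ent} (hf : ComputableIn O f) :
    ComputableIn O fun a => (f a).l1 :=
  c_fst (c_snd (c_snd (c_snd (c_snd (c_Ent_eqv hf)))))

@[fun_prop] lemma c_Ent_l2 {f : α → Ent} (hf : ComputableIn O f) :
    ComputableIn O fun a => (f a).l2 :=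
  c_fst (c_snd (c_snd (c_snd (c_snd (c_snd (c_Ent_eqv hf))))))

@[fun_prop] lemma c_Ent_L {f : α → Ent} (hf : ComputableIn O f) :
    ComputableIn O fun a => (f a).L :=
  c_snd (c_snd (c_snd (c_snd (c_snd (c_snd (c_Ent_eqv hf))))))

@[fun_prop] lemma c_Ent_mk
    {f0 : α → List ℕ} {f1 : α → ℕ} {f2 : α → ℕ} {f3 : α → ℕ} {f4 : α → List ℕ}
    {f5 : α → List ℕ} {f6 : α → Lit}
    (h0 : ComputableIn O f0) (h1 : ComputableIn O f1) (h2 : ComputableIn O f2)
    (h3 : ComputableIn O f3) (h4 : ComputableIn O f4) (h5 : ComputableIn O f5)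
    (h6 : ComputableIn O f6) :
    ComputableIn O fun a => Ent.mk (f0 a) (f1 a) (f2 a) (f3 a) (f4 a) (f5 a) (f6 a) :=
  cin_of_eq (c_prim (f := Ent.eqv.symm) Primrec.of_equiv_symm
    (c_pair h0 (c_pair h1 (c_pair h2 (c_pair h3 (c_pair h4 (c_pair h5 h6))))))) fun _ => rfl

lemma c_St_eqv {f : α → St} (hf : ComputableIn O f) :
    ComputableIn O fun a => St.eqv (f a) := c_prim Primrec.of_equiv hf

@[fun_prop] lemma c_St_sg {f : α → St} (hf : ComputableIn O f) :
    ComputableIn O fun a => (f a).sg :=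
  c_fst (c_St_eqv hf)

@[fun_prop] lemma c_St_L {f : α → St} (hf : ComputableIn O f) :
    ComputableIn O fun a => (f a).L :=
  c_fst (c_snd (c_St_eqv hf))

@[fun_prop] lemma c_St_S {f : α → St} (hf : ComputableIn O f) :
    ComputableIn O fun a => (f a).S :=
  c_fst (c_snd (c_snd (c_St_eqv hf)))

@[fun_prop] lemma c_St_cur {f : α → St} (hf : ComputableIn O f) :
    ComputableIn O fun a => (f a).cur :=
  c_fst (c_snd (c_snd (c_snd (c_St_eqv hf))))

@[fun_prop] lemma c_St_j {f : α → St} (hf : ComputableIn O f) :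
    ComputableIn O fun a => (f a).j :=
  c_fst (c_snd (c_snd (c_snd (c_snd (c_St_eqv hf)))))

@[fun_prop] lemma c_St_stg {f : α → St} (hf : ComputableIn O f) :
    ComputableIn O fun a => (f a).stg :=
  c_snd (c_snd (c_snd (c_snd (c_snd (c_St_eqv hf)))))

@[fun_prop] lemma c_St_mk
    {f0 : α → List Ins} {f1 : α → Lit} {f2 : α → List Ent} {f3 : α → List ℕ} {f4 : α → ℕ}
    {f5 : α → ℕ}
    (h0 : ComputableIn O f0) (h1 : ComputableIn O f1) (h2 : ComputableIn O f2)
    (h3 : ComputableIn O f3) (h4 : ComputableIn O f4) (h5 : ComputableIn O f5) :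
    ComputableIn O fun a => St.mk (f0 a) (f1 a) (f2 a) (f3 a) (f4 a) (f5 a) :=
  cin_of_eq (c_prim (f := St.eqv.symm) Primrec.of_equiv_symm
    (c_pair h0 (c_pair h1 (c_pair h2 (c_pair h3 (c_pair h4 h5)))))) fun _ => rfl

@[fun_prop] lemma c_dec [Inhabited β] {f : α → ℕ} (hf : ComputableIn O f) :
    ComputableIn O fun a => dec β (f a) := by unfold dec; fun_prop

@[fun_prop] lemma c_enc
    {f0 : α → Ins} (h0 : ComputableIn O f0) :
    ComputableIn O fun a => enc (f0 a) := by
  unfold enc; fun_prop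

@[fun_prop] lemma c_cd
    {f0 : α → List Ins} (h0 : ComputableIn O f0) :
    ComputableIn O fun a => cd (f0 a) := by
  unfold cd; fun_prop

@[fun_prop] lemma c_zd
    {f0 : α → ℕ} {f1 : α → List Ins} {f2 : α → ℕ} (hX : ComputableIn O X)
    (h0 : ComputableIn O f0) (h1 : ComputableIn O f1) (h2 : ComputableIn O f2) :
    ComputableIn O fun a => zd X (f0 a) (f1 a) (f2 a) := by
  unfold zd; fun_prop

@[fun_prop] lemma c_tru {f : α → ℕ → ℕ} {z : α → List ℕ}
    (hf : ComputableIn O fun p : α × ℕ => f p.1 p.2) (hz : ComputableIn O z) :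
    ComputableIn O fun a => tru (f a) (z a) := by unfold tru; fun_prop

@[fun_prop] lemma c_val {c p : α → ℕ} {T : α → List ℕ → Bool} {ρ : α → List Ins}
    (hc : ComputableIn O c) (hT : ComputableIn O fun q : α × List ℕ => T q.1 q.2)
    (hρ : ComputableIn O ρ) (hp : ComputableIn O p) :
    ComputableIn O fun a => val (c a) (T a) (ρ a) (p a) := by
  have h : ComputableIn O fun q : α × Ins => T q.1 q.2.z :=
    c_comp (f := fun q : α × List ℕ => T q.1 q.2) (g := fun q : α × Ins => (q.1, q.2.z)) hT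
      (by fun_prop)
  unfold val
  refine c_optMap (g := fun _ (i : Ins) => i.w) (c_find?
    (g := fun a (i : Ins) => eqB i.c (c a) && eqB i.p (p a) && T a i.z) hρ
    (c_and (by fun_prop) h)) (by fun_prop)

@[fun_prop] lemma c_tnz
    {f0 : α → Ins} (hX : ComputableIn O X) (h0 : ComputableIn O f0) :
    ComputableIn O fun a => tnz X (f0 a) := by
  unfold tnz; fun_prop

@[fun_prop] lemma c_col
    {f0 : α → ℕ} (h0 : ComputableIn O f0) :
    ComputableIn O fun a => col (f0 a) := by
  unfold col; fun_prop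

@[fun_prop] lemma c_row
    {f0 : α → ℕ} (h0 : ComputableIn O f0) :
    ComputableIn O fun a => row (f0 a) := by
  unfold row; fun_prop

@[fun_prop] lemma c_mkp
    {f0 : α → ℕ} {f1 : α → ℕ} {f2 : α → ℕ} (h0 : ComputableIn O f0) (h1 : ComputableIn O f1)
    (h2 : ComputableIn O f2) :
    ComputableIn O fun a => mkp (f0 a) (f1 a) (f2 a) := by
  unfold mkp; fun_prop

@[fun_prop] lemma c_mask
    {f0 : α → ℕ} {f1 : α → List ℕ} (h0 : ComputableIn O f0) (h1 : ComputableIn O f1) :
    ComputableIn O fun a => mask (f0 a) (f1 a) := by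
  unfold mask; fun_prop

@[fun_prop] lemma c_maskF {sd p : α → ℕ} {C : α → ℕ → ℕ} (hs : ComputableIn O sd)
    (hC : ComputableIn O fun q : α × ℕ => C q.1 q.2) (hp : ComputableIn O p) :
    ComputableIn O fun a => maskF (sd a) (C a) (p a) := by
  have h : ComputableIn O fun a => C a (p a) :=
    c_comp (f := fun q : α × ℕ => C q.1 q.2) (g := fun a => (a, p a)) hC (by fun_prop)
  unfold maskF
  exact c_cond (by fun_prop) h (by fun_prop)

@[fun_prop] lemma c_JJ
    {f0 : α → Lit} (h0 : ComputableIn O f0) :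
    ComputableIn O fun a => JJ (f0 a) := by
  unfold JJ; fun_prop

@[fun_prop] lemma c_eN
    {f0 : α → ℕ} (h0 : ComputableIn O f0) :
    ComputableIn O fun a => eN (f0 a) := by
  unfold eN; fun_prop

@[fun_prop] lemma c_lamN
    {f0 : α → ℕ} (h0 : ComputableIn O f0) :
    ComputableIn O fun a => lamN (f0 a) := by
  unfold lamN; fun_prop

@[fun_prop] lemma c_sdN
    {f0 : α → ℕ} (h0 : ComputableIn O f0) :
    ComputableIn O fun a => sdN (f0 a) := by
  unfold sdN; fun_prop

@[fun_prop] lemma c_eS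
    {f0 : α → List ℕ} (h0 : ComputableIn O f0) :
    ComputableIn O fun a => eS (f0 a) := by
  unfold eS; fun_prop

@[fun_prop] lemma c_lamS
    {f0 : α → List ℕ} (h0 : ComputableIn O f0) :
    ComputableIn O fun a => lamS (f0 a) := by
  unfold lamS; fun_prop

@[fun_prop] lemma c_sdS
    {f0 : α → List ℕ} (h0 : ComputableIn O f0) :
    ComputableIn O fun a => sdS (f0 a) := by
  unfold sdS; fun_prop

@[fun_prop] lemma c_vw
    {f0 : α → List Ent} {f1 : α → List ℕ} (h0 : ComputableIn O f0) (h1 : ComputableIn O f1) :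
    ComputableIn O fun a => vw (f0 a) (f1 a) := by
  unfold vw; fun_prop

@[fun_prop] lemma c_get
    {f0 : α → List Ent} {f1 : α → List ℕ} (h0 : ComputableIn O f0) (h1 : ComputableIn O f1) :
    ComputableIn O fun a => get (f0 a) (f1 a) := by
  unfold get; fun_prop

@[fun_prop] lemma c_isOwn
    {f0 : α → Ent} (h0 : ComputableIn O f0) :
    ComputableIn O fun a => isOwn (f0 a) := by
  unfold isOwn; fun_prop

@[fun_prop] lemma c_qq
    {f0 : α → List Ent} (h0 : ComputableIn O f0) :
    ComputableIn O fun a => qq (f0 a) := by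
  unfold qq; fun_prop

@[fun_prop] lemma c_EE
    {f0 : α → List Ent} {f1 : α → List ℕ} (h0 : ComputableIn O f0) (h1 : ComputableIn O f1) :
    ComputableIn O fun a => EE (f0 a) (f1 a) := by
  unfold EE; fun_prop

@[fun_prop] lemma c_NB
    {f0 : α → List Ent} {f1 : α → List ℕ} (h0 : ComputableIn O f0) (h1 : ComputableIn O f1) :
    ComputableIn O fun a => NB (f0 a) (f1 a) := by
  unfold NB; fun_prop

@[fun_prop] lemma c_own
    {f0 : α → List Ent} {f1 : α → List ℕ} (h0 : ComputableIn O f0) (h1 : ComputableIn O f1) :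
    ComputableIn O fun a => own (f0 a) (f1 a) := by
  unfold own; fun_prop

@[fun_prop] lemma c_wonS
    {f0 : α → List ℕ} (h0 : ComputableIn O f0) :
    ComputableIn O fun a => wonS (f0 a) := by
  unfold wonS; fun_prop

@[fun_prop] lemma c_oval
    {f0 : α → Ent} {f1 : α → List ℕ} {f2 : α → List Ins} (h0 : ComputableIn O f0)
    (h1 : ComputableIn O f1) (h2 : ComputableIn O f2) :
    ComputableIn O fun a => oval (f0 a) (f1 a) (f2 a) := by
  unfold oval; fun_prop

@[fun_prop] lemma c_xval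
    {f0 : α → List ℕ} {f1 : α → List Ins} {f2 : α → ℕ} {f3 : α → List Ins × List ℕ}
    (h0 : ComputableIn O f0) (h1 : ComputableIn O f1) (h2 : ComputableIn O f2)
    (h3 : ComputableIn O f3) :
    ComputableIn O fun a => xval (f0 a) (f1 a) (f2 a) (f3 a) := by
  unfold xval; fun_prop

@[fun_prop] lemma c_wonN
    {f0 : α → List ℕ} (h0 : ComputableIn O f0) :
    ComputableIn O fun a => wonN (f0 a) := by
  unfold wonN; fun_prop

@[fun_prop] lemma c_cert
    {f0 : α → List ℕ} {f1 : α → ℕ} {f2 : α → Lit} {f3 : α → ℕ} (h0 : ComputableIn O f0)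
    (h1 : ComputableIn O f1) (h2 : ComputableIn O f2) (h3 : ComputableIn O f3) :
    ComputableIn O fun a => cert (f0 a) (f1 a) (f2 a) (f3 a) := by
  unfold cert; fun_prop

@[fun_prop] lemma c_wonM
    {f0 : α → List ℕ} {f1 : α → List ℕ} {f2 : α → ℕ} (h0 : ComputableIn O f0)
    (h1 : ComputableIn O f1) (h2 : ComputableIn O f2) :
    ComputableIn O fun a => wonM (f0 a) (f1 a) (f2 a) := by
  unfold wonM; fun_prop

@[fun_prop] lemma c_wait
    {f0 : α → List ℕ} (h0 : ComputableIn O f0) :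
    ComputableIn O fun a => wait (f0 a) := by
  unfold wait; fun_prop

@[fun_prop] lemma c_ready
    {f0 : α → List ℕ} {f1 : α → List ℕ} {f2 : α → List ℕ} {f3 : α → ℕ} (h0 : ComputableIn O f0)
    (h1 : ComputableIn O f1) (h2 : ComputableIn O f2) (h3 : ComputableIn O f3) :
    ComputableIn O fun a => ready (f0 a) (f1 a) (f2 a) (f3 a) := by
  unfold ready; fun_prop

@[fun_prop] lemma c_fent
    {f0 : α → List ℕ} {f1 : α → ℕ} {f2 : α → ℕ} {f3 : α → Lit} (h0 : ComputableIn O f0)
    (h1 : ComputableIn O f1) (h2 : ComputableIn O f2) (h3 : ComputableIn O f3) :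
    ComputableIn O fun a => fent (f0 a) (f1 a) (f2 a) (f3 a) := by
  unfold fent; fun_prop

@[fun_prop] lemma c_fin
    {f0 : α → St} {f1 : α → List Ins} {f2 : α → Lit} {f3 : α → List Ent}
    (hX : ComputableIn O X) (h0 : ComputableIn O f0) (h1 : ComputableIn O f1)
    (h2 : ComputableIn O f2) (h3 : ComputableIn O f3) :
    ComputableIn O fun a => fin X (f0 a) (f1 a) (f2 a) (f3 a) := by
  unfold fin; fun_prop

@[fun_prop] lemma c_keep
    {f0 : α → List Ent} {f1 : α → List ℕ} (h0 : ComputableIn O f0) (h1 : ComputableIn O f1) :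
    ComputableIn O fun a => keep (f0 a) (f1 a) := by
  unfold keep; fun_prop

@[fun_prop] lemma c_mov
    {f0 : α → St} {f1 : α → List Ins} {f2 : α → ℕ} (h0 : ComputableIn O f0)
    (h1 : ComputableIn O f1) (h2 : ComputableIn O f2) :
    ComputableIn O fun a => mov (f0 a) (f1 a) (f2 a) := by
  unfold mov; fun_prop

@[fun_prop] lemma c_Lz
    {f0 : α → ℕ} {f1 : α → List Ins} {f2 : α → Lit} (h0 : ComputableIn O f0)
    (h1 : ComputableIn O f1) (h2 : ComputableIn O f2) :
    ComputableIn O fun a => Lz (f0 a) (f1 a) (f2 a) := by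
  unfold Lz; fun_prop

@[fun_prop] lemma c_zstr
    {f0 : α → ℕ} {f1 : α → List Ins} {f2 : α → ℕ} (hX : ComputableIn O X)
    (h0 : ComputableIn O f0) (h1 : ComputableIn O f1) (h2 : ComputableIn O f2) :
    ComputableIn O fun a => zstr X (f0 a) (f1 a) (f2 a) := by
  unfold zstr; fun_prop

@[fun_prop] lemma c_big
    {f0 : α → List Ins} (h0 : ComputableIn O f0) :
    ComputableIn O fun a => big (f0 a) := by
  unfold big; fun_prop

@[fun_prop] lemma c_wr
    {f0 : α → ℕ} {f1 : α → List ℕ} {f2 : α → List ℕ} (h0 : ComputableIn O f0)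
    (h1 : ComputableIn O f1) (h2 : ComputableIn O f2) :
    ComputableIn O fun a => wr (f0 a) (f1 a) (f2 a) := by
  unfold wr; fun_prop

@[fun_prop] lemma c_fillP
    {f0 : α → List ℕ} {f1 : α → List Ins} (h0 : ComputableIn O f0) (h1 : ComputableIn O f1) :
    ComputableIn O fun a => fillP (f0 a) (f1 a) := by
  unfold fillP; fun_prop

@[fun_prop] lemma c_fillE
    {f0 : α → List ℕ} {f1 : α → List Ins} {f2 : α → Lit} (hX : ComputableIn O X)
    (h0 : ComputableIn O f0) (h1 : ComputableIn O f1) (h2 : ComputableIn O f2) :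
    ComputableIn O fun a => fillE X (f0 a) (f1 a) (f2 a) := by
  unfold fillE; fun_prop

@[fun_prop] lemma c_fillR
    {f0 : α → List ℕ} {f1 : α → List Ins} {f2 : α → Lit} (hX : ComputableIn O X)
    (h0 : ComputableIn O f0) (h1 : ComputableIn O f1) (h2 : ComputableIn O f2) :
    ComputableIn O fun a => fillR X (f0 a) (f1 a) (f2 a) := by
  unfold fillR; fun_prop

@[fun_prop] lemma c_dia
    {f0 : α → List ℕ} {f1 : α → ℕ} {f2 : α → ℕ} (h0 : ComputableIn O f0)
    (h1 : ComputableIn O f1) (h2 : ComputableIn O f2) :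
    ComputableIn O fun a => dia (f0 a) (f1 a) (f2 a) := by
  unfold dia; fun_prop

@[fun_prop] lemma c_opw
    {f0 : α → Lit} {f1 : α → List Ins} {f2 : α → List ℕ} (hX : ComputableIn O X)
    (h0 : ComputableIn O f0) (h1 : ComputableIn O f1) (h2 : ComputableIn O f2) :
    ComputableIn O fun a => opw X (f0 a) (f1 a) (f2 a) := by
  unfold opw; fun_prop

@[fun_prop] lemma c_RR
    {f0 : α → ℕ} {f1 : α → List Ins} (hX : ComputableIn O X) (h0 : ComputableIn O f0)
    (h1 : ComputableIn O f1) :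
    ComputableIn O fun a => RR X (f0 a) (f1 a) := by
  unfold RR; fun_prop

@[fun_prop] lemma c_cod
    {f0 : α → ℕ} {f1 : α → ℕ} {f2 : α → List Ins} {f3 : α → Lit} (hX : ComputableIn O X)
    (h0 : ComputableIn O f0) (h1 : ComputableIn O f1) (h2 : ComputableIn O f2)
    (h3 : ComputableIn O f3) :
    ComputableIn O fun a => cod X (f0 a) (f1 a) (f2 a) (f3 a) := by
  unfold cod; fun_prop

@[fun_prop] lemma c_fresh
    {f0 : α → List Ins} {f1 : α → List Ent} (h0 : ComputableIn O f0) (h1 : ComputableIn O f1) :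
    ComputableIn O fun a => fresh (f0 a) (f1 a) := by
  unfold fresh; fun_prop

@[fun_prop] lemma c_lpL
    {f0 : α → Lit} {f1 : α → ℕ} (hX : ComputableIn O X) (h0 : ComputableIn O f0)
    (h1 : ComputableIn O f1) :
    ComputableIn O fun a => lpL X (f0 a) (f1 a) := by
  unfold lpL; fun_prop

@[fun_prop] lemma c_sum {f : α → List ℕ} (hf : ComputableIn O f) :
    ComputableIn O fun a => (f a).sum :=
  cin_of_eq (f := fun a => (f a).foldr (fun x y => x + y) 0) (by fun_prop) fun _ => rfl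

@[fun_prop] lemma c_wt {f : α → List Ent} (hf : ComputableIn O f) :
    ComputableIn O fun a => wt (f a) := by
  unfold wt; fun_prop

/-- composition of a function of two arguments -/
lemma cin2 {γ δ : Type} [Primcodable γ] [Primcodable δ] {R : α → β → γ}
    (hR : ComputableIn O fun p : α × β => R p.1 p.2)
    {f : δ → α} {g : δ → β} (hf : ComputableIn O f) (hg : ComputableIn O g) :
    ComputableIn O fun a => R (f a) (g a) :=
  c_comp (f := fun p : α × β => R p.1 p.2) hR (c_pair hf hg)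

lemma DecIn.comp {P : β → Prop} (h : DecIn O P) {g : α → β} (hg : ComputableIn O g) :
    DecIn O fun a => P (g a) := by
  obtain ⟨B, hB, h⟩ := h
  exact ⟨fun a => B (g a), c_comp hB hg, fun a => h _⟩

lemma DecIn.of_iff {P Q : α → Prop} (h : DecIn O P) (h' : ∀ a, P a ↔ Q a) : DecIn O Q := by
  obtain ⟨B, hB, h⟩ := h
  exact ⟨B, hB, fun a => (h a).trans (h' a)⟩

lemma DecIn.bool {B : α → Bool} (h : ComputableIn O B) : DecIn O fun a => B a = true :=
  ⟨B, h, fun _ => Iff.rfl⟩

lemma DecIn.and {P Q : α → Prop} (h : DecIn O P) (h' : DecIn O Q) :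
    DecIn O fun a => P a ∧ Q a := by
  obtain ⟨B, hB, h⟩ := h
  obtain ⟨B', hB', h'⟩ := h'
  exact ⟨fun a => B a && B' a, c_and hB hB', fun a => by rw [Bool.and_eq_true, h, h']⟩

lemma DecIn.or {P Q : α → Prop} (h : DecIn O P) (h' : DecIn O Q) :
    DecIn O fun a => P a ∨ Q a := by
  obtain ⟨B, hB, h⟩ := h
  obtain ⟨B', hB', h'⟩ := h'
  exact ⟨fun a => B a || B' a, c_or hB hB', fun a => by rw [Bool.or_eq_true, h, h']⟩

lemma DecIn.not {P : α → Prop} (h : DecIn O P) : DecIn O fun a => ¬ P a := by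
  obtain ⟨B, hB, h⟩ := h
  exact ⟨fun a => !B a, c_not hB, fun a => by simp [← h]⟩

lemma DecIn.imp {P Q : α → Prop} (h : DecIn O P) (h' : DecIn O Q) :
    DecIn O fun a => P a → Q a :=
  (h.not.or h').of_iff fun _ => imp_iff_not_or.symm

lemma DecIn.eq [DecidableEq β] {f g : α → β} (hf : ComputableIn O f) (hg : ComputableIn O g) :
    DecIn O fun a => f a = g a :=
  ⟨fun a => eqB (f a) (g a), c_eqB hf hg, fun _ => eqB_iff⟩

lemma DecIn.eq' {f g : α → β} (hf : ComputableIn O f) (hg : ComputableIn O g) :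
    DecIn O fun a => f a = g a := by
  classical exact DecIn.eq hf hg

lemma DecIn.le {f g : α → ℕ} (hf : ComputableIn O f) (hg : ComputableIn O g) :
    DecIn O fun a => f a ≤ g a :=
  ⟨fun a => leB (f a) (g a), c_leB hf hg, fun _ => leB_iff⟩

lemma DecIn.lt {f g : α → ℕ} (hf : ComputableIn O f) (hg : ComputableIn O g) :
    DecIn O fun a => f a < g a :=
  (DecIn.le hg hf).not.of_iff fun _ => not_le

lemma DecIn.pre {f g : α → List ℕ} (hf : ComputableIn O f) (hg : ComputableIn O g) :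
    DecIn O fun a => f a <+: g a :=
  ⟨fun a => preB (f a) (g a), c_preB hf hg, fun _ => preB_iff⟩

lemma DecIn.mem [Inhabited β] {f : α → β} {g : α → List β} (hf : ComputableIn O f)
    (hg : ComputableIn O g) : DecIn O fun a => f a ∈ g a := by
  classical exact ⟨fun a => memB (f a) (g a), c_memB hf hg, fun _ => memB_iff⟩

lemma DecIn.all [Inhabited β] {l : α → List β} {P : α → β → Prop} (hl : ComputableIn O l)
    (h : DecIn O fun p : α × β => P p.1 p.2) : DecIn O fun a => ∀ x ∈ l a, P a x := by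
  obtain ⟨B, hB, h⟩ := h
  refine ⟨fun a => (l a).all fun x => B (a, x), c_all (g := fun a x => B (a, x)) hl hB,
    fun a => ?_⟩
  simp only [List.all_eq_true, h]

lemma DecIn.any [Inhabited β] {l : α → List β} {P : α → β → Prop} (hl : ComputableIn O l)
    (h : DecIn O fun p : α × β => P p.1 p.2) : DecIn O fun a => ∃ x ∈ l a, P a x := by
  obtain ⟨B, hB, h⟩ := h
  refine ⟨fun a => (l a).any fun x => B (a, x), c_any (g := fun a x => B (a, x)) hl hB,
    fun a => ?_⟩
  simp only [List.any_eq_true, h]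

lemma DecIn.allLt {f : α → ℕ} {P : α → ℕ → Prop} (hf : ComputableIn O f)
    (h : DecIn O fun p : α × ℕ => P p.1 p.2) : DecIn O fun a => ∀ x, x < f a → P a x :=
  (DecIn.all (c_range hf) h).of_iff fun _ => by simp only [List.mem_range]

lemma DecIn.anyLt {f : α → ℕ} {P : α → ℕ → Prop} (hf : ComputableIn O f)
    (h : DecIn O fun p : α × ℕ => P p.1 p.2) : DecIn O fun a => ∃ x, x < f a ∧ P a x :=
  (DecIn.any (c_range hf) h).of_iff fun _ => by simp only [List.mem_range]

lemma DecIn.exOpt [Inhabited β] {f : α → Option β} {P : α → β → Prop} (hf : ComputableIn O f)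
    (h : DecIn O fun p : α × β => P p.1 p.2) : DecIn O fun a => ∃ x, f a = some x ∧ P a x :=
  (DecIn.any (c_toList hf) h).of_iff fun _ => by simp only [Option.mem_toList]

lemma DecIn.allOpt [Inhabited β] {f : α → Option β} {P : α → β → Prop} (hf : ComputableIn O f)
    (h : DecIn O fun p : α × β => P p.1 p.2) : DecIn O fun a => ∀ x, f a = some x → P a x :=
  (DecIn.all (c_toList hf) h).of_iff fun _ => by simp only [Option.mem_toList]

/-- composition of a decidable relation -/
lemma DecIn.comp2 {δ : Type} [Primcodable δ] {P : α → β → Prop}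
    (h : DecIn O fun p : α × β => P p.1 p.2) {f : δ → α} {g : δ → β} (hf : ComputableIn O f)
    (hg : ComputableIn O g) : DecIn O fun a => P (f a) (g a) :=
  DecIn.comp (P := fun p : α × β => P p.1 p.2) h (c_pair hf hg)

lemma DecIn.fnd [Inhabited β] {f : α → ℕ} {P : α → β → Prop} (hf : ComputableIn O f)
    (h : DecIn O fun p : α × β => P p.1 p.2) : DecIn O fun a => Fnd (f a) (P a) :=
  DecIn.anyLt (P := fun a w => P a (dec β w)) hf
    (DecIn.comp2 h (f := fun p : α × ℕ => p.1) (g := fun p => dec β p.2) (by fun_prop)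
      (by fun_prop))

lemma DecIn.exK [Inhabited β] {P : α → β → Prop} (h : DecIn ∅ fun p : α × β => P p.1 p.2) :
    DecIn (orc KK) fun a => ∃ x, P a x := by
  classical
  obtain ⟨B, hB, h⟩ := h
  refine ⟨_, sigma1_KK (R := fun a w => B (a, dec β w)) (toC (c_comp hB (by fun_prop))),
    fun a => ?_⟩
  rw [decide_eq_true_iff]
  constructor
  · rintro ⟨w, hw⟩
    exact ⟨_, (h _).1 hw⟩
  · rintro ⟨x, hx⟩
    refine ⟨Encodable.encode x, (h _).2 ?_⟩
    simpa [dec] using hx

lemma d_resp {L : α → Lit} {τ : α → List Ins} (hL : ComputableIn O L) (hτ : ComputableIn O τ) :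
    DecIn O fun a => resp (L a) (τ a) :=
  DecIn.all (P := fun a (i : Ins) => ∀ l ∈ L a, i.c = l.1 → l.2 <+: i.z) hτ
    (DecIn.all (P := fun (p : α × Ins) (l : ℕ × List ℕ) => p.2.c = l.1 → l.2 <+: p.2.z)
      (by fun_prop)
      ((DecIn.eq (by fun_prop) (by fun_prop)).imp (DecIn.pre (by fun_prop) (by fun_prop))))

lemma d_frz {q : α → List ℕ} {τ : α → List Ins} (hq : ComputableIn O q) (hτ : ComputableIn O τ) :
    DecIn O fun a => frz (q a) (τ a) :=
  DecIn.all (P := fun a (i : Ins) => ∀ e ∈ q a, i.c ≠ e + 1) hτ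
    (DecIn.all (P := fun (p : α × Ins) (e : ℕ) => p.2.c ≠ e + 1) (by fun_prop)
      (DecIn.eq (by fun_prop) (by fun_prop)).not)

lemma d_sil {c j u : α → ℕ} {τ : α → List Ins} (hc : ComputableIn O c) (hj : ComputableIn O j)
    (hu : ComputableIn O u) (hτ : ComputableIn O τ) :
    DecIn O fun a => sil (c a) (j a) (u a) (τ a) :=
  DecIn.all (P := fun a (i : Ins) => i.c = c a → j a < i.z.length ∧ i.z.getD (j a) 0 ≠ u a) hτ
    ((DecIn.eq (by fun_prop) (by fun_prop)).imp ((DecIn.lt (by fun_prop) (by fun_prop)).and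
      (DecIn.eq (by fun_prop) (by fun_prop)).not))

lemma d_left {f g : α → List ℕ} (hf : ComputableIn O f) (hg : ComputableIn O g) :
    DecIn O fun a => left (f a) (g a) :=
  ((DecIn.bool (c_ltB hf hg)).of_iff fun _ => ltB_iff).and (DecIn.pre hf hg).not

lemma d_triv {f : α → List ℕ} (hf : ComputableIn O f) : DecIn O fun a => triv (f a) :=
  DecIn.anyLt (P := fun a m => m % 2 = 1 ∧ eN m = eN (f a).length ∧ 2 ≤ (f a).getD m 0)
    (c_length hf) ((DecIn.eq (by fun_prop) (by fun_prop)).and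
      ((DecIn.eq (by fun_prop) (by fun_prop)).and (DecIn.le (by fun_prop) (by fun_prop))))

lemma d_zdet (hX : ComputableIn O X) {e R : α → ℕ} {σ : α → List Ins} (he : ComputableIn O e)
    (hσ : ComputableIn O σ) (hR : ComputableIn O R) :
    DecIn O fun a => zdet X (e a) (σ a) (R a) :=
  DecIn.allLt (P := fun a n => (zd X (e a) (σ a) n).isSome = true) hR (DecIn.bool (by fun_prop))

section obj
variable {V : α → List Ent} {t : α → List ℕ} {L : α → Lit} {σ : α → List Ins}

lemma d_cls (hX : ComputableIn O X) {τ : α → List Ins} (hV : ComputableIn O V)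
    (ht : ComputableIn O t) (hL : ComputableIn O L) (hσ : ComputableIn O σ)
    (hτ : ComputableIn O τ) : DecIn O fun a => cls X (V a) (t a) (L a) (σ a) (τ a) :=
  (d_resp hL hτ).and ((d_frz (c_qq hV) hτ).and
    (DecIn.all (P := fun a (i : Ins) => tnz X i = true → col i.p ∉ NB (V a) (t a) ∧
      ∀ x ∈ EE (V a) (t a), x.b = col i.p →
        zd X (eS x.sl) (σ a ++ τ a) (row i.p) = some (i.w - 1)) hτ
      ((DecIn.bool (by fun_prop)).imp ((DecIn.mem (by fun_prop) (by fun_prop)).not.and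
        (DecIn.all (P := fun (p : α × Ins) (x : Ent) => x.b = col p.2.p →
          zd X (eS x.sl) (σ p.1 ++ τ p.1) (row p.2.p) = some (p.2.w - 1)) (by fun_prop)
          ((DecIn.eq (by fun_prop) (by fun_prop)).imp (DecIn.eq (by fun_prop) (by fun_prop))))))))

lemma d_ob2 {n v : α → ℕ} {τ : α → List Ins} {c : α → List ℕ} (hV : ComputableIn O V)
    (ht : ComputableIn O t) (hL : ComputableIn O L) (hσ : ComputableIn O σ)
    (hn : ComputableIn O n) (hv : ComputableIn O v) (hτ : ComputableIn O τ)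
    (hc : ComputableIn O c) :
    DecIn O fun a => ob2 (V a) (t a) (L a) (σ a) (n a) (v a) (τ a) (c a) :=
  DecIn.exOpt (P := fun a (o : Ent) => resp (L a) (τ a) ∧ sil (eS (t a) + 1) (n a) (v a) (τ a) ∧
      frz (qq (vw (V a) (wonS o.sl))) (τ a) ∧ o.l2 <+: c a ∧
      (oval o (c a) (σ a ++ τ a)).isSome = true) (c_own hV ht)
    ((d_resp (by fun_prop) (by fun_prop)).and
      ((d_sil (by fun_prop) (by fun_prop) (by fun_prop) (by fun_prop)).and
        ((d_frz (by fun_prop) (by fun_prop)).and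
          ((DecIn.pre (by fun_prop) (by fun_prop)).and (DecIn.bool (by fun_prop))))))

lemma d_w1obj (hX : ComputableIn O X) {w : α → W1T} (hV : ComputableIn O V)
    (ht : ComputableIn O t) (hL : ComputableIn O L) (hσ : ComputableIn O σ)
    (hw : ComputableIn O w) : DecIn O fun a => w1obj X (V a) (t a) (L a) (σ a) (w a) :=
  (d_cls hX hV ht hL hσ (by fun_prop)).and ((DecIn.eq (by fun_prop) (by fun_prop)).and
    ((d_ob2 hV ht hL (by fun_prop) (by fun_prop) (by fun_prop) (by fun_prop) (by fun_prop)).and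
      (d_sil (by fun_prop) (by fun_prop) (by fun_prop) (by fun_prop))))

lemma d_xobj (hX : ComputableIn O X) {j : α → ℕ} {w : α → List Ins × List ℕ}
    (hV : ComputableIn O V) (ht : ComputableIn O t) (hL : ComputableIn O L)
    (hσ : ComputableIn O σ) (hj : ComputableIn O j) (hw : ComputableIn O w) :
    DecIn O fun a => xobj X (V a) (t a) (L a) (σ a) (j a) (w a) :=
  (d_cls hX hV ht hL hσ (by fun_prop)).and
    ((DecIn.allLt (P := fun a p =>
        val 0 (tru X) (σ a ++ (w a).1) p = some ((w a).2.getD p 0)) (by fun_prop)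
      (DecIn.eq (by fun_prop) (by fun_prop))).and (DecIn.bool (by fun_prop)))

lemma d_crt {Tb : α → ℕ → Option ℕ} {j v : α → ℕ} {w : α → List Ins × List ℕ}
    (hT : ComputableIn O fun p : α × ℕ => Tb p.1 p.2)
    (hV : ComputableIn O V) (ht : ComputableIn O t) (hL : ComputableIn O L)
    (hσ : ComputableIn O σ) (hj : ComputableIn O j) (hv : ComputableIn O v)
    (hw : ComputableIn O w) :
    DecIn O fun a => crt (Tb a) (V a) (t a) (L a) (σ a) (j a) (v a) (w a) :=
  (DecIn.le hv (by fun_prop)).and ((d_resp hL (by fun_prop)).and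
    ((d_sil (by fun_prop) hj (by fun_prop) (by fun_prop)).and
      ((d_frz (c_qq hV) (by fun_prop)).and ((DecIn.eq (by fun_prop) (by fun_prop)).and
        (DecIn.allLt (P := fun a p => (∀ u, Tb a p = some u → (w a).2.getD p 0 = u) ∧
            (Tb a p = none → (w a).2.getD p 0 ≠ 0 → col p ∉ NB (V a) (t a))) (by fun_prop)
          ((DecIn.allOpt (P := fun (p : α × ℕ) u => (w p.1).2.getD p.2 0 = u) hT
              (DecIn.eq (by fun_prop) (by fun_prop))).and
            ((DecIn.eq hT (by fun_prop)).imp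
              ((DecIn.eq (by fun_prop) (by fun_prop)).not.imp
                (DecIn.mem (by fun_prop) (by fun_prop)).not))))))))

end obj

lemma dec_resp : DecIn O fun p : Lit × List Ins => resp p.1 p.2 :=
  d_resp (by fun_prop) (by fun_prop)

lemma dec_frz : DecIn O fun p : List ℕ × List Ins => frz p.1 p.2 :=
  d_frz (by fun_prop) (by fun_prop)

lemma dec_sil : DecIn O fun p : ℕ × ℕ × ℕ × List Ins => sil p.1 p.2.1 p.2.2.1 p.2.2.2 :=
  d_sil (by fun_prop) (by fun_prop) (by fun_prop) (by fun_prop)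

lemma dec_ob2 : DecIn O fun p : (List Ent × List ℕ × Lit × List Ins) × (ℕ × ℕ) × List Ins × List ℕ =>
    ob2 p.1.1 p.1.2.1 p.1.2.2.1 p.1.2.2.2 p.2.1.1 p.2.1.2 p.2.2.1 p.2.2.2 :=
  d_ob2 (by fun_prop) (by fun_prop) (by fun_prop) (by fun_prop) (by fun_prop) (by fun_prop)
    (by fun_prop) (by fun_prop)

lemma dec_w1obj (hX : ComputableIn O X) :
    DecIn O fun p : (List Ent × List ℕ × Lit × List Ins) × W1T =>
      w1obj X p.1.1 p.1.2.1 p.1.2.2.1 p.1.2.2.2 p.2 :=
  d_w1obj hX (by fun_prop) (by fun_prop) (by fun_prop) (by fun_prop) (by fun_prop)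

lemma dec_xobj (hX : ComputableIn O X) :
    DecIn O fun p : (List Ent × List ℕ × Lit × List Ins) × ℕ × (List Ins × List ℕ) =>
      xobj X p.1.1 p.1.2.1 p.1.2.2.1 p.1.2.2.2 p.2.1 p.2.2 :=
  d_xobj hX (by fun_prop) (by fun_prop) (by fun_prop) (by fun_prop) (by fun_prop) (by fun_prop)

lemma dec_crt {Tb : α → ℕ → Option ℕ} (hT : ComputableIn O fun p : α × ℕ => Tb p.1 p.2) :
    DecIn O fun p : α × (List Ent × List ℕ × Lit × List Ins) × (ℕ × ℕ) × (List Ins × List ℕ) =>
      crt (Tb p.1) p.2.1.1 p.2.1.2.1 p.2.1.2.2.1 p.2.1.2.2.2 p.2.2.1.1 p.2.2.1.2 p.2.2.2 :=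
  d_crt (Tb := fun p : α × (List Ent × List ℕ × Lit × List Ins) × (ℕ × ℕ) ×
      (List Ins × List ℕ) => Tb p.1) (cin2 hT (by fun_prop) (by fun_prop))
    (by fun_prop) (by fun_prop) (by fun_prop) (by fun_prop) (by fun_prop) (by fun_prop)
    (by fun_prop)

lemma dec_sec : DecIn (orc KK) fun p : (List Ent × List ℕ × Lit × List Ins) × (ℕ × ℕ) =>
    sec p.1.1 p.1.2.1 p.1.2.2.1 p.1.2.2.2 p.2.1 p.2.2 :=
  (DecIn.exK (P := fun (p : (List Ent × List ℕ × Lit × List Ins) × (ℕ × ℕ))
      (w : List Ins × List ℕ) => ob2 p.1.1 p.1.2.1 p.1.2.2.1 p.1.2.2.2 p.2.1 p.2.2 w.1 w.2)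
    (d_ob2 (by fun_prop) (by fun_prop) (by fun_prop) (by fun_prop) (by fun_prop) (by fun_prop)
      (by fun_prop) (by fun_prop))).not.of_iff fun _ =>
    ⟨fun h τ c h' => h ⟨(τ, c), h'⟩, fun h ⟨w, h'⟩ => h w.1 w.2 h'⟩

section objK
variable {V : α → List Ent} {t : α → List ℕ} {L : α → Lit} {σ : α → List Ins}

lemma d_sec {n v : α → ℕ} (hV : ComputableIn (orc KK) V) (ht : ComputableIn (orc KK) t)
    (hL : ComputableIn (orc KK) L) (hσ : ComputableIn (orc KK) σ)
    (hn : ComputableIn (orc KK) n) (hv : ComputableIn (orc KK) v) :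
    DecIn (orc KK) fun a => sec (V a) (t a) (L a) (σ a) (n a) (v a) :=
  (dec_sec.comp (c_pair (c_pair hV (c_pair ht (c_pair hL hσ))) (c_pair hn hv))).of_iff
    fun _ => Iff.rfl

lemma d_bobj (hX : Red X KK) {w : α → BT} (hV : ComputableIn (orc KK) V)
    (ht : ComputableIn (orc KK) t) (hL : ComputableIn (orc KK) L)
    (hσ : ComputableIn (orc KK) σ) (hw : ComputableIn (orc KK) w) :
    DecIn (orc KK) fun a => bobj X (V a) (t a) (L a) (σ a) (w a) := by
  unfold Red at hX
  exact (d_crt (Tb := fun a => val 0 (tru X) (σ a)) (by fun_prop) hV ht hL hσ (by fun_prop)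
    (by fun_prop) (by fun_prop)).and
    (DecIn.allLt (P := fun a p => val 0 (tru X) (σ a) p = none → (w a).2.2.2.getD p 0 ≠ 0 →
      ∀ x ∈ EE (V a) (t a), x.b = col p →
        sec (vw (V a) x.sl) x.sl ((0, pre X (w a).2.1) :: L a) (σ a ++ (w a).2.2.1) (row p)
          ((w a).2.2.2.getD p 0 - 1)) (by fun_prop)
      ((DecIn.eq (by fun_prop) (by fun_prop)).imp
        ((DecIn.eq (by fun_prop) (by fun_prop)).not.imp
          (DecIn.all (P := fun (p : α × ℕ) (x : Ent) => x.b = col p.2 →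
            sec (vw (V p.1) x.sl) x.sl ((0, pre X (w p.1).2.1) :: L p.1)
              (σ p.1 ++ (w p.1).2.2.1) (row p.2) ((w p.1).2.2.2.getD p.2 0 - 1)) (by fun_prop)
            ((DecIn.eq (by fun_prop) (by fun_prop)).imp
              (d_sec (by fun_prop) (by fun_prop) (by fun_prop) (by fun_prop) (by fun_prop)
                (by fun_prop)))))))

end objK

lemma dec_bobj (hX : Red X KK) :
    DecIn (orc KK) fun p : (List Ent × List ℕ × Lit × List Ins) × BT =>
      bobj X p.1.1 p.1.2.1 p.1.2.2.1 p.1.2.2.2 p.2 :=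
  d_bobj hX (by fun_prop) (by fun_prop) (by fun_prop) (by fun_prop) (by fun_prop)

lemma c_table (X : ℕ → ℕ) (σ : List Ins) : ComputableIn O (val 0 (tru X) σ) := by
  refine cin_of_eq (f := fun p =>
    val 0 (fun z => memB z ((σ.map fun i => i.z).filter (tru X))) σ p) (by fun_prop) fun p => ?_
  unfold val
  congr 1
  refine List.find?_congr fun i hi => ?_
  congr 1
  rw [Bool.eq_iff_iff, memB_iff, List.mem_filter]
  exact ⟨fun h => h.2, fun h => ⟨List.mem_map_of_mem hi, h⟩⟩

section state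
variable {s : α → St} {b : α → ℕ} {x : α → Ent}

lemma d_RefN (hX : ComputableIn O X) (hs : ComputableIn O s) (hb : ComputableIn O b)
    (hx : ComputableIn O x) : DecIn O fun a => RefN X (s a) (b a) (x a) :=
  (DecIn.eq (by fun_prop) (by fun_prop)).and
    (DecIn.fnd (P := fun a => xobj X (vw (s a).S (x a).sl) (x a).sl (x a).L
      ((s a).sg.take (x a).a) (x a).b) hb
      (d_xobj hX (by fun_prop) (by fun_prop) (by fun_prop) (by fun_prop) (by fun_prop)
        (by fun_prop)))

lemma d_RefF (hX : ComputableIn O X) (hs : ComputableIn O s) (hb : ComputableIn O b)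
    (hx : ComputableIn O x) : DecIn O fun a => RefF X (s a) (b a) (x a) :=
  DecIn.fnd (P := fun a => w1obj X (vw (s a).S (x a).sl) (x a).sl (x a).L
    ((s a).sg.take (x a).a)) hb
    (d_w1obj hX (by fun_prop) (by fun_prop) (by fun_prop) (by fun_prop) (by fun_prop))

lemma d_AtN (hs : ComputableIn O s) : DecIn O fun a => AtN (s a) :=
  (DecIn.lt (by fun_prop) (by fun_prop)).and (DecIn.eq (by fun_prop) (by fun_prop))

lemma d_AtM (hs : ComputableIn O s) : DecIn O fun a => AtM (s a) :=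
  (DecIn.lt (by fun_prop) (by fun_prop)).and (DecIn.eq (by fun_prop) (by fun_prop))

lemma d_Abort (hX : ComputableIn O X) (hs : ComputableIn O s) (hb : ComputableIn O b) :
    DecIn O fun a => Abort X (s a) (b a) :=
  DecIn.any (P := fun a x => RefF X (s a) (b a) x) (by fun_prop)
    (d_RefF hX (by fun_prop) (by fun_prop) (by fun_prop))

lemma d_Pass (hs : ComputableIn O s) : DecIn O fun a => Pass (s a) :=
  (d_triv (by fun_prop)).or (DecIn.bool (by fun_prop))

end state

end Pool.Agent.MP_68d28f_lc.CE.T4
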