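import Pool.Agent.MP_68d28f_lc.ce.t4.Cmp1

/-! Block T4: the step of the construction is computable in the halting set. -/

namespace Pool.Agent.MP_68d28f_lc.CE.T4

open Pool.Agent.MP_b427ce_lc

namespace Cmp2

section sel

variable {α β γ : Type} [Primcodable α] [Primcodable β] [Primcodable γ] {O : Set (ℕ →. ℕ)}

/-- a computable function selects, under the hypothesis `A`, a value with the property `Q` -/
def Sel (O : Set (ℕ →. ℕ)) (A : α → Prop) (Q : α → β → Prop) : Prop :=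
  ∃ f : α → β, ComputableIn O f ∧ ∀ a, A a → Q a (f a)

variable {A : α → Prop} {Q : α → β → Prop}

lemma Sel.leaf (f : α → β) (hf : ComputableIn O f) (h : ∀ a, A a → Q a (f a)) : Sel O A Q :=
  ⟨f, hf, h⟩

lemma Sel.mono {A' : α → Prop} (h : Sel O A' Q) (h' : ∀ a, A a → A' a) : Sel O A Q := by
  obtain ⟨f, hf, h⟩ := h
  exact ⟨f, hf, fun a ha => h a (h' a ha)⟩

lemma Sel.split {P : α → Prop} (hP : DecIn O P) (h1 : Sel O (fun a => A a ∧ P a) Q)
    (h2 : Sel O (fun a => A a ∧ ¬ P a) Q) : Sel O A Q := by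
  obtain ⟨B, hB, hBP⟩ := hP
  obtain ⟨f, hf, h1⟩ := h1
  obtain ⟨g, hg, h2⟩ := h2
  refine ⟨fun a => cond (B a) (f a) (g a), c_cond hB hf hg, fun a ha => ?_⟩
  change Q a (cond (B a) (f a) (g a))
  cases e : B a
  · exact h2 a ⟨ha, fun hp => by rw [(hBP a).2 hp] at e; exact Bool.noConfusion e⟩
  · exact h1 a ⟨ha, (hBP a).1 e⟩

lemma Sel.bind {R : α → γ → Prop} (h1 : Sel O A R)
    (h2 : Sel O (fun p : α × γ => A p.1 ∧ R p.1 p.2) fun p => Q p.1) : Sel O A Q := by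
  obtain ⟨g, hg, h1⟩ := h1
  obtain ⟨f, hf, h2⟩ := h2
  exact ⟨fun a => f (a, g a), c_comp hf (c_pair c_id hg), fun a ha => h2 (a, g a) ⟨ha, h1 a ha⟩⟩

lemma sel_any [Inhabited γ] {l : α → List γ} {P : α → γ → Prop} (hl : ComputableIn O l)
    (hP : DecIn O fun p : α × γ => P p.1 p.2) :
    Sel O (fun a => ∃ x ∈ l a, P a x) fun a x => x ∈ l a ∧ P a x := by
  obtain ⟨B, hB, hBP⟩ := hP
  refine ⟨fun a => ((l a).find? fun x => B (a, x)).getD default,
    c_optGetD (c_find? (g := fun a x => B (a, x)) hl hB) (c_const _), ?_⟩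
  rintro a ⟨x, hx, hp⟩
  beta_reduce
  cases e : (l a).find? fun x => B (a, x) with
  | none =>
    exact absurd ((hBP (a, x)).2 hp) (List.find?_eq_none.1 e x hx)
  | some y =>
    exact ⟨List.mem_of_find?_eq_some e, (hBP (a, y)).1 (List.find?_some (p := fun x => B (a, x)) e)⟩

lemma Sel.any [Inhabited γ] {l : α → List γ} {P : α → γ → Prop} (hl : ComputableIn O l)
    (hP : DecIn O fun p : α × γ => P p.1 p.2)
    (h1 : Sel O (fun p : α × γ => A p.1 ∧ p.2 ∈ l p.1 ∧ P p.1 p.2) fun p => Q p.1)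
    (h2 : Sel O (fun a => A a ∧ ∀ x ∈ l a, ¬ P a x) Q) : Sel O A Q := by
  refine Sel.split (DecIn.any hl hP) ?_ (h2.mono fun a ha => ⟨ha.1, fun x hx hp => ha.2 ⟨x, hx, hp⟩⟩)
  exact Sel.bind ((sel_any hl hP).mono fun a ha => ha.2) (h1.mono fun p hp => ⟨hp.1.1, hp.2⟩)

lemma c_dec' [Inhabited γ] : ComputableIn O (dec γ) := by
  unfold dec
  exact c_optGetD (c_decode c_id) (c_const _)

lemma Sel.fnd [Inhabited γ] {f : α → ℕ} {P : α → γ → Prop} (hf : ComputableIn O f)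
    (hP : DecIn O fun p : α × γ => P p.1 p.2)
    (h1 : Sel O (fun p : α × γ => A p.1 ∧ P p.1 p.2) fun p => Q p.1)
    (h2 : Sel O (fun a => A a ∧ ¬ Fnd (f a) (P a)) Q) : Sel O A Q := by
  refine Sel.any (l := fun a => (List.range (f a)).map (dec γ))
    (c_map (g := fun _ w => dec γ w) (c_range hf) (c_comp c_dec' (c_snd c_id))) hP
    (h1.mono fun p hp => ⟨hp.1, hp.2.2⟩) (h2.mono fun a ha => ⟨ha.1, ?_⟩)
  rintro ⟨w, hw, hp⟩
  exact ha.2 _ (List.mem_map.2 ⟨w, List.mem_range.2 hw, rfl⟩) hp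

lemma Sel.opt [Inhabited γ] {o : α → Option γ} (ho : ComputableIn O o)
    (h1 : Sel O (fun p : α × γ => A p.1 ∧ o p.1 = some p.2) fun p => Q p.1)
    (h2 : Sel O (fun a => A a ∧ o a = none) Q) : Sel O A Q := by
  refine Sel.split (DecIn.bool (c_isSome ho)) ?_ (h2.mono fun a ha => ⟨ha.1, ?_⟩)
  · refine Sel.bind (R := fun a x => o a = some x)
      (Sel.leaf (fun a => (o a).getD default) (c_optGetD ho (c_const _)) fun a ha => ?_)
      (h1.mono fun p hp => ⟨hp.1.1, hp.2⟩)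
    obtain ⟨x, hx⟩ := Option.isSome_iff_exists.1 ha.2
    rw [hx]
    rfl
  · exact Option.not_isSome_iff_eq_none.1 ha.2

end sel

section deciders

variable {α : Type} [Primcodable α] {O : Set (ℕ →. ℕ)} {X : ℕ → ℕ}

lemma dec_refF (hX : ComputableIn O X) {s : α → St} {b : α → ℕ} {x : α → Ent}
    (hs : ComputableIn O s) (hb : ComputableIn O b) (hx : ComputableIn O x) :
    DecIn O fun a => RefF X (s a) (b a) (x a) :=
  DecIn.fnd (P := fun a => w1obj X (vw (s a).S (x a).sl) (x a).sl (x a).L ((s a).sg.take (x a).a))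
    hb ((dec_w1obj hX).comp (g := fun p : α × W1T =>
      ((vw (s p.1).S (x p.1).sl, (x p.1).sl, (x p.1).L, (s p.1).sg.take (x p.1).a), p.2))
      (by fun_prop))

lemma dec_refN (hX : ComputableIn O X) {s : α → St} {b : α → ℕ} {x : α → Ent}
    (hs : ComputableIn O s) (hb : ComputableIn O b) (hx : ComputableIn O x) :
    DecIn O fun a => RefN X (s a) (b a) (x a) :=
  DecIn.and (DecIn.eq (f := fun a => (x a).tag) (g := fun _ => 1) (by fun_prop) (c_const _))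
    (DecIn.fnd (P := fun a =>
      xobj X (vw (s a).S (x a).sl) (x a).sl (x a).L ((s a).sg.take (x a).a) (x a).b)
    hb ((dec_xobj hX).comp (g := fun p : α × (List Ins × List ℕ) =>
      ((vw (s p.1).S (x p.1).sl, (x p.1).sl, (x p.1).L, (s p.1).sg.take (x p.1).a),
        (x p.1).b, p.2)) (by fun_prop)))

lemma dec_abort (hX : ComputableIn O X) {s : α → St} {b : α → ℕ}
    (hs : ComputableIn O s) (hb : ComputableIn O b) : DecIn O fun a => Abort X (s a) (b a) :=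
  DecIn.any (l := fun a => EE (vw (s a).S ((s a).cur ++ [0])) ((s a).cur ++ [0]))
    (P := fun a x => RefF X (s a) (b a) x) (by fun_prop)
    (dec_refF hX (s := fun p : α × Ent => s p.1) (b := fun p => b p.1) (x := fun p => p.2)
      (by fun_prop) (by fun_prop) (by fun_prop))

lemma dec_le {f g : α → ℕ} (hf : ComputableIn O f) (hg : ComputableIn O g) :
    DecIn O fun a => f a ≤ g a :=
  (DecIn.bool (c_leB hf hg)).of_iff fun _ => leB_iff

lemma dec_triv {g : α → List ℕ} (hg : ComputableIn O g) : DecIn O fun a => triv (g a) := by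
  refine (DecIn.any (l := fun a => List.range (g a).length)
    (P := fun a m => m % 2 = 1 ∧ eN m = eN (g a).length ∧ 2 ≤ (g a).getD m 0) (by fun_prop)
    (DecIn.and (DecIn.eq (by fun_prop) (by fun_prop))
      (DecIn.and (DecIn.eq (by fun_prop) (by fun_prop))
        (dec_le (by fun_prop) (by fun_prop))))).of_iff fun a => ?_
  simp only [triv, List.mem_range]

lemma dec_pass {s : α → St} (hs : ComputableIn O s) : DecIn O fun a => Pass (s a) :=
  DecIn.or (dec_triv (g := fun a => (s a).cur) (by fun_prop))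
    (DecIn.bool (B := fun a => (get (s a).S ((s a).cur ++ [0])).isSome) (by fun_prop))

lemma dec_zdet (hX : ComputableIn O X) {e : α → ℕ} {σ : α → List Ins} {R : α → ℕ}
    (he : ComputableIn O e) (hσ : ComputableIn O σ) (hR : ComputableIn O R) :
    DecIn O fun a => zdet X (e a) (σ a) (R a) :=
  DecIn.allLt (P := fun a n => (zd X (e a) (σ a) n).isSome = true) hR
    (DecIn.bool (B := fun p : α × ℕ => (zd X (e p.1) (σ p.1) p.2).isSome) (by fun_prop))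

end deciders

variable {X : ℕ → ℕ}

lemma own_tag {V : List Ent} {t : List ℕ} {o : Ent} (h : own V t = some o) (h3 : ¬ o.tag = 3) :
    o.tag = 4 := by
  have h1 := List.find?_some h
  simp only [isOwn, Bool.and_eq_true, Bool.or_eq_true, eqB_iff] at h1
  exact h1.1.resolve_left h3

/-- an N-node whose slot is filled -/
lemma selN1 (hX : ComputableIn (orc KK) X) :
    Sel (orc KK) (fun p : (St × ℕ) × Ent => AtN p.1.1 ∧ get p.1.1.S (p.1.1.cur ++ [0]) = some p.2)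
      fun p => Stp X p.1.1 p.1.2 := by
  refine Sel.split (dec_refN hX (s := fun p : (St × ℕ) × Ent => p.1.1) (b := fun p => p.1.2)
    (x := fun p => p.2) (by fun_prop) (by fun_prop) (by fun_prop)) ?_ ?_
  · exact Sel.leaf (fun p => fin X p.1.1 [] p.1.1.L (vw p.1.1.S (p.1.1.cur ++ [0]))) (by fun_prop)
      fun p h => Stp.nRef p.2 h.1.1 h.1.2 h.2
  · exact Sel.leaf (fun p => mov p.1.1 [] 0) (by fun_prop) fun p h => Stp.nMov p.2 h.1.1 h.1.2 h.2

/-- the loop of an N-node -/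
lemma selN3 (hX : ComputableIn (orc KK) X) :
    Sel (orc KK) (fun p : St × ℕ => ((AtN p.1 ∧ get p.1.S (p.1.cur ++ [0]) = none) ∧
        ¬ Abort X p.1 p.2) ∧
        ¬ Fnd p.2 (bobj X (vw p.1.S (p.1.cur ++ [0])) (p.1.cur ++ [0]) p.1.L p.1.sg))
      fun p => Stp X p.1 p.2 := by
  refine Sel.fnd (f := fun p : St × ℕ => p.2) (P := fun p =>
    xobj X (vw p.1.S (p.1.cur ++ [0])) (p.1.cur ++ [0]) (lpL X p.1.L p.1.j) p.1.sg p.1.j)
    (by fun_prop) ((dec_xobj hX).comp (g := fun q : (St × ℕ) × (List Ins × List ℕ) =>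
      ((vw q.1.1.S (q.1.1.cur ++ [0]), q.1.1.cur ++ [0], lpL X q.1.1.L q.1.1.j, q.1.1.sg),
        q.1.1.j, q.2)) (by fun_prop)) ?_ ?_
  · refine Sel.split (DecIn.eq
      (f := fun q : (St × ℕ) × (List Ins × List ℕ) => xval (q.1.1.cur ++ [0]) q.1.1.sg q.1.1.j q.2)
      (g := fun q => some (X q.1.1.j)) (by fun_prop) (by fun_prop)) ?_ ?_
    · exact Sel.leaf
        (fun q => ⟨q.1.1.sg, q.1.1.L, q.1.1.S, q.1.1.cur, q.1.1.j + 1, q.1.1.stg⟩) (by fun_prop)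
        fun q h => Stp.nLoop q.2 h.1.1.1.1.1 h.1.1.1.1.2 h.1.1.1.2 h.1.1.2 h.1.2 h.2
    · exact Sel.leaf (fun q => fin X q.1.1 q.2.1 q.1.1.L
        (vw q.1.1.S (q.1.1.cur ++ [0]) ++ [wonN (q.1.1.cur ++ [0])])) (by fun_prop)
        fun q h => Stp.nWx q.2 h.1.1.1.1.1 h.1.1.1.1.2 h.1.1.1.2 h.1.2 h.2
  · exact Sel.leaf (fun p => fin X p.1 [] (lpL X p.1.L p.1.j) (vw p.1.S (p.1.cur ++ [0]) ++
      [cert (p.1.cur ++ [0]) p.1.sg.length (lpL X p.1.L p.1.j) p.1.j])) (by fun_prop)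
      fun p h => Stp.nCert h.1.1.1.1 h.1.1.1.2 h.1.1.2 h.2

/-- an N-node whose slot is empty -/
lemma selN2 (hX : ComputableIn (orc KK) X) :
    Sel (orc KK) (fun p : St × ℕ => AtN p.1 ∧ get p.1.S (p.1.cur ++ [0]) = none)
      fun p => Stp X p.1 p.2 := by
  refine Sel.split (dec_abort hX (s := fun p : St × ℕ => p.1) (b := fun p => p.2)
    (by fun_prop) (by fun_prop)) ?_ ?_
  · exact Sel.leaf (fun p => fin X p.1 [] p.1.L p.1.S) (by fun_prop)
      fun p h => Stp.nAb h.1.1 h.1.2 h.2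
  · refine Sel.fnd (f := fun p : St × ℕ => p.2) (P := fun p =>
      bobj X (vw p.1.S (p.1.cur ++ [0])) (p.1.cur ++ [0]) p.1.L p.1.sg)
      (by fun_prop) ((dec_bobj hX).comp (g := fun q : (St × ℕ) × BT =>
        ((vw q.1.1.S (q.1.1.cur ++ [0]), q.1.1.cur ++ [0], q.1.1.L, q.1.1.sg), q.2))
        (by fun_prop)) ?_ (selN3 hX)
    exact Sel.leaf (fun q => fin X q.1.1
      (q.2.2.2.1 ++ opw X ((0, pre X q.2.2.1) :: q.1.1.L) q.1.1.sg q.2.2.2.2)
      ((0, pre X q.2.2.1) :: q.1.1.L)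
      (vw q.1.1.S (q.1.1.cur ++ [0]) ++ [wonN (q.1.1.cur ++ [0])])) (by fun_prop)
      fun q h => Stp.nW1 q.2 h.1.1.1 h.1.1.2 h.1.2 h.2

/-- an N-node -/
lemma selN (hX : ComputableIn (orc KK) X) :
    Sel (orc KK) (fun p : St × ℕ => AtN p.1) fun p => Stp X p.1 p.2 :=
  Sel.opt (o := fun p : St × ℕ => get p.1.S (p.1.cur ++ [0])) (by fun_prop) (selN1 hX) (selN2 hX)

/-- the M-node `s.cur` is active and has the owner `o` -/
def HasO (s : St) (o : Ent) : Prop :=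
  (AtM s ∧ ¬ Pass s) ∧ own (vw s.S (s.cur ++ [2])) (s.cur ++ [2]) = some o

/-- a waiting owner -/
lemma selM3 (hX : ComputableIn (orc KK) X) :
    Sel (orc KK) (fun p : (St × ℕ) × Ent => HasO p.1.1 p.2 ∧ p.2.tag = 3)
      fun p => Stp X p.1.1 p.1.2 := by
  refine Sel.split (dec_zdet hX (e := fun p : (St × ℕ) × Ent => eS p.2.sl)
    (σ := fun p => p.1.1.sg) (R := fun p => Lz (eS p.2.sl) p.1.1.sg p.1.1.L)
    (by fun_prop) (by fun_prop) (by fun_prop)) ?_ ?_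
  · exact Sel.leaf (fun p => fin X p.1.1 (fillE X p.2.sl p.1.1.sg p.1.1.L) p.1.1.L
      (vw p.1.1.S p.2.sl ++ [fillR X p.2.sl p.1.1.sg p.1.1.L])) (by fun_prop)
      fun p h => Stp.mFill p.2 h.1.1.1.1 h.1.1.1.2 h.1.1.2 h.1.2 h.2
  · exact Sel.leaf (fun p => mov p.1.1 [] 3) (by fun_prop)
      fun p h => Stp.mWait p.2 h.1.1.1.1 h.1.1.1.2 h.1.1.2 h.1.2 h.2

lemma oval_of_w1obj {V : List Ent} {t : List ℕ} {L : Lit} {σ : List Ins} {w : W1T} {o : Ent}
    (ho : own V t = some o) (h : w1obj X V t L σ w) :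
    oval o w.2.2.2.2.2 (σ ++ w.1 ++ w.2.2.2.2.1) =
      some ((oval o w.2.2.2.2.2 (σ ++ w.1 ++ w.2.2.2.2.1)).getD 0) := by
  obtain ⟨o', ho', -, -, -, -, h6⟩ := h.2.2.1
  rw [ho] at ho'
  obtain rfl := Option.some.inj ho'
  obtain ⟨y, hy⟩ := Option.isSome_iff_exists.1 h6
  rw [hy]
  rfl

/-- a ready owner, the coding slot is empty -/
lemma selM4 (hX : ComputableIn (orc KK) X) :
    Sel (orc KK) (fun p : (St × ℕ) × Ent => (HasO p.1.1 p.2 ∧ p.2.tag = 4) ∧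
        get p.1.1.S (p.1.1.cur ++ [2]) = none)
      fun p => Stp X p.1.1 p.1.2 := by
  refine Sel.fnd (f := fun p : (St × ℕ) × Ent => p.1.2) (P := fun p =>
    w1obj X (vw p.1.1.S (p.1.1.cur ++ [2])) (p.1.1.cur ++ [2]) p.1.1.L p.1.1.sg)
    (by fun_prop) ((dec_w1obj hX).comp (g := fun q : ((St × ℕ) × Ent) × W1T =>
      ((vw q.1.1.1.S (q.1.1.1.cur ++ [2]), q.1.1.1.cur ++ [2], q.1.1.1.L, q.1.1.1.sg), q.2))
      (by fun_prop)) ?_ ?_
  · have hy : ComputableIn (orc KK) fun q : ((St × ℕ) × Ent) × W1T =>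
        dia q.2.2.2.2.2.2 q.1.2.b
          ((oval q.1.2 q.2.2.2.2.2.2 (q.1.1.1.sg ++ q.2.1 ++ q.2.2.2.2.2.1)).getD 0) := by
      fun_prop
    exact Sel.leaf (fun q => fin X q.1.1.1
      (q.2.1 ++ q.2.2.2.2.2.1 ++ wr (eS q.1.2.sl + 1) q.1.2.l1 (dia q.2.2.2.2.2.2 q.1.2.b
        ((oval q.1.2 q.2.2.2.2.2.2 (q.1.1.1.sg ++ q.2.1 ++ q.2.2.2.2.2.1)).getD 0))) q.1.1.1.L
      (vw q.1.1.1.S (wonS q.1.2.sl) ++ [wonM (wonS q.1.2.sl) (dia q.2.2.2.2.2.2 q.1.2.b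
        ((oval q.1.2 q.2.2.2.2.2.2 (q.1.1.1.sg ++ q.2.1 ++ q.2.2.2.2.2.1)).getD 0)) q.1.2.b]))
      (by fun_prop) fun q h => Stp.mW1 q.1.2 q.2 _ h.1.1.1.1.1 h.1.1.1.1.2 h.1.1.1.2 h.1.1.2 h.1.2
        h.2 (oval_of_w1obj h.1.1.1.2 h.2)
  · exact Sel.leaf (fun p => fin X p.1.1 [] p.1.1.L (vw p.1.1.S (p.1.1.cur ++ [2]) ++
      [fent (p.1.1.cur ++ [2]) (fresh p.1.1.sg p.1.1.S) p.1.1.sg.length p.1.1.L])) (by fun_prop)
      fun p h => Stp.mCert p.2 h.1.1.1.1.1 h.1.1.1.1.2 h.1.1.1.2 h.1.1.2 h.1.2 h.2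

/-- the owner `o` is ready and the coding slot holds `x` -/
def HasX (s : St) (o x : Ent) : Prop :=
  (HasO s o ∧ o.tag = 4) ∧ get s.S (s.cur ++ [2]) = some x

/-- a ready owner, the coding entry is not refuted and the functional is determined -/
lemma selM6 (hX : ComputableIn (orc KK) X) :
    Sel (orc KK) (fun p : ((St × ℕ) × Ent) × Ent => (HasX p.1.1.1 p.1.2 p.2 ∧
        ¬ RefF X p.1.1.1 p.1.1.2 p.2) ∧ zdet X (eS p.2.sl) p.1.1.1.sg (RR X p.2.b p.1.1.1.sg))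
      fun p => Stp X p.1.1.1 p.1.1.2 := by
  refine Sel.split (DecIn.all (l := fun p : ((St × ℕ) × Ent) × Ent => p.1.1.1.sg)
    (P := fun p i => tnz X i = true → col i.p = p.2.b →
      zd X (eS p.2.sl) p.1.1.1.sg (row i.p) = some (i.w - 1)) (by fun_prop)
    (DecIn.imp (DecIn.bool (by fun_prop)) (DecIn.imp (DecIn.eq (by fun_prop) (by fun_prop))
      (DecIn.eq (by fun_prop) (by fun_prop))))) ?_ ?_
  · exact Sel.leaf (fun p => mov p.1.1.1 (cod X (eS p.2.sl) p.2.b p.1.1.1.sg p.1.1.1.L) 2)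
      (by fun_prop) fun p h => Stp.mCod p.1.2 p.2 h.1.1.1.1.1.1.1 h.1.1.1.1.1.1.2 h.1.1.1.1.1.2
        h.1.1.1.1.2 h.1.1.1.2 h.1.1.2 h.1.2 h.2
  · refine Sel.leaf (fun p => fin X p.1.1.1 []
      ((eS p.2.sl + 1, zstr X (eS p.2.sl) p.1.1.1.sg (RR X p.2.b p.1.1.1.sg)) :: p.1.1.1.L)
      (vw p.1.1.1.S (wonS p.1.2.sl) ++ [wonM (wonS p.1.2.sl) p.1.2.l2 p.1.2.b]))
      (by fun_prop) fun p h => ?_
    obtain ⟨h, h2⟩ := h
    simp only [not_forall] at h2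
    obtain ⟨i, h3, h4, h5, h6⟩ := h2
    exact Stp.mW2 p.1.2 p.2 i h.1.1.1.1.1.1 h.1.1.1.1.1.2 h.1.1.1.1.2 h.1.1.1.2 h.1.1.2 h.1.2 h.2
      h3 h4 h5 h6

/-- a ready owner, the coding slot is filled -/
lemma selM5 (hX : ComputableIn (orc KK) X) :
    Sel (orc KK) (fun p : ((St × ℕ) × Ent) × Ent => HasX p.1.1.1 p.1.2 p.2)
      fun p => Stp X p.1.1.1 p.1.1.2 := by
  refine Sel.split (dec_refF hX (s := fun p : ((St × ℕ) × Ent) × Ent => p.1.1.1)
    (b := fun p => p.1.1.2) (x := fun p => p.2) (by fun_prop) (by fun_prop) (by fun_prop)) ?_ ?_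
  · exact Sel.leaf (fun p => fin X p.1.1.1 [] p.1.1.1.L (vw p.1.1.1.S (p.1.1.1.cur ++ [2])))
      (by fun_prop) fun p h => Stp.mRef p.1.2 p.2 h.1.1.1.1.1 h.1.1.1.1.2 h.1.1.1.2 h.1.1.2 h.1.2
        h.2
  · refine Sel.split (dec_zdet hX (e := fun p : ((St × ℕ) × Ent) × Ent => eS p.2.sl)
      (σ := fun p => p.1.1.1.sg) (R := fun p => RR X p.2.b p.1.1.1.sg)
      (by fun_prop) (by fun_prop) (by fun_prop)) (selM6 hX) ?_
    exact Sel.leaf (fun p => mov p.1.1.1 [] 3) (by fun_prop)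
      fun p h => Stp.mFin p.1.2 p.2 h.1.1.1.1.1.1 h.1.1.1.1.1.2 h.1.1.1.1.2 h.1.1.1.2 h.1.1.2
        h.1.2 h.2

/-- an active M-node with an owner -/
lemma selM2 (hX : ComputableIn (orc KK) X) :
    Sel (orc KK) (fun p : (St × ℕ) × Ent => HasO p.1.1 p.2) fun p => Stp X p.1.1 p.1.2 := by
  refine Sel.split (DecIn.eq (f := fun p : (St × ℕ) × Ent => p.2.tag) (g := fun _ => 3)
    (by fun_prop) (c_const _)) (selM3 hX) ?_
  refine Sel.mono (A' := fun p : (St × ℕ) × Ent => HasO p.1.1 p.2 ∧ p.2.tag = 4) ?_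
    fun p h => ⟨h.1, own_tag h.1.2 h.2⟩
  exact Sel.opt (o := fun p : (St × ℕ) × Ent => get p.1.1.S (p.1.1.cur ++ [2])) (by fun_prop)
    (selM5 hX) (selM4 hX)

/-- an M-node -/
lemma selM (hX : ComputableIn (orc KK) X) :
    Sel (orc KK) (fun p : St × ℕ => AtM p.1) fun p => Stp X p.1 p.2 := by
  refine Sel.split (dec_pass (s := fun p : St × ℕ => p.1) (by fun_prop)) ?_ ?_
  · exact Sel.leaf (fun p => mov p.1 [] 0) (by fun_prop) fun p h => Stp.mPass h.1 h.2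
  · refine Sel.opt (o := fun p : St × ℕ => own (vw p.1.S (p.1.cur ++ [2])) (p.1.cur ++ [2]))
      (by fun_prop) (selM2 hX) ?_
    exact Sel.leaf (fun p => fin X p.1 [] p.1.L
      (vw p.1.S (p.1.cur ++ [1]) ++ [wait (p.1.cur ++ [1])])) (by fun_prop)
      fun p h => Stp.mNew h.1.1 h.1.2 h.2

/-- every state -/
lemma selAll (hX : ComputableIn (orc KK) X) :
    Sel (orc KK) (fun _ : St × ℕ => True) fun p => Stp X p.1 p.2 := by
  refine Sel.split (dec_le (f := fun p : St × ℕ => p.1.stg) (g := fun p => p.1.cur.length)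
    (by fun_prop) (by fun_prop)) ?_ ?_
  · exact Sel.leaf (fun p => fin X p.1 [] p.1.L p.1.S) (by fun_prop) fun p h => Stp.cap h.2
  · refine Sel.split (DecIn.eq (f := fun p : St × ℕ => p.1.cur.length % 2) (g := fun _ => 0)
      (by fun_prop) (c_const _)) ((selN hX).mono fun p h => ⟨?_, h.2⟩)
      ((selM hX).mono fun p h => ⟨?_, ?_⟩)
    · exact Nat.lt_of_not_le h.1.2
    · exact Nat.lt_of_not_le h.1.2
    · exact Nat.mod_two_ne_zero.1 h.2

end Cmp2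

theorem compS : CompS := by
  intro X hX
  obtain ⟨f, hf, h⟩ := Cmp2.selAll (X := X) hX
  exact ⟨fun s b => f (s, b), hf, fun s b _ => h (s, b) trivial⟩

end Pool.Agent.MP_68d28f_lc.CE.T4
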