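import Pool.Agent.MP_68d28f_lc.ce.Kit

/-!
Block T4: instructions, slots, objects, the step relation, the invariants and the true path.
-/

namespace Pool.Agent.MP_68d28f_lc.CE.T4

open Pool.Agent.MP_b427ce_lc

/-- decoding with a default value -/
def dec (T : Type) [Primcodable T] [Inhabited T] (w : ℕ) : T :=
  (Encodable.decode w : Option T).getD default

/-- some code below `b` decodes to an object with property `P` -/
def Fnd {T : Type} [Primcodable T] [Inhabited T] (b : ℕ) (P : T → Prop) : Prop :=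
  ∃ w, w < b ∧ P (dec T w)

/-- `P` is decidable with the oracles `O` -/
def DecIn {α : Type} [Primcodable α] (O : Set (ℕ →. ℕ)) (P : α → Prop) : Prop :=
  ∃ B : α → Bool, ComputableIn O B ∧ ∀ a, B a = true ↔ P a

/-- an instruction: channel, condition, position, value -/
structure Ins where
  c : ℕ
  z : List ℕ
  p : ℕ
  w : ℕ

/-- promises: channel and string -/
abbrev Lit : Type := List (ℕ × List ℕ)

/-- an entry of the stack -/
structure Ent where
  sl : List ℕ
  tag : ℕ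
  a : ℕ
  b : ℕ
  l1 : List ℕ
  l2 : List ℕ
  L : Lit

/-- a state of the construction -/
structure St where
  sg : List Ins
  L : Lit
  S : List Ent
  cur : List ℕ
  j : ℕ
  stg : ℕ

instance : Inhabited Ins := ⟨⟨0, [], 0, 0⟩⟩
instance : Inhabited Ent := ⟨⟨[], 0, 0, 0, [], [], []⟩⟩
instance : Inhabited St := ⟨⟨[], [], [], [], 0, 0⟩⟩

/-- instructions as tuples -/
def Ins.eqv : Ins ≃ ℕ × List ℕ × ℕ × ℕ where
  toFun i := (i.c, i.z, i.p, i.w)
  invFun t := ⟨t.1, t.2.1, t.2.2.1, t.2.2.2⟩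
  left_inv _ := rfl
  right_inv _ := rfl

instance : Primcodable Ins := Primcodable.ofEquiv _ Ins.eqv

/-- entries as tuples -/
def Ent.eqv : Ent ≃ List ℕ × ℕ × ℕ × ℕ × List ℕ × List ℕ × Lit where
  toFun x := (x.sl, x.tag, x.a, x.b, x.l1, x.l2, x.L)
  invFun t := ⟨t.1, t.2.1, t.2.2.1, t.2.2.2.1, t.2.2.2.2.1, t.2.2.2.2.2.1, t.2.2.2.2.2.2⟩
  left_inv _ := rfl
  right_inv _ := rfl

instance : Primcodable Ent := Primcodable.ofEquiv _ Ent.eqv

/-- states as tuples -/
def St.eqv : St ≃ List Ins × Lit × List Ent × List ℕ × ℕ × ℕ where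
  toFun s := (s.sg, s.L, s.S, s.cur, s.j, s.stg)
  invFun t := ⟨t.1, t.2.1, t.2.2.1, t.2.2.2.1, t.2.2.2.2.1, t.2.2.2.2.2⟩
  left_inv _ := rfl
  right_inv _ := rfl

instance : Primcodable St := Primcodable.ofEquiv _ St.eqv

/-- the code of an instruction -/
def enc (i : Ins) : ℕ := Encodable.encode i

/-- the codes of a string of instructions -/
def cd (ρ : List Ins) : List ℕ := ρ.map enc

/-- the sequence of instructions as an oracle -/
def gG (G : ℕ → Ins) : ℕ → ℕ := fun n => enc (G n)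

/-- the value of the functional `e` with oracle `X` joined with `ρ` -/
def zd (X : ℕ → ℕ) (e : ℕ) (ρ : List Ins) (n : ℕ) : Option ℕ :=
  ev e (zip2 (pre X ρ.length) (cd ρ)) n

/-- `z` is an initial segment of `f` -/
def tru (f : ℕ → ℕ) (z : List ℕ) : Bool := eqB z (pre f z.length)

/-- the value of the first instruction of channel `c` and position `p` whose condition passes `T` -/
def val (c : ℕ) (T : List ℕ → Bool) (ρ : List Ins) (p : ℕ) : Option ℕ :=
  (ρ.find? fun i => eqB i.c c && eqB i.p p && T i.z).map fun i => i.w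

/-- a true instruction of channel zero with a nonzero value -/
def tnz (X : ℕ → ℕ) (i : Ins) : Bool := eqB i.c 0 && tru X i.z && !eqB i.w 0

/-- the column of a position -/
def col (p : ℕ) : ℕ := (Nat.unpair p).1
/-- the row of a position -/
def row (p : ℕ) : ℕ := (Nat.unpair (Nat.unpair p).2).1
/-- the position with column `d`, row `n` and index `i` -/
def mkp (d n i : ℕ) : ℕ := Nat.pair d (Nat.pair n i)

/-- keep the positions of parity `sd` -/
def mask (sd : ℕ) (c : List ℕ) : List ℕ :=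
  pre (fun p => cond (eqB (p % 2) sd) (c.getD p 0) 0) c.length
/-- keep the positions of parity `sd` -/
def maskF (sd : ℕ) (C : ℕ → ℕ) : ℕ → ℕ := fun p => cond (eqB (p % 2) sd) (C p) 0

/-- the instructions respect the promises -/
def resp (L : Lit) (τ : List Ins) : Prop := ∀ i ∈ τ, ∀ l ∈ L, i.c = l.1 → l.2 <+: i.z
/-- the conditions of channel `c` avoid the value `u` at `j` -/
def sil (c j u : ℕ) (τ : List Ins) : Prop :=
  ∀ i ∈ τ, i.c = c → j < i.z.length ∧ i.z.getD j 0 ≠ u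
/-- no instruction on a frozen channel -/
def frz (q : List ℕ) (τ : List Ins) : Prop := ∀ i ∈ τ, ∀ e ∈ q, i.c ≠ e + 1
/-- the largest length of a promise -/
def JJ (L : Lit) : ℕ := lmax (L.map fun l => l.2.length)

/-- the index `e` of a node of length `n` -/
def eN (n : ℕ) : ℕ := (Nat.unpair (n / 2)).1
/-- the functional of the subrequirement of a node of length `n` -/
def lamN (n : ℕ) : ℕ := (Nat.unpair (n / 2)).2 / 2
/-- the side of the subrequirement of a node of length `n` -/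
def sdN (n : ℕ) : ℕ := (Nat.unpair (n / 2)).2 % 2
/-- the index `e` of the node of a slot -/
def eS (t : List ℕ) : ℕ := eN (t.length - 1)
/-- the functional of the node of a slot -/
def lamS (t : List ℕ) : ℕ := lamN (t.length - 1)
/-- the side of the node of a slot -/
def sdS (t : List ℕ) : ℕ := sdN (t.length - 1)

/-- `a` is to the left of `b` -/
def left (a b : List ℕ) : Prop := a < b ∧ ¬ a <+: b
/-- the entries of higher priority than the slot `t` -/
def vw (S : List Ent) (t : List ℕ) : List Ent := S.filter fun x => ltB x.sl t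
/-- the entry at the slot `t` -/
def get (S : List Ent) (t : List ℕ) : Option Ent := S.find? fun x => eqB x.sl t
/-- owner entries -/
def isOwn (x : Ent) : Bool := eqB x.tag 3 || eqB x.tag 4
/-- the frozen indices -/
def qq (V : List Ent) : List ℕ := (V.filter isOwn).map fun x => eS x.sl
/-- the coding entries believed by the slot `t` -/
def EE (V : List Ent) (t : List ℕ) : List Ent := V.filter fun x => eqB x.tag 5 && preB x.sl t
/-- the columns not believed by the slot `t` -/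
def NB (V : List Ent) (t : List ℕ) : List ℕ :=
  (V.filter fun x => eqB x.tag 5 && !preB x.sl t).map fun x => x.b
/-- the owner for the slot `t` -/
def own (V : List Ent) (t : List ℕ) : Option Ent :=
  V.find? fun x => isOwn x && eqB (eS x.sl) (eS t)
/-- the slot of the win of an owner -/
def wonS (β : List ℕ) : List ℕ := β.take (β.length - 1) ++ [0]
/-- a node below an outcome at least two of a node with the same index -/
def triv (γ : List ℕ) : Prop :=
  ∃ m, m < γ.length ∧ m % 2 = 1 ∧ eN m = eN γ.length ∧ 2 ≤ γ.getD m 0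

/-- the class of extensions of the slot `t` -/
def cls (X : ℕ → ℕ) (V : List Ent) (t : List ℕ) (L : Lit) (σ τ : List Ins) : Prop :=
  resp L τ ∧ frz (qq V) τ ∧ ∀ i ∈ τ, tnz X i = true → col i.p ∉ NB V t ∧
    ∀ x ∈ EE V t, x.b = col i.p → zd X (eS x.sl) (σ ++ τ) (row i.p) = some (i.w - 1)

/-- the value of the functional of the owner `o` -/
def oval (o : Ent) (c : List ℕ) (ρ : List Ins) : Option ℕ :=
  ev (lamS o.sl) (zip2 (mask (sdS o.sl) c) (cd ρ)) o.b

/-- a convergent extension for the owner of `t` that avoids the value `v` at `n` -/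
def ob2 (V : List Ent) (t : List ℕ) (L : Lit) (ρ : List Ins) (n v : ℕ) (τ : List Ins)
    (c : List ℕ) : Prop :=
  ∃ o, own V t = some o ∧ resp L τ ∧ sil (eS t + 1) n v τ ∧ frz (qq (vw V (wonS o.sl))) τ ∧
    o.l2 <+: c ∧ (oval o c (ρ ++ τ)).isSome = true

/-- no such extension -/
def sec (V : List Ent) (t : List ℕ) (L : Lit) (ρ : List Ins) (n v : ℕ) : Prop :=
  ∀ τ c, ¬ ob2 V t L ρ n v τ c

/-- at every `j` one of the two values has no silent such extension -/
def valid (V : List Ent) (t : List ℕ) (L : Lit) (ρ : List Ins) (n v : ℕ) : Prop :=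
  ∀ j, ∃ u, u ≤ 1 ∧ ∀ τ c, ¬ (ob2 V t L ρ n v τ c ∧ sil 0 j u τ)

/-- witnesses `(τ₁, n, v, j, τ₂, c)` -/
abbrev W1T : Type := List Ins × ℕ × ℕ × ℕ × List Ins × List ℕ

/-- an object that wins for the owner of `t` -/
def w1obj (X : ℕ → ℕ) (V : List Ent) (t : List ℕ) (L : Lit) (σ : List Ins) (w : W1T) : Prop :=
  cls X V t L σ w.1 ∧ zd X (eS t) (σ ++ w.1) w.2.1 = some w.2.2.1 ∧
    ob2 V t L (σ ++ w.1) w.2.1 w.2.2.1 w.2.2.2.2.1 w.2.2.2.2.2 ∧
    sil 0 w.2.2.2.1 (X w.2.2.2.1) w.2.2.2.2.1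

/-- the value of the functional of the node of the slot `t` -/
def xval (t : List ℕ) (σ : List Ins) (j : ℕ) (w : List Ins × List ℕ) : Option ℕ :=
  ev ((t.length - 1) / 2) (zip2 w.2 (cd (σ ++ w.1))) j

/-- a verified convergent object -/
def xobj (X : ℕ → ℕ) (V : List Ent) (t : List ℕ) (L : Lit) (σ : List Ins) (j : ℕ)
    (w : List Ins × List ℕ) : Prop :=
  cls X V t L σ w.1 ∧
    (∀ p, p < w.2.length → val 0 (tru X) (σ ++ w.1) p = some (w.2.getD p 0)) ∧
    (xval t σ j w).isSome = true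

/-- a certificate for the value `v` at `j`, relative to the table `Tb` -/
def crt (Tb : ℕ → Option ℕ) (V : List Ent) (t : List ℕ) (L : Lit) (σ : List Ins) (j v : ℕ)
    (w : List Ins × List ℕ) : Prop :=
  v ≤ 1 ∧ resp L w.1 ∧ sil 0 j (1 - v) w.1 ∧ frz (qq V) w.1 ∧ xval t σ j w = some v ∧
    ∀ p, p < w.2.length → (∀ u, Tb p = some u → w.2.getD p 0 = u) ∧
      (Tb p = none → w.2.getD p 0 ≠ 0 → col p ∉ NB V t)

/-- witnesses `(j, J, τ, ω)` -/
abbrev BT : Type := ℕ × ℕ × List Ins × List ℕ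

/-- a wrong certificate whose open entries on believed columns are secured -/
def bobj (X : ℕ → ℕ) (V : List Ent) (t : List ℕ) (L : Lit) (σ : List Ins) (w : BT) : Prop :=
  crt (val 0 (tru X) σ) V t L σ w.1 (1 - X w.1) w.2.2 ∧
    ∀ p, p < w.2.2.2.length → val 0 (tru X) σ p = none → w.2.2.2.getD p 0 ≠ 0 →
      ∀ x ∈ EE V t, x.b = col p →
        sec (vw V x.sl) x.sl ((0, pre X w.2.1) :: L) (σ ++ w.2.2.1) (row p) (w.2.2.2.getD p 0 - 1)

/-- entry: a win of an N-node -/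
def wonN (t : List ℕ) : Ent := ⟨t, 0, 0, 0, [], [], []⟩
/-- entry: a certificate of an N-node -/
def cert (t : List ℕ) (len : ℕ) (L : Lit) (j : ℕ) : Ent := ⟨t, 1, len, j, [], [], L⟩
/-- entry: a win of an M-node -/
def wonM (t c : List ℕ) (p0 : ℕ) : Ent := ⟨t, 2, 0, p0, [], c, []⟩
/-- entry: a waiting owner -/
def wait (t : List ℕ) : Ent := ⟨t, 3, 0, 0, [], [], []⟩
/-- entry: a ready owner -/
def ready (t z c : List ℕ) (p0 : ℕ) : Ent := ⟨t, 4, 0, p0, z, c, []⟩
/-- entry: a coding column with its certificate -/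
def fent (t : List ℕ) (d len : ℕ) (L : Lit) : Ent := ⟨t, 5, len, d, [], [], L⟩

/-- end of a stage -/
def fin (X : ℕ → ℕ) (s : St) (ext : List Ins) (L' : Lit) (S' : List Ent) : St :=
  ⟨s.sg ++ ext ++ [⟨0, pre X (JJ L'), s.stg, 0⟩], L', S', [], 0, s.stg + 1⟩

/-- delete the entries to the right of `c` -/
def keep (S : List Ent) (c : List ℕ) : List Ent :=
  S.filter fun x => !(ltB c x.sl && !preB c x.sl)

/-- move to the outcome `o` -/
def mov (s : St) (ext : List Ins) (o : ℕ) : St :=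
  ⟨s.sg ++ ext, s.L, keep s.S (s.cur ++ [o]), s.cur ++ [o], 0, s.stg⟩

/-- the largest length of a condition or a promise on the channel of `e` -/
def Lz (e : ℕ) (σ : List Ins) (L : Lit) : ℕ :=
  max (lmax ((σ.filter fun i => eqB i.c (e + 1)).map fun i => i.z.length))
    (lmax ((L.filter fun l => eqB l.1 (e + 1)).map fun l => l.2.length))
/-- the functional `e` is determined below `R` -/
def zdet (X : ℕ → ℕ) (e : ℕ) (σ : List Ins) (R : ℕ) : Prop :=
  ∀ n, n < R → (zd X e σ n).isSome = true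
/-- the determined string of length `R` -/
def zstr (X : ℕ → ℕ) (e : ℕ) (σ : List Ins) (R : ℕ) : List ℕ :=
  pre (fun n => (zd X e σ n).getD 0) R
/-- a number larger than all positions -/
def big (σ : List Ins) : ℕ := lmax (σ.map fun i => i.p) + 1
/-- write the table `l` on channel `c` under the condition `z` -/
def wr (c : ℕ) (z l : List ℕ) : List Ins :=
  (List.range l.length).map fun p => ⟨c, z, p, l.getD p 0⟩
/-- the length of the table of a fill for the owner at `β` -/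
def fillP (β : List ℕ) (σ : List Ins) : ℕ := max β.length (big σ)
/-- the instructions of a fill -/
def fillE (X : ℕ → ℕ) (β : List ℕ) (σ : List Ins) (L : Lit) : List Ins :=
  wr (eS β + 1) (zstr X (eS β) σ (Lz (eS β) σ L)) (List.replicate (fillP β σ) 0)
/-- the ready entry after a fill -/
def fillR (X : ℕ → ℕ) (β : List ℕ) (σ : List Ins) (L : Lit) : Ent :=
  ready β (zstr X (eS β) σ (Lz (eS β) σ L))
    (pre (fun p => (val (eS β + 1) (fun z => preB z (zstr X (eS β) σ (Lz (eS β) σ L)))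
      (σ ++ fillE X β σ L) p).getD 0) (fillP β σ))
    (2 * fillP β σ + 1 - sdS β)
/-- the table after a diagonalization -/
def dia (c : List ℕ) (p0 y : ℕ) : List ℕ :=
  pre (fun p => cond (eqB p p0) (y + 1) (c.getD p 0)) (max c.length (p0 + 1))
/-- write the open positions of `ω` -/
def opw (X : ℕ → ℕ) (L' : Lit) (σ : List Ins) (ω : List ℕ) : List Ins :=
  ((List.range ω.length).filter fun p => (val 0 (tru X) σ p).isNone).map fun p =>
    ⟨0, pre X (JJ L'), p, ω.getD p 0⟩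
/-- a bound for the rows written in the column `d` -/
def RR (X : ℕ → ℕ) (d : ℕ) (σ : List Ins) : ℕ :=
  lmax ((σ.filter fun i => tnz X i && eqB (col i.p) d).map fun i => row i.p + 1) + 1
/-- the coding instructions -/
def cod (X : ℕ → ℕ) (e d : ℕ) (σ : List Ins) (L : Lit) : List Ins :=
  (List.range (RR X d σ)).map fun n =>
    ⟨0, pre X (JJ L), mkp d n (big σ), (zd X e σ n).getD 0 + 1⟩
/-- a fresh column -/
def fresh (σ : List Ins) (S : List Ent) : ℕ := big σ + lmax (S.map fun x => x.b)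

/-- the certificate of the N-entry `x` is refuted below `b` -/
def RefN (X : ℕ → ℕ) (s : St) (b : ℕ) (x : Ent) : Prop :=
  x.tag = 1 ∧ Fnd b (xobj X (vw s.S x.sl) x.sl x.L (s.sg.take x.a) x.b)
/-- the certificate of the coding entry `x` is refuted below `b` -/
def RefF (X : ℕ → ℕ) (s : St) (b : ℕ) (x : Ent) : Prop :=
  Fnd b (w1obj X (vw s.S x.sl) x.sl x.L (s.sg.take x.a))
/-- the current node is an N-node below the cap -/
def AtN (s : St) : Prop := s.cur.length < s.stg ∧ s.cur.length % 2 = 0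
/-- the current node is an M-node below the cap -/
def AtM (s : St) : Prop := s.cur.length < s.stg ∧ s.cur.length % 2 = 1
/-- a believed certificate is refuted below `b` -/
def Abort (X : ℕ → ℕ) (s : St) (b : ℕ) : Prop :=
  ∃ x ∈ EE (vw s.S (s.cur ++ [0])) (s.cur ++ [0]), RefF X s b x
/-- the M-node is trivial or has won -/
def Pass (s : St) : Prop := triv s.cur ∨ (get s.S (s.cur ++ [0])).isSome = true
/-- the promises of the loop -/
def lpL (X : ℕ → ℕ) (L : Lit) (j : ℕ) : Lit := (0, pre X (j + 1)) :: L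

/-- one step of the construction with the bound `b` -/
inductive Stp (X : ℕ → ℕ) (s : St) (b : ℕ) : St → Prop
  | cap : s.stg ≤ s.cur.length → Stp X s b (fin X s [] s.L s.S)
  | nRef (x : Ent) : AtN s → get s.S (s.cur ++ [0]) = some x → RefN X s b x →
      Stp X s b (fin X s [] s.L (vw s.S (s.cur ++ [0])))
  | nMov (x : Ent) : AtN s → get s.S (s.cur ++ [0]) = some x → ¬ RefN X s b x →
      Stp X s b (mov s [] 0)
  | nAb : AtN s → get s.S (s.cur ++ [0]) = none → Abort X s b → Stp X s b (fin X s [] s.L s.S)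
  | nW1 (w : BT) : AtN s → get s.S (s.cur ++ [0]) = none → ¬ Abort X s b →
      bobj X (vw s.S (s.cur ++ [0])) (s.cur ++ [0]) s.L s.sg w →
      Stp X s b (fin X s (w.2.2.1 ++ opw X ((0, pre X w.2.1) :: s.L) s.sg w.2.2.2)
        ((0, pre X w.2.1) :: s.L) (vw s.S (s.cur ++ [0]) ++ [wonN (s.cur ++ [0])]))
  | nLoop (w : List Ins × List ℕ) : AtN s → get s.S (s.cur ++ [0]) = none → ¬ Abort X s b →
      ¬ Fnd b (bobj X (vw s.S (s.cur ++ [0])) (s.cur ++ [0]) s.L s.sg) →
      xobj X (vw s.S (s.cur ++ [0])) (s.cur ++ [0]) (lpL X s.L s.j) s.sg s.j w →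
      xval (s.cur ++ [0]) s.sg s.j w = some (X s.j) →
      Stp X s b ⟨s.sg, s.L, s.S, s.cur, s.j + 1, s.stg⟩
  | nWx (w : List Ins × List ℕ) : AtN s → get s.S (s.cur ++ [0]) = none → ¬ Abort X s b →
      xobj X (vw s.S (s.cur ++ [0])) (s.cur ++ [0]) (lpL X s.L s.j) s.sg s.j w →
      xval (s.cur ++ [0]) s.sg s.j w ≠ some (X s.j) →
      Stp X s b (fin X s w.1 s.L (vw s.S (s.cur ++ [0]) ++ [wonN (s.cur ++ [0])]))
  | nCert : AtN s → get s.S (s.cur ++ [0]) = none → ¬ Abort X s b →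
      ¬ Fnd b (xobj X (vw s.S (s.cur ++ [0])) (s.cur ++ [0]) (lpL X s.L s.j) s.sg s.j) →
      Stp X s b (fin X s [] (lpL X s.L s.j)
        (vw s.S (s.cur ++ [0]) ++ [cert (s.cur ++ [0]) s.sg.length (lpL X s.L s.j) s.j]))
  | mPass : AtM s → Pass s → Stp X s b (mov s [] 0)
  | mNew : AtM s → ¬ Pass s → own (vw s.S (s.cur ++ [2])) (s.cur ++ [2]) = none →
      Stp X s b (fin X s [] s.L (vw s.S (s.cur ++ [1]) ++ [wait (s.cur ++ [1])]))
  | mFill (o : Ent) : AtM s → ¬ Pass s → own (vw s.S (s.cur ++ [2])) (s.cur ++ [2]) = some o →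
      o.tag = 3 → zdet X (eS o.sl) s.sg (Lz (eS o.sl) s.sg s.L) →
      Stp X s b (fin X s (fillE X o.sl s.sg s.L) s.L (vw s.S o.sl ++ [fillR X o.sl s.sg s.L]))
  | mWait (o : Ent) : AtM s → ¬ Pass s → own (vw s.S (s.cur ++ [2])) (s.cur ++ [2]) = some o →
      o.tag = 3 → ¬ zdet X (eS o.sl) s.sg (Lz (eS o.sl) s.sg s.L) → Stp X s b (mov s [] 3)
  | mW1 (o : Ent) (w : W1T) (y : ℕ) : AtM s → ¬ Pass s →
      own (vw s.S (s.cur ++ [2])) (s.cur ++ [2]) = some o → o.tag = 4 →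
      get s.S (s.cur ++ [2]) = none →
      w1obj X (vw s.S (s.cur ++ [2])) (s.cur ++ [2]) s.L s.sg w →
      oval o w.2.2.2.2.2 (s.sg ++ w.1 ++ w.2.2.2.2.1) = some y →
      Stp X s b (fin X s (w.1 ++ w.2.2.2.2.1 ++ wr (eS o.sl + 1) o.l1 (dia w.2.2.2.2.2 o.b y)) s.L
        (vw s.S (wonS o.sl) ++ [wonM (wonS o.sl) (dia w.2.2.2.2.2 o.b y) o.b]))
  | mCert (o : Ent) : AtM s → ¬ Pass s →
      own (vw s.S (s.cur ++ [2])) (s.cur ++ [2]) = some o → o.tag = 4 →
      get s.S (s.cur ++ [2]) = none →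
      ¬ Fnd b (w1obj X (vw s.S (s.cur ++ [2])) (s.cur ++ [2]) s.L s.sg) →
      Stp X s b (fin X s [] s.L
        (vw s.S (s.cur ++ [2]) ++ [fent (s.cur ++ [2]) (fresh s.sg s.S) s.sg.length s.L]))
  | mRef (o x : Ent) : AtM s → ¬ Pass s →
      own (vw s.S (s.cur ++ [2])) (s.cur ++ [2]) = some o → o.tag = 4 →
      get s.S (s.cur ++ [2]) = some x → RefF X s b x →
      Stp X s b (fin X s [] s.L (vw s.S (s.cur ++ [2])))
  | mFin (o x : Ent) : AtM s → ¬ Pass s →
      own (vw s.S (s.cur ++ [2])) (s.cur ++ [2]) = some o → o.tag = 4 →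
      get s.S (s.cur ++ [2]) = some x → ¬ RefF X s b x →
      ¬ zdet X (eS x.sl) s.sg (RR X x.b s.sg) → Stp X s b (mov s [] 3)
  | mW2 (o x : Ent) (i : Ins) : AtM s → ¬ Pass s →
      own (vw s.S (s.cur ++ [2])) (s.cur ++ [2]) = some o → o.tag = 4 →
      get s.S (s.cur ++ [2]) = some x → ¬ RefF X s b x →
      zdet X (eS x.sl) s.sg (RR X x.b s.sg) → i ∈ s.sg → tnz X i = true → col i.p = x.b →
      zd X (eS x.sl) s.sg (row i.p) ≠ some (i.w - 1) →
      Stp X s b (fin X s [] ((eS x.sl + 1, zstr X (eS x.sl) s.sg (RR X x.b s.sg)) :: s.L)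
        (vw s.S (wonS o.sl) ++ [wonM (wonS o.sl) o.l2 o.b]))
  | mCod (o x : Ent) : AtM s → ¬ Pass s →
      own (vw s.S (s.cur ++ [2])) (s.cur ++ [2]) = some o → o.tag = 4 →
      get s.S (s.cur ++ [2]) = some x → ¬ RefF X s b x →
      zdet X (eS x.sl) s.sg (RR X x.b s.sg) →
      (∀ i ∈ s.sg, tnz X i = true → col i.p = x.b →
        zd X (eS x.sl) s.sg (row i.p) = some (i.w - 1)) →
      Stp X s b (mov s (cod X (eS x.sl) x.b s.sg s.L) 2)

/-- `z` agrees with the determined values -/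
def cons (X : ℕ → ℕ) (e : ℕ) (σ : List Ins) (z : ℕ → ℕ) : Prop :=
  ∀ n v, zd X e σ n = some v → z n = v

/-- the table `c` is written on the channel of `e` for every consistent `z` -/
def tab (X : ℕ → ℕ) (e : ℕ) (σ : List Ins) (c : List ℕ) : Prop :=
  ∀ z, cons X e σ z → ∀ p, p < c.length → val (e + 1) (tru z) σ p = some (c.getD p 0)

/-- the shape of an entry -/
def Shape (x : Ent) : Prop :=
  ∃ δ : List ℕ, (δ.length % 2 = 0 ∧ x.sl = δ ++ [0] ∧ x.tag ≤ 1) ∨
    (δ.length % 2 = 1 ∧ ((x.sl = δ ++ [0] ∧ x.tag = 2) ∨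
      (x.sl = δ ++ [1] ∧ (x.tag = 3 ∨ x.tag = 4)) ∨ (x.sl = δ ++ [2] ∧ x.tag = 5)))

/-- the invariant of the entry `x` with view `V` -/
structure EI (X : ℕ → ℕ) (σ : List Ins) (L : Lit) (V : List Ent) (x : Ent) : Prop where
  wn : x.tag = 0 → ∃ j ω y, xval x.sl σ j ([], ω) = some y ∧ y ≠ X j ∧
    ∀ p, p < ω.length → val 0 (tru X) σ p = some (ω.getD p 0)
  wk : x.tag = 1 ∨ x.tag = 5 → x.a ≤ σ.length ∧ (∀ l ∈ x.L, l ∈ L) ∧ resp x.L (σ.drop x.a) ∧
    frz (qq V) (σ.drop x.a) ∧ ∀ i ∈ σ.drop x.a, tnz X i = true → col i.p ∉ NB V x.sl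
  wm : x.tag = 2 → x.b % 2 ≠ sdS x.sl ∧ x.sl.length ≤ x.l2.length ∧ tab X (eS x.sl) σ x.l2 ∧
    ((x.b < x.l2.length ∧ ∃ y, oval x x.l2 σ = some y ∧ y ≠ x.l2.getD x.b 0) ∨
      ∀ τ c, resp L τ → frz (qq V) τ → x.l2 <+: c → oval x c (σ ++ τ) = none)
  ow : isOwn x = true → eS x.sl ∉ qq V ∧ get V (wonS x.sl) = none
  rd : x.tag = 4 → (∀ n, n < x.l1.length → zd X (eS x.sl) σ n = some (x.l1.getD n 0)) ∧
    (∀ l ∈ L, l.1 = eS x.sl + 1 → l.2 <+: x.l1) ∧
    (∀ i ∈ σ, i.c = eS x.sl + 1 → i.p < x.l2.length) ∧ tab X (eS x.sl) σ x.l2 ∧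
    x.l2.length ≤ x.b ∧ x.b % 2 ≠ sdS x.sl ∧ x.sl.length ≤ x.l2.length
  fe : x.tag = 5 → (∃ o, own V x.sl = some o ∧ o.tag = 4) ∧
    ∀ i ∈ σ, tnz X i = true → col i.p = x.b →
      zd X (eS x.sl) σ (row i.p) = some (i.w - 1) ∨ sec V x.sl L σ (row i.p) (i.w - 1)

/-- the promises are true -/
def LitOK (X : ℕ → ℕ) (σ : List Ins) (L : Lit) : Prop :=
  ∀ l ∈ L, (l.1 = 0 → l.2 = pre X l.2.length) ∧
    ∀ e, l.1 = e + 1 → ∀ n, n < l.2.length → zd X e σ n = some (l.2.getD n 0)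

/-- the invariant of a state -/
structure Inv (X : ℕ → ℕ) (s : St) : Prop where
  lit : LitOK X s.sg s.L
  srt : s.S.Pairwise fun x y => x.sl < y.sl
  shp : ∀ x ∈ s.S, Shape x
  len : s.stg ≤ s.sg.length
  hk : ∀ p, p < s.stg → (val 0 (tru X) s.sg p).isSome = true
  ent : ∀ x ∈ s.S, EI X s.sg s.L (vw s.S x.sl) x
  dif : ∀ x ∈ s.S, ∀ y ∈ s.S, x.tag = 5 → y.tag = 5 → x.b = y.b → x = y
  cln : ∀ x ∈ s.S, x.tag = 5 → x.sl <+: s.cur → ∀ i ∈ s.sg, tnz X i = true → col i.p = x.b →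
    zd X (eS x.sl) s.sg (row i.p) = some (i.w - 1)
  lp : ∀ j, j < s.j → ∃ w, xobj X (vw s.S (s.cur ++ [0])) (s.cur ++ [0]) (lpL X s.L j) s.sg j w ∧
    xval (s.cur ++ [0]) s.sg j w = some (X j)

/-- an extension that is harmless for all entries of `S0` -/
structure ActOK (X : ℕ → ℕ) (σ : List Ins) (L : Lit) (S0 : List Ent) (ext : List Ins)
    (L' : Lit) : Prop where
  rsp : resp L ext
  sub : ∀ l ∈ L, l ∈ L'
  fz : frz (qq S0) ext
  nl : ∀ l ∈ L', ∀ e ∈ qq S0, l.1 = e + 1 → l ∈ L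
  cl : ∀ i ∈ ext, tnz X i = true → ∀ y ∈ S0, y.tag = 5 → y.b = col i.p →
    (∀ x ∈ S0, ¬ left y.sl x.sl) ∧ (zd X (eS y.sl) (σ ++ ext) (row i.p) = some (i.w - 1) ∨
      sec (vw S0 y.sl) y.sl L' (σ ++ ext) (row i.p) (i.w - 1))

/-- the weight of the owners -/
def wt (V : List Ent) : ℕ := (V.map fun x => cond (eqB x.tag 3) 2 (cond (eqB x.tag 4) 1 0)).sum

/-- the step ends the stage with a cut at the slot `k` -/
structure Cut (s s' : St) (k : List ℕ) : Prop where
  cur : s'.cur = []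
  stg : s'.stg = s.stg + 1
  low : vw s'.S k = vw s.S k
  chg : get s'.S k ≠ get s.S k
  top : ∀ x ∈ s'.S, x.sl ≤ k

/-- the effect of a step on the stack and on the current node -/
inductive Kind (s s' : St) : Prop
  | stay : s'.cur = [] → s'.stg = s.stg + 1 → s'.S = s.S → Kind s s'
  | ownc (o : ℕ) : Cut s s' (s.cur ++ [o]) → Kind s s'
  | prox (α k : List ℕ) : Cut s s' k → α.length % 2 = 1 → (k = α ++ [0] ∨ k = α ++ [1]) →
      (get s.S (α ++ [1])).isSome = true → get s.S (α ++ [0]) = none →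
      (∀ k', α ++ [1] < k' → wt (vw s'.S k') < wt (vw s.S k')) → Kind s s'
  | move (o : ℕ) : s'.cur = s.cur ++ [o] → s'.stg = s.stg → s.cur.length < s.stg →
      s'.S = keep s.S (s.cur ++ [o]) → Kind s s'
  | loop : s'.cur = s.cur → s'.stg = s.stg → s'.S = s.S → s'.j = s.j + 1 → Kind s s'

/-- a run of the construction -/
structure Run (X : ℕ → ℕ) (st : ℕ → St) (b : ℕ → ℕ) : Prop where
  x01 : ∀ n, X n ≤ 1
  xK : Red X KK
  nce : ¬ CEdeg X
  ini : st 0 = ⟨[], [], [], [], 0, 0⟩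
  stp : ∀ i, Stp X (st i) (b i) (st (i + 1))
  binf : ∀ N, ∃ i1, ∀ i, i1 ≤ i → N ≤ b i
  low : ∀ W : St → ℕ → Bool, ComputableIn (orc X) (fun p : St × ℕ => W p.1 p.2) →
    ∀ i0, (∀ i, i0 ≤ i → ∃ w, W (st i) w = true) →
      ∃ i1, ∀ i, i1 ≤ i → ∃ w, w < b i ∧ W (st i) w = true

/-- the limits of a run -/
structure Lim (X : ℕ → ℕ) (st : ℕ → St) (G : ℕ → Ins) (A : ℕ → ℕ) : Prop where
  g : ∀ i, (st i).sg = pre G (st i).sg.length
  a : ∀ i p w, val 0 (tru X) (st i).sg p = some w → A p = w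

/-- the node `δ` is on the true path -/
def TP (st : ℕ → St) (δ : List ℕ) : Prop :=
  (∀ i, ∃ i', i ≤ i' ∧ (st i').cur = δ ∧ δ.length < (st i').stg) ∧
    ∃ i0, ∀ i, i0 ≤ i → ¬ left (st i).cur δ ∧ vw (st i).S (δ ++ [0]) = vw (st i0).S (δ ++ [0])

/-- the subrequirement of the level `n` is won -/
def WonF (X : ℕ → ℕ) (st : ℕ → St) (G : ℕ → Ins) (n : ℕ) : Prop :=
  ∀ z, Cmp (eN n) (jn X (gG G)) z →
    (∀ p, p < n → ∃ i, (val (eN n + 1) (tru z) (st i).sg p).isSome = true) ∧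
    ∀ C : ℕ → ℕ, (∀ i p w, val (eN n + 1) (tru z) (st i).sg p = some w → C p = w) →
      ¬ Cmp (lamN n) (jn (maskF (sdN n) C) (gG G)) (maskF (1 - sdN n) C)

end Pool.Agent.MP_68d28f_lc.CE.T4
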