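import Pool.Agent.MP_68d28f_lc.ce.t4.Bas

/-! Block T4: the effect of the steps `mFill` and `mW2`. -/

namespace Pool.Agent.MP_68d28f_lc.CE.T4

open Pool.Agent.MP_b427ce_lc

namespace EffM1

lemma getD_of_pre {a b : List ℕ} (h : a <+: b) {p : ℕ} (hp : p < a.length) :
    b.getD p 0 = a.getD p 0 := by
  obtain ⟨r, rfl⟩ := h
  exact List.getD_append _ _ _ _ hp

lemma pre_of_tru {z : ℕ → ℕ} {a b : List ℕ} (ha : tru z a = true) (hb : tru z b = true)
    (h : a.length ≤ b.length) : a <+: b := by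
  rw [tru_iff.1 ha, tru_iff.1 hb]
  exact pre_isPrefix z h

lemma tru_of_pre {z : ℕ → ℕ} {a b : List ℕ} (hb : tru z b = true) (h : a <+: b) :
    tru z a = true :=
  tru_iff'.2 fun n hn => by
    rw [← getD_of_pre h hn]
    exact tru_iff'.1 hb n (lt_of_lt_of_le hn h.length_le)

variable {X : ℕ → ℕ} {σ : List Ins} {L : Lit} {e : ℕ}

lemma ins_le_Lz {i : Ins} (hi : i ∈ σ) (hc : i.c = e + 1) : i.z.length ≤ Lz e σ L :=
  le_max_of_le_left (le_lmax (List.mem_map.2 ⟨i, List.mem_filter.2 ⟨hi, eqB_iff.2 hc⟩, rfl⟩))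

lemma lit_le_Lz {l : ℕ × List ℕ} (hl : l ∈ L) (hc : l.1 = e + 1) : l.2.length ≤ Lz e σ L :=
  le_max_of_le_right (le_lmax (List.mem_map.2 ⟨l, List.mem_filter.2 ⟨hl, eqB_iff.2 hc⟩, rfl⟩))

/-- the determined string extends the promises -/
lemma lit_pre (hL : LitOK X σ L) {l : ℕ × List ℕ} (hl : l ∈ L)
    (hc : l.1 = e + 1) : l.2 <+: zstr X e σ (Lz e σ L) := by
  have h1 := lit_le_Lz (σ := σ) hl hc
  refine pre_of_tru (z := fun n => (zd X e σ n).getD 0) (tru_iff'.2 fun n hn => ?_)
    (tru_pre _ _) (by rw [length_zstr]; exact h1)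
  rw [(hL l hl).2 e hc n hn]
  rfl

/-- the table of a fill is written -/
lemma tab_fill {ρ : List Ins} {P : ℕ} (hd : zdet X e σ (Lz e σ L)) :
    tab X e (σ ++ wr (e + 1) (zstr X e σ (Lz e σ L)) (List.replicate P 0) ++ ρ)
      (pre (fun p => (val (e + 1) (fun z => preB z (zstr X e σ (Lz e σ L)))
        (σ ++ wr (e + 1) (zstr X e σ (Lz e σ L)) (List.replicate P 0)) p).getD 0) P) := by
  intro z hz p hp
  rw [length_pre] at hp
  have hσ : σ <+: σ ++ wr (e + 1) (zstr X e σ (Lz e σ L)) (List.replicate P 0) ++ ρ := by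
    rw [List.append_assoc]
    exact List.prefix_append _ _
  have ht : tru z (zstr X e σ (Lz e σ L)) = true := by
    refine tru_iff'.2 fun m hm => ?_
    rw [length_zstr] at hm
    exact (hz m _ (zd_mono hσ (zd_zstr hd hm))).symm
  have hc : val (e + 1) (fun z => preB z (zstr X e σ (Lz e σ L)))
      (σ ++ wr (e + 1) (zstr X e σ (Lz e σ L)) (List.replicate P 0)) p = val (e + 1) (tru z)
      (σ ++ wr (e + 1) (zstr X e σ (Lz e σ L)) (List.replicate P 0)) p := by
    refine val_congr fun i hi hic => Bool.eq_iff_iff.2 ?_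
    rw [preB_iff]
    refine ⟨tru_of_pre ht, fun h => pre_of_tru h ht ?_⟩
    rcases List.mem_append.1 hi with hi | hi
    · rw [length_zstr]
      exact ins_le_Lz hi hic
    · obtain ⟨q, -, rfl⟩ := mem_wr.1 hi
      exact le_rfl
  rw [getD_pre _ hp, hc]
  refine val_mono (List.prefix_append _ _) ?_
  rw [val_append, val_wr ht (by simpa using hp)]
  cases val (e + 1) (tru z) σ p <;> rfl

end EffM1

open EffM1 in
theorem effFill : EffFill := by
  intro X s o hI hM ho h3 hd
  obtain ⟨hoV, hown, -⟩ := own_some ho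
  obtain ⟨hoS, -⟩ := mem_vw.1 hoV
  obtain ⟨α, hα, hsl⟩ := (hI.shp o hoS).own hown
  obtain ⟨hq, hget⟩ := (hI.ent o hoS).ow hown
  have hE : ∀ i ∈ fillE X o.sl s.sg s.L, i.c = eS o.sl + 1 ∧
      i.z = zstr X (eS o.sl) s.sg (Lz (eS o.sl) s.sg s.L) ∧ i.p < fillP o.sl s.sg := by
    intro i hi
    obtain ⟨p, hp, rfl⟩ := mem_wr.1 hi
    exact ⟨rfl, rfl, by simpa using hp⟩
  have hact : ActOK X s.sg s.L (vw s.S o.sl) (fillE X o.sl s.sg s.L) s.L := by
    refine ⟨fun i hi l hl hic => ?_, fun l hl => hl, fun i hi e he hic => ?_,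
      fun l hl _ _ _ => hl, fun i hi ht => ?_⟩
    · rw [(hE i hi).2.1]
      exact lit_pre hI.lit hl (hic.symm.trans (hE i hi).1)
    · have h1 : eS o.sl = e := Nat.succ_injective ((hE i hi).1.symm.trans hic)
      exact hq (h1 ▸ he)
    · exact absurd ((hE i hi).1.symm.trans (tnz_iff.1 ht).1) (Nat.succ_ne_zero _)
  have hpre : s.sg <+: s.sg ++ fillE X o.sl s.sg s.L ++ [⟨0, pre X (JJ s.L), s.stg, 0⟩] := by
    rw [List.append_assoc]
    exact List.prefix_append _ _
  have hlen : (fillR X o.sl s.sg s.L).l2.length = fillP o.sl s.sg := length_pre _ _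
  have hsd : sdS o.sl ≤ 1 := sdN_le _
  refine ⟨fillE X o.sl s.sg s.L ++ [⟨0, pre X (JJ s.L), s.stg, 0⟩], vw s.S o.sl,
    (by simp only [fin, List.append_assoc]), hact.hk hI.lit s.stg, hI.lit.mono hpre, vw_sublist _ _,
    fun x hx => vw_vw (mem_vw.1 hx).2.le, ?_, ?_⟩
  · refine Or.inr ⟨fillR X o.sl s.sg s.L, rfl, fun x hx => (mem_vw.1 hx).2, fun hy => ?_,
      ⟨α, Or.inr ⟨hα, Or.inr (Or.inl ⟨hsl, Or.inr rfl⟩)⟩⟩, ?_,
      fun h => absurd h (by simp [fillR, ready])⟩
    · have h1 := congrArg Ent.tag (sl_inj hI.srt hy hoS rfl)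
      rw [h3] at h1
      exact absurd h1 (by simp [fillR, ready])
    · refine ⟨fun h => absurd h (by simp [fillR, ready]),
        fun h => absurd h (by simp [fillR, ready]), fun h => absurd h (by simp [fillR, ready]),
        fun _ => ⟨hq, hget⟩, fun _ => ⟨fun n hn => ?_, fun l hl hc => lit_pre hI.lit hl hc,
          fun i hi hc => ?_, tab_fill hd, ?_, ?_, ?_⟩,
        fun h => absurd h (by simp [fillR, ready])⟩
      · exact zd_mono hpre (zd_zstr hd (lt_of_lt_of_eq hn (length_zstr _ _ _ _)))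
      · rw [hlen]
        rcases List.mem_append.1 hi with hi | hi
        · rcases List.mem_append.1 hi with hi | hi
          · exact lt_of_lt_of_le (lt_big hi) (le_max_right _ _)
          · exact (hE i hi).2.2
        · rw [List.mem_singleton.1 hi] at hc
          exact absurd hc.symm (Nat.succ_ne_zero _)
      · rw [hlen]
        show _ ≤ 2 * fillP o.sl s.sg + 1 - sdS o.sl
        omega
      · show (2 * fillP o.sl s.sg + 1 - sdS o.sl) % 2 ≠ sdS o.sl
        omega
      · rw [hlen]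
        exact le_max_left _ _
  · intro i hi ht
    rcases List.mem_append.1 hi with hi | hi
    · exact absurd ((hE i hi).1.symm.trans (tnz_iff.1 ht).1) (Nat.succ_ne_zero _)
    · rw [List.mem_singleton.1 hi] at ht
      exact absurd rfl (tnz_iff.1 ht).2.2

open EffM1 in
theorem effW2 : EffW2 := by
  intro X s o x i hI hM ho h4 hx hd hi ht hcol hne
  obtain ⟨hoV, hown, he⟩ := own_some ho
  obtain ⟨hoS, hot⟩ := mem_vw.1 hoV
  obtain ⟨hxS, hxt⟩ := get_some hx
  obtain ⟨α, hα, hsl⟩ := (hI.shp o hoS).own hown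
  have h5 : x.tag = 5 := by
    rcases (hI.shp x hxS).tagM hxt hM.2 with h | h | h
    · omega
    · omega
    · exact h.2
  have hk : wonS o.sl = α ++ [0] := by rw [hsl, wonS_snoc]
  have hko : wonS o.sl < o.sl := by
    rw [hk, hsl]
    exact snoc_lt_snoc.2 Nat.zero_lt_one
  have hkt : wonS o.sl < x.sl := hxt ▸ lt_trans hko hot
  have hE := hI.ent o hoS
  obtain ⟨hq, hget⟩ := hE.ow hown
  obtain ⟨-, -, -, r4, -, r6, r7⟩ := hE.rd h4
  rw [← hxt] at he ho
  have hsec := (((hI.ent x hxS).fe h5).2 i hi ht hcol).resolve_left hne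
  have eS1 : eS (wonS o.sl) = eS o.sl := by rw [hk, hsl, eS_snoc, eS_snoc]
  have eS2 : lamS (wonS o.sl) = lamS o.sl := by rw [hk, hsl, lamS_snoc, lamS_snoc]
  have eS3 : sdS (wonS o.sl) = sdS o.sl := by rw [hk, hsl, sdS_snoc, sdS_snoc]
  have eS4 : (wonS o.sl).length = o.sl.length := by
    rw [hk, hsl, List.length_append, List.length_append]
    rfl
  have hlit : LitOK X s.sg ((eS x.sl + 1, zstr X (eS x.sl) s.sg (RR X x.b s.sg)) :: s.L) := by
    intro l hl
    rcases List.mem_cons.1 hl with rfl | hl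
    · refine ⟨fun h => absurd h (Nat.succ_ne_zero _), fun e h n hn => ?_⟩
      rw [← Nat.succ_injective h]
      exact zd_zstr hd (lt_of_lt_of_eq hn (length_zstr _ _ _ _))
    · exact hI.lit l hl
  have hact : ActOK X s.sg s.L (vw s.S (wonS o.sl)) []
      ((eS x.sl + 1, zstr X (eS x.sl) s.sg (RR X x.b s.sg)) :: s.L) := by
    refine ⟨fun _ h => (by cases h), fun l hl => List.mem_cons_of_mem _ hl,
      fun _ h => (by cases h), fun l hl e hq' hc => ?_, fun _ h => (by cases h)⟩
    rcases List.mem_cons.1 hl with rfl | hl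
    · have h1 : eS o.sl = e := he.trans (Nat.succ_injective hc)
      exact absurd (qq_vw_mono hko.le (h1 ▸ hq')) hq
    · exact hl
  have hact' := hact.hk hlit s.stg
  have hpre : ∀ ρ : List Ins, s.sg <+: s.sg ++ [] ++ ρ := fun ρ => by
    rw [List.append_assoc]
    exact List.prefix_append _ _
  refine ⟨_, vw s.S (wonS o.sl), List.append_assoc _ _ _, hact', hlit.mono (hpre _),
    vw_sublist _ _, fun x hx => vw_vw (mem_vw.1 hx).2.le, ?_, ?_⟩
  · refine Or.inr ⟨wonM (wonS o.sl) o.l2 o.b, rfl, fun x hx => (mem_vw.1 hx).2, ?_,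
      ⟨α, Or.inr ⟨hα, Or.inl ⟨hk, rfl⟩⟩⟩, ?_, fun h => absurd h (by simp [wonM])⟩
    · intro hy'
      exact get_none.1 hget _ (mem_vw.2 ⟨hy', hko⟩) rfl
    · refine ⟨fun h => absurd h (by simp [wonM]), fun h => absurd h (by simp [wonM]), fun _ => ?_,
        fun h => absurd (isOwn_iff.1 h) (by simp [wonM]), fun h => absurd h (by simp [wonM]),
        fun h => absurd h (by simp [wonM])⟩
      refine ⟨?_, ?_, ?_, Or.inr fun τ c hr hf hc => ?_⟩
      · show o.b % 2 ≠ sdS (wonS o.sl)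
        rw [eS3]
        exact r6
      · show (wonS o.sl).length ≤ o.l2.length
        rw [eS4]
        exact r7
      · show tab X (eS (wonS o.sl)) _ o.l2
        rw [eS1]
        exact r4.mono (hpre _)
      · by_contra hv
        refine hsec (_ ++ τ) c ⟨o, ho, resp_append.2 ⟨hact'.rsp, hr.mono hact.sub⟩,
          sil_append.2 ⟨fun i' hi' hc' => ?_, fun i' hi' hc' => ?_⟩, ?_, hc, ?_⟩
        · rw [List.nil_append, List.mem_singleton] at hi'
          rw [hi'] at hc'
          exact absurd hc'.symm (Nat.succ_ne_zero _)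
        · have h1 := hr i' hi' _ List.mem_cons_self hc'
          have h2 : row i.p < RR X x.b s.sg := lt_trans (Nat.lt_succ_self _) (row_lt_RR hi ht hcol)
          have h3 : row i.p < (zstr X (eS x.sl) s.sg (RR X x.b s.sg)).length := by
            rw [length_zstr]
            exact h2
          refine ⟨lt_of_lt_of_le h3 h1.length_le, fun h6 => hne ?_⟩
          rw [zd_zstr hd h2, ← h6, getD_of_pre h1 h3]
        · rw [vw_vw hkt.le]
          exact frz_append.2 ⟨hact'.fz, hf⟩
        · refine Option.isSome_iff_ne_none.2 fun h => hv ?_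
          show ev (lamS (wonS o.sl)) (zip2 (mask (sdS (wonS o.sl)) c) (cd _)) o.b = none
          rw [eS2, eS3, ← h]
          show _ = ev _ (zip2 _ (cd _)) _
          simp only [fin, List.append_assoc]
  · intro i' hi' ht'
    rw [List.nil_append, List.mem_singleton] at hi'
    rw [hi'] at ht'
    exact absurd rfl (tnz_iff.1 ht').2.2

end Pool.Agent.MP_68d28f_lc.CE.T4
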