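import Pool.Agent.MP_68d28f_lc.ce.t4.Bas

/-! Block T4: the effect of the step `mW1`. -/

namespace Pool.Agent.MP_68d28f_lc.CE.T4

open Pool.Agent.MP_b427ce_lc

namespace EffM2

lemma length_dia (c : List ℕ) (p0 y : ℕ) : (dia c p0 y).length = max c.length (p0 + 1) := by
  unfold dia
  exact length_pre _ _

lemma dia_self (c : List ℕ) (p0 y : ℕ) : (dia c p0 y).getD p0 0 = y + 1 := by
  unfold dia
  rw [getD_pre _ (by omega), eqB_iff.2 rfl, cond_true]

lemma dia_ne (c : List ℕ) {p0 p : ℕ} (y : ℕ) (hp : p < c.length) (hne : p ≠ p0) :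
    (dia c p0 y).getD p 0 = c.getD p 0 := by
  unfold dia
  rw [getD_pre _ (by omega)]
  have h : eqB p p0 = false := by
    cases hb : eqB p p0 with
    | false => rfl
    | true => exact absurd (eqB_iff.1 hb) hne
  rw [h, cond_false]

lemma getD_of_pre {a b : List ℕ} (h : a <+: b) {p : ℕ} (hp : p < a.length) :
    b.getD p 0 = a.getD p 0 := by
  obtain ⟨r, rfl⟩ := h
  exact List.getD_append _ _ _ _ hp

/-- the columns written by a class extension -/
lemma cls_col {X : ℕ → ℕ} {V : List Ent} {t : List ℕ} {L : Lit} {σ τ : List Ins}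
    (h : cls X V t L σ τ) {i : Ins} (hi : i ∈ τ) (ht : tnz X i = true) {x : Ent} (hx : x ∈ V)
    (h5 : x.tag = 5) (hb : x.b = col i.p) :
    x.sl <+: t ∧ zd X (eS x.sl) (σ ++ τ) (row i.p) = some (i.w - 1) := by
  obtain ⟨h1, h2⟩ := h.2.2 i hi ht
  have hp : x.sl <+: t := by
    by_contra hn
    exact h1 (mem_NB.2 ⟨x, hx, h5, hn, hb⟩)
  exact ⟨hp, h2 x (mem_EE.2 ⟨hx, h5, hp⟩) hb⟩

/-- the true nonzero instructions of the extension come from the first part -/
lemma tnz_first {X : ℕ → ℕ} {τ1 τ2 : List Ins} {j e : ℕ} {l l' : List ℕ}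
    (h2 : sil 0 j (X j) τ2) {i : Ins} (hi : i ∈ τ1 ++ τ2 ++ wr (e + 1) l l')
    (ht : tnz X i = true) : i ∈ τ1 := by
  obtain ⟨hc, htr, -⟩ := tnz_iff.1 ht
  rcases List.mem_append.1 hi with hi | hi
  · rcases List.mem_append.1 hi with hi | hi
    · exact hi
    · have := h2.not_tru hi hc
      rw [this] at htr
      exact absurd htr (by simp)
  · obtain ⟨p, -, rfl⟩ := mem_wr.1 hi
    exact absurd hc (Nat.succ_ne_zero e)

/-- the new table is written -/
lemma tab_new {X : ℕ → ℕ} {σ τ1 τ2 ρ : List Ins} {e n v p0 y : ℕ} {l1 l2 c : List ℕ}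
    {q : List ℕ}
    (h1 : ∀ m, m < l1.length → zd X e σ m = some (l1.getD m 0))
    (h2 : ∀ i ∈ σ, i.c = e + 1 → i.p < l2.length) (h3 : tab X e σ l2) (h4 : l2.length ≤ p0)
    (hq : frz q τ1) (he : e ∈ q) (hv : zd X e (σ ++ τ1) n = some v) (hs : sil (e + 1) n v τ2)
    (hc : l2 <+: c) :
    tab X e (σ ++ (τ1 ++ τ2 ++ wr (e + 1) l1 (dia c p0 y)) ++ ρ) (dia c p0 y) := by
  intro z hz p hp
  have hσ : σ <+: σ ++ (τ1 ++ τ2 ++ wr (e + 1) l1 (dia c p0 y)) ++ ρ := by
    rw [List.append_assoc]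
    exact List.prefix_append _ _
  have hσ1 : σ ++ τ1 <+: σ ++ (τ1 ++ τ2 ++ wr (e + 1) l1 (dia c p0 y)) ++ ρ := by
    refine ⟨τ2 ++ wr (e + 1) l1 (dia c p0 y) ++ ρ, ?_⟩
    simp only [List.append_assoc]
  by_cases hl : p < l2.length
  · have h5 := val_mono hσ (h3 z (cons.mono hσ hz) p hl)
    rw [h5, dia_ne c y (lt_of_lt_of_le hl hc.length_le) (by omega), getD_of_pre hc hl]
  · have a0 : val (e + 1) (tru z) σ p = none := by
      refine val_none.2 fun i hi hic hip => ?_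
      have := h2 i hi hic
      omega
    have a1 : val (e + 1) (tru z) τ1 p = none := by
      refine val_none.2 fun i hi hic _ => ?_
      exact absurd hic (hq i hi e he)
    have hzn : z n = v := hz n v (zd_mono hσ1 hv)
    have a2 : val (e + 1) (tru z) τ2 p = none := by
      refine val_none.2 fun i hi hic _ => ?_
      have hs' : sil (e + 1) n (z n) τ2 := by
        rw [hzn]
        exact hs
      exact hs'.not_tru hi hic
    have ht : tru z l1 = true := by
      refine tru_iff'.2 fun m hm => ?_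
      exact (hz m _ (zd_mono hσ (h1 m hm))).symm
    have a3 := val_wr (c := e + 1) (T := tru z) ht hp
    rw [val_append, val_append, val_append, val_append, a0, a1, a2, a3]
    rfl

end EffM2

open EffM2 in
theorem effW1 : EffW1 := by
  rintro X s o ⟨τ1, n, v, j, τ2, c⟩ y hI hM ho h4 hw hy
  obtain ⟨hcls, hv, ⟨o', ho', hr2, hs2, hf2, hc, -⟩, hs0⟩ := hw
  dsimp only at hcls hv ho' hr2 hs2 hf2 hc hs0 hy ⊢
  have hoo : o' = o := Option.some.inj (ho'.symm.trans ho)
  subst hoo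
  obtain ⟨hoV, hown, he⟩ := own_some ho
  obtain ⟨hoS, hot⟩ := mem_vw.1 hoV
  obtain ⟨α, hα, hsl⟩ := (hI.shp o' hoS).own hown
  have hk : wonS o'.sl = α ++ [0] := by rw [hsl, wonS_snoc]
  have hko : wonS o'.sl < o'.sl := by
    rw [hk, hsl]
    exact snoc_lt_snoc.2 Nat.zero_lt_one
  have hkt : wonS o'.sl < s.cur ++ [2] := lt_trans hko hot
  have hE := hI.ent o' hoS
  obtain ⟨hq, hget⟩ := hE.ow hown
  obtain ⟨r1, r2, r3, r4, r5, r6, r7⟩ := hE.rd h4
  rw [vw_vw hkt.le] at hf2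
  rw [← he] at hv hs2
  have hsub : ∀ x ∈ vw s.S (wonS o'.sl), x ∈ vw s.S (s.cur ++ [2]) := fun x hx =>
    mem_vw.2 ⟨(mem_vw.1 hx).1, lt_trans (mem_vw.1 hx).2 hkt⟩
  have heq : eS o'.sl ∈ qq (vw s.S (s.cur ++ [2])) := mem_qq.2 ⟨o', hoV, hown, rfl⟩
  have eS1 : eS (wonS o'.sl) = eS o'.sl := by rw [hk, hsl, eS_snoc, eS_snoc]
  have eS2 : lamS (wonS o'.sl) = lamS o'.sl := by rw [hk, hsl, lamS_snoc, lamS_snoc]
  have eS3 : sdS (wonS o'.sl) = sdS o'.sl := by rw [hk, hsl, sdS_snoc, sdS_snoc]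
  have eS4 : (wonS o'.sl).length = o'.sl.length := by
    rw [hk, hsl, List.length_append, List.length_append]
    rfl
  have hact : ActOK X s.sg s.L (vw s.S (wonS o'.sl))
      (τ1 ++ τ2 ++ wr (eS o'.sl + 1) o'.l1 (dia c o'.b y)) s.L := by
    refine ⟨?_, fun l hl => hl, ?_, fun l hl _ _ _ => hl, ?_⟩
    · refine resp_append.2 ⟨resp_append.2 ⟨hcls.1, hr2⟩, ?_⟩
      intro i hi l hl hic
      obtain ⟨p, -, rfl⟩ := mem_wr.1 hi
      exact r2 l hl hic.symm
    · refine frz_append.2 ⟨frz_append.2 ⟨hcls.2.1.mono fun e h => qq_mono hsub h, hf2⟩, ?_⟩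
      intro i hi e hee hic
      obtain ⟨p, -, rfl⟩ := mem_wr.1 hi
      have h1 : eS o'.sl = e := Nat.succ_injective hic
      exact hq (qq_vw_mono hko.le (h1 ▸ hee))
    · intro i hi ht x hx h5 hb
      have hi1 := tnz_first hs0 hi ht
      obtain ⟨h1, h2⟩ := cls_col hcls hi1 ht (hsub x hx) h5 hb
      refine ⟨fun x' hx' hl => ?_, Or.inl (zd_mono ?_ h2)⟩
      · exact (hl.trans_lt (mem_vw.1 (hsub x' hx')).2).2 h1
      · refine ⟨τ2 ++ wr (eS o'.sl + 1) o'.l1 (dia c o'.b y), ?_⟩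
        simp only [List.append_assoc]
  have hpre : s.sg <+: s.sg ++ (τ1 ++ τ2 ++ wr (eS o'.sl + 1) o'.l1 (dia c o'.b y)) ++
      [⟨0, pre X (JJ s.L), s.stg, 0⟩] := by
    rw [List.append_assoc]
    exact List.prefix_append _ _
  refine ⟨τ1 ++ τ2 ++ wr (eS o'.sl + 1) o'.l1 (dia c o'.b y) ++ [⟨0, pre X (JJ s.L), s.stg, 0⟩],
    vw s.S (wonS o'.sl), ?_, hact.hk hI.lit s.stg, hI.lit.mono hpre, vw_sublist _ _, ?_, ?_, ?_⟩
  · exact List.append_assoc _ _ _
  · intro x hx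
    exact vw_vw (mem_vw.1 hx).2.le
  · refine Or.inr ⟨wonM (wonS o'.sl) (dia c o'.b y) o'.b, rfl, fun x hx => (mem_vw.1 hx).2, ?_,
      ⟨α, Or.inr ⟨hα, Or.inl ⟨hk, rfl⟩⟩⟩, ?_, fun h => absurd h (by simp [wonM])⟩
    · intro hy'
      exact get_none.1 hget _ (mem_vw.2 ⟨hy', hko⟩) rfl
    · refine ⟨fun h => absurd h (by simp [wonM]), fun h => absurd h (by simp [wonM]), fun _ => ?_,
        fun h => absurd (isOwn_iff.1 h) (by simp [wonM]), fun h => absurd h (by simp [wonM]),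
        fun h => absurd h (by simp [wonM])⟩
      have hlen : c.length ≤ (dia c o'.b y).length := by
        rw [length_dia]
        omega
      refine ⟨?_, ?_, ?_, Or.inl ⟨?_, y, ?_, ?_⟩⟩
      · show o'.b % 2 ≠ sdS (wonS o'.sl)
        rw [eS3]
        exact r6
      · show (wonS o'.sl).length ≤ (dia c o'.b y).length
        rw [eS4]
        exact r7.trans (hc.length_le.trans hlen)
      · show tab X (eS (wonS o'.sl)) _ (dia c o'.b y)
        rw [eS1]
        exact tab_new r1 r3 r4 r5 hcls.2.1 heq hv hs2 hc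
      · show o'.b < (dia c o'.b y).length
        rw [length_dia]
        omega
      · show ev (lamS (wonS o'.sl)) (zip2 (mask (sdS (wonS o'.sl)) (dia c o'.b y)) (cd _)) o'.b
          = some y
        rw [eS2, eS3]
        refine ev_mono (zip2_mono (mask_mono hlen fun p hp hp2 => ?_) (cd_mono ?_)) hy
        · refine (dia_ne c y hp ?_).symm
          rintro rfl
          exact r6 hp2
        · refine ⟨wr (eS o'.sl + 1) o'.l1 (dia c o'.b y) ++ [⟨0, pre X (JJ s.L), s.stg, 0⟩], ?_⟩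
          show _ = s.sg ++ _ ++ _
          simp only [List.append_assoc]
      · show y ≠ (dia c o'.b y).getD o'.b 0
        rw [dia_self]
        omega
  · intro i hi ht x hx h5 hb
    rcases List.mem_append.1 hi with hi | hi
    · have hi1 := tnz_first hs0 hi ht
      obtain ⟨h1, -⟩ := cls_col hcls hi1 ht (hsub x hx) h5 hb
      rcases pre_snoc.1 h1 with h1 | h1
      · exact Or.inl h1
      · exact absurd h1 (mem_vw.1 (hsub x hx)).2.ne
    · rw [List.mem_singleton.1 hi] at ht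
      exact absurd rfl (tnz_iff.1 ht).2.2

end Pool.Agent.MP_68d28f_lc.CE.T4
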