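import Pool.Agent.MP_68d28f_lc.ce.t4.Bas

/-! Block T4: the effect of the steps `nW1` and `mCod`. -/

namespace Pool.Agent.MP_68d28f_lc.CE.T4

open Pool.Agent.MP_b427ce_lc

namespace EffN

lemma val_opw {X : ℕ → ℕ} {L : Lit} {σ : List Ins} {ω : List ℕ} {p : ℕ} (hp : p < ω.length)
    (hn : val 0 (tru X) σ p = none) :
    val 0 (tru X) (opw X L σ ω) p = some (ω.getD p 0) := by
  have hi : (⟨0, pre X (JJ L), p, ω.getD p 0⟩ : Ins) ∈ opw X L σ ω := mem_opw.2 ⟨p, hp, hn, rfl⟩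
  have hs := val_isSome (T := tru X) hi (tru_pre X _)
  obtain ⟨v, hv⟩ := Option.isSome_iff_exists.1 hs
  obtain ⟨i, hi', -, h2, -, h4⟩ := val_some hv
  obtain ⟨p', -, -, rfl⟩ := mem_opw.1 hi'
  have h2' : p' = p := h2
  have h4' : ω.getD p' 0 = v := h4
  subst h2'
  rw [h4']
  exact hv

/-- a true nonzero instruction of the extension is the write of an open position -/
lemma tnz_opw {X : ℕ → ℕ} {L : Lit} {σ τ : List Ins} {ω : List ℕ} {j : ℕ} {i : Ins}
    (hs : sil 0 j (X j) τ) (hi : i ∈ τ ++ opw X L σ ω) (ht : tnz X i = true) :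
    i.p < ω.length ∧ val 0 (tru X) σ i.p = none ∧ i.w = ω.getD i.p 0 ∧ ω.getD i.p 0 ≠ 0 := by
  obtain ⟨h1, h2, h3⟩ := tnz_iff.1 ht
  rcases List.mem_append.1 hi with h | h
  · rw [hs.not_tru h h1] at h2
    exact absurd h2 (by simp)
  · obtain ⟨p, hp, hn, rfl⟩ := mem_opw.1 h
    exact ⟨hp, hn, rfl, h3⟩

end EffN

theorem effNW1 : EffNW1 := by
  rintro X s ⟨j, J, τ, ω⟩ hX hI hN hg ⟨⟨-, hr, hs, hf, hv, hω⟩, hsec⟩
  dsimp only at hr hs hf hv hω hsec ⊢
  have hXj := hX j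
  have hs' : sil 0 j (X j) τ := by
    have : 1 - (1 - X j) = X j := by omega
    rwa [this] at hs
  have hL' : LitOK X s.sg ((0, pre X J) :: s.L) := hI.lit.cons_zero J
  have hz : ∀ i ∈ opw X ((0, pre X J) :: s.L) s.sg ω,
      i.c = 0 ∧ i.z = pre X (JJ ((0, pre X J) :: s.L)) := by
    intro i hi
    obtain ⟨p, -, -, rfl⟩ := mem_opw.1 hi
    exact ⟨rfl, rfl⟩
  have hro : resp ((0, pre X J) :: s.L) (opw X ((0, pre X J) :: s.L) s.sg ω) := resp_zero hL' hz
  have hbel : ∀ i ∈ τ ++ opw X ((0, pre X J) :: s.L) s.sg ω, tnz X i = true →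
      ∀ y ∈ vw s.S (s.cur ++ [0]), y.tag = 5 → y.b = col i.p → y.sl <+: s.cur ++ [0] := by
    intro i hi ht y hy h5 hb
    obtain ⟨h1, h2, -, h4⟩ := EffN.tnz_opw hs' hi ht
    by_contra hne
    exact (hω _ h1).2 h2 h4 (mem_NB.2 ⟨y, hy, h5, hne, hb⟩)
  have hok : ActOK X s.sg s.L (vw s.S (s.cur ++ [0]))
      (τ ++ opw X ((0, pre X J) :: s.L) s.sg ω) ((0, pre X J) :: s.L) := by
    refine ⟨resp_append.2 ⟨hr, hro.mono fun l hl => List.mem_cons_of_mem _ hl⟩,
      fun l hl => List.mem_cons_of_mem _ hl,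
      frz_append.2 ⟨hf, frz_zero fun i hi => (hz i hi).1⟩, ?_, ?_⟩
    · intro l hl e _ he
      rcases List.mem_cons.1 hl with rfl | hl
      · exact absurd he (by simp)
      · exact hl
    · intro i hi ht y hy h5 hb
      have hp := hbel i hi ht y hy h5 hb
      obtain ⟨h1, h2, h3, h4⟩ := EffN.tnz_opw hs' hi ht
      refine ⟨fun x hx hl => (hl.trans_lt (mem_vw.1 hx).2).2 hp, Or.inr ?_⟩
      have := (hsec _ h1 h2 h4 y (mem_EE.2 ⟨hy, h5, hp⟩) hb).ext hro
        (frz_zero fun i hi => (hz i hi).1) fun l hl => hl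
      rw [h3, ← List.append_assoc]
      exact this
  refine ⟨τ ++ opw X ((0, pre X J) :: s.L) s.sg ω ++
    [Ins.mk 0 (pre X (JJ ((0, pre X J) :: s.L))) s.stg 0], vw s.S (s.cur ++ [0]),
    by simp only [fin, List.append_assoc], hok.hk hL' _, ?_, vw_sublist _ _,
    fun x hx => vw_vw (mem_vw.1 hx).2.le, Or.inr ⟨wonN (s.cur ++ [0]), rfl,
      fun x hx => (mem_vw.1 hx).2, fun h => get_none.1 hg _ h rfl,
      ⟨s.cur, Or.inl ⟨hN.2, rfl, Nat.zero_le _⟩⟩, ?_, fun h => absurd h (by simp [wonN])⟩, ?_⟩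
  · exact hL'.mono ((List.prefix_append _ _).trans (List.prefix_append _ _))
  · refine ⟨fun _ => ⟨j, ω, 1 - X j, ?_, by omega, fun p hp => ?_⟩,
      fun h => absurd h (by simp [wonN]), fun h => absurd h (by simp [wonN]),
      fun h => absurd (isOwn_iff.1 h) (by simp [wonN]), fun h => absurd h (by simp [wonN]),
      fun h => absurd h (by simp [wonN])⟩
    · refine ev_mono (zip2_mono (List.prefix_refl _) (cd_mono ?_)) hv
      simp only [fin, List.append_nil, List.append_assoc]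
      exact (List.prefix_append_right_inj _).2 (List.prefix_append _ _)
    · refine val_mono (List.prefix_append _ _) ?_
      rw [val_append, val_append]
      cases hq : val 0 (tru X) s.sg p with
      | some u => rw [(hω p hp).1 u hq]; rfl
      | none =>
        have h0 : val 0 (tru X) τ p = none := val_none.2 fun i hi hc _ => hs'.not_tru hi hc
        rw [h0, EffN.val_opw hp hq]
        rfl
  · intro i hi ht x hx h5 hb
    rcases List.mem_append.1 hi with hi | hi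
    · rcases pre_snoc.1 (hbel i hi ht x hx h5 hb) with h | h
      · exact Or.inl h
      · exact absurd h (mem_vw.1 hx).2.ne
    · rw [List.mem_singleton] at hi
      subst hi
      exact absurd rfl (tnz_iff.1 ht).2.2

theorem effCod : EffCod := by
  intro X s x hI hM hg hz
  obtain ⟨hx, hsl⟩ := get_some hg
  have h5 : x.tag = 5 := by
    rcases (hI.shp x hx).tagM hsl hM.2 with h | h | h
    · exact absurd h.1 (by simp)
    · exact absurd h.1 (by simp)
    · exact h.2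
  have h0 : ∀ i ∈ cod X (eS x.sl) x.b s.sg s.L, i.c = 0 ∧ i.z = pre X (JJ s.L) := by
    intro i hi
    obtain ⟨n, -, rfl⟩ := mem_cod.1 hi
    exact ⟨rfl, rfl⟩
  have hone : ∀ i ∈ cod X (eS x.sl) x.b s.sg s.L, ∀ y ∈ keep s.S (s.cur ++ [2]), y.tag = 5 →
      y.b = col i.p → y = x := by
    intro i hi y hy hy5 hb
    obtain ⟨n, -, rfl⟩ := mem_cod.1 hi
    exact hI.dif y (mem_keep.1 hy).1 x hx hy5 h5 (hb.trans (col_mkp _ _ _))
  refine ⟨cod X (eS x.sl) x.b s.sg s.L, keep s.S (s.cur ++ [2]), rfl,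
    ⟨resp_zero hI.lit h0, fun l hl => hl, frz_zero fun i hi => (h0 i hi).1, fun l hl _ _ _ => hl,
      ?_⟩, hI.lit.mono (List.prefix_append _ _), keep_sublist _ _,
    fun y hy => vw_keep (mem_keep.1 hy).2, Or.inl rfl, ?_⟩
  · intro i hi _ y hy hy5 hb
    obtain rfl := hone i hi y hy hy5 hb
    refine ⟨fun x' hx' => by rw [hsl]; exact (mem_keep.1 hx').2, Or.inl ?_⟩
    obtain ⟨n, hn, rfl⟩ := mem_cod.1 hi
    obtain ⟨v, hv⟩ := Option.isSome_iff_exists.1 (hz n hn)
    dsimp only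
    rw [row_mkp, hv]
    exact zd_mono (List.prefix_append _ _) hv
  · intro i hi _ y hy hy5 hb
    obtain rfl := hone i hi y hy hy5 hb
    exact Or.inr hsl

end Pool.Agent.MP_68d28f_lc.CE.T4
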