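import Pool.Agent.MP_68d28f_lc.ce.t4.Bas

/-! Block T4: the effect of every step. -/

namespace Pool.Agent.MP_68d28f_lc.CE.T4

open Pool.Agent.MP_b427ce_lc

namespace EffSAux

variable {X : ℕ → ℕ} {s : St}

/-- the housekeeping instruction has the value zero -/
lemma tnz_hk (z : List ℕ) (m : ℕ) : ¬ tnz X ⟨0, z, m, 0⟩ = true := fun h => (tnz_iff.1 h).2.2 rfl

/-- the empty extension is harmless -/
lemma act_nil {σ : List Ins} {L L' : Lit} {S0 : List Ent} (h1 : ∀ l ∈ L, l ∈ L')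
    (h2 : ∀ l ∈ L', l.1 ≠ 0 → l ∈ L) : ActOK X σ L S0 [] L' where
  rsp := fun _ hi => absurd hi List.not_mem_nil
  sub := h1
  fz := fun _ hi => absurd hi List.not_mem_nil
  nl := fun l hl e _ h => h2 l hl (by omega)
  cl := fun _ hi => absurd hi List.not_mem_nil

lemma dn_vw (S : List Ent) (k : List ℕ) : ∀ x ∈ vw S k, vw (vw S k) x.sl = vw S x.sl :=
  fun _ hx => vw_vw (mem_vw.1 hx).2.le

/-- the end of a stage -/
lemma eff_fin {ext : List Ins} {L' : Lit} {S0 S' : List Ent}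
    (hok : ActOK X s.sg s.L S0 ext L') (hlit : LitOK X s.sg L') (hsub : S0.Sublist s.S)
    (hdn : ∀ x ∈ S0, vw S0 x.sl = vw s.S x.sl)
    (hst : S' = S0 ∨ ∃ y, S' = S0 ++ [y] ∧ (∀ x ∈ S0, x.sl < y.sl) ∧ y ∉ s.S ∧ Shape y ∧
      EI X (s.sg ++ ext ++ [⟨0, pre X (JJ L'), s.stg, 0⟩]) L' S0 y ∧
        (y.tag = 5 → ∀ x ∈ S0, x.tag = 5 → x.b ≠ y.b))
    (hwr : ∀ i ∈ ext, tnz X i = true → ∀ x ∈ S0, x.tag = 5 → x.b = col i.p → x.sl <+: s.cur) :
    ∃ ext' S1, Eff X s (fin X s ext L' S') ext' S1 := by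
  refine ⟨ext ++ [(⟨0, pre X (JJ L'), s.stg, 0⟩ : Ins)], S0,
    List.append_assoc s.sg ext [(⟨0, pre X (JJ L'), s.stg, 0⟩ : Ins)],
    hok.hk hlit _, hlit.mono ?_, hsub, hdn, hst, ?_⟩
  · exact (List.prefix_append _ _).trans (List.prefix_append _ _)
  · intro i hi ht x hx h5 hb
    rcases List.mem_append.1 hi with hi | hi
    · exact Or.inl (hwr i hi ht x hx h5 hb)
    · rw [List.mem_singleton.1 hi] at ht
      exact absurd ht (tnz_hk _ _)

lemma eff_stay (h : Inv X s) : ∃ ext S0, Eff X s (fin X s [] s.L s.S) ext S0 :=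
  eff_fin (act_nil (fun _ hl => hl) fun _ hl _ => hl) h.lit (List.Sublist.refl _)
    (fun _ _ => rfl) (Or.inl rfl) fun _ hi => absurd hi List.not_mem_nil

lemma eff_cut (h : Inv X s) (k : List ℕ) :
    ∃ ext S0, Eff X s (fin X s [] s.L (vw s.S k)) ext S0 :=
  eff_fin (act_nil (fun _ hl => hl) fun _ hl _ => hl) h.lit (vw_sublist _ _)
    (dn_vw _ _) (Or.inl rfl) fun _ hi => absurd hi List.not_mem_nil

lemma eff_mov (h : Inv X s) (o : ℕ) : ∃ ext S0, Eff X s (mov s [] o) ext S0 :=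
  ⟨[], keep s.S (s.cur ++ [o]), rfl, act_nil (fun _ hl => hl) fun _ hl _ => hl,
    h.lit.mono (List.prefix_append _ _), keep_sublist _ _,
    fun _ hx => vw_keep (mem_keep.1 hx).2, Or.inl rfl, fun _ hi => absurd hi List.not_mem_nil⟩

lemma eff_loop (h : Inv X s) :
    ∃ ext S0, Eff X s ⟨s.sg, s.L, s.S, s.cur, s.j + 1, s.stg⟩ ext S0 :=
  ⟨[], s.S, (List.append_nil _).symm, act_nil (fun _ hl => hl) fun _ hl _ => hl, h.lit,
    List.Sublist.refl _, fun _ _ => rfl, Or.inl rfl, fun _ hi => absurd hi List.not_mem_nil⟩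

/-- the part after the old string of a stage end with an empty extension -/
lemma wk_new {σ : List Ins} {L' : Lit} (hlit : LitOK X σ L') (m : ℕ) (V : List Ent)
    (t : List ℕ) :
    σ.length ≤ (σ ++ [] ++ [(⟨0, pre X (JJ L'), m, 0⟩ : Ins)]).length ∧ (∀ l ∈ L', l ∈ L') ∧
      resp L' ((σ ++ [] ++ [(⟨0, pre X (JJ L'), m, 0⟩ : Ins)]).drop σ.length) ∧
      frz (qq V) ((σ ++ [] ++ [(⟨0, pre X (JJ L'), m, 0⟩ : Ins)]).drop σ.length) ∧
      ∀ i ∈ (σ ++ [] ++ [(⟨0, pre X (JJ L'), m, 0⟩ : Ins)]).drop σ.length,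
        tnz X i = true → col i.p ∉ NB V t := by
  rw [List.append_nil, List.drop_left]
  refine ⟨by simp, fun _ hl => hl, resp_zero hlit ?_, frz_zero ?_, ?_⟩
  · intro i hi
    rw [List.mem_singleton.1 hi]
    exact ⟨rfl, rfl⟩
  · intro i hi
    rw [List.mem_singleton.1 hi]
  · intro i hi ht
    rw [List.mem_singleton.1 hi] at ht
    exact absurd ht (tnz_hk _ _)

lemma eff_wx (h : Inv X s) (w : List Ins × List ℕ) (hN : AtN s)
    (hg : get s.S (s.cur ++ [0]) = none)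
    (hx : xobj X (vw s.S (s.cur ++ [0])) (s.cur ++ [0]) (lpL X s.L s.j) s.sg s.j w)
    (hv : xval (s.cur ++ [0]) s.sg s.j w ≠ some (X s.j)) :
    ∃ ext S0, Eff X s
      (fin X s w.1 s.L (vw s.S (s.cur ++ [0]) ++ [wonN (s.cur ++ [0])])) ext S0 := by
  obtain ⟨⟨hr, hf, hc⟩, htab, hsome⟩ := hx
  have hpre : ∀ i ∈ w.1, tnz X i = true → ∀ y ∈ vw s.S (s.cur ++ [0]), y.tag = 5 →
      y.b = col i.p → y.sl <+: s.cur ++ [0] := by
    intro i hi ht y hy h5 hb
    by_contra hn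
    exact (hc i hi ht).1 (mem_NB.2 ⟨y, hy, h5, hn, hb⟩)
  refine eff_fin (S0 := vw s.S (s.cur ++ [0]))
    ⟨hr.mono fun l hl => List.mem_cons_of_mem _ hl, fun _ hl => hl, hf, fun _ hl _ _ _ => hl, ?_⟩
    h.lit (vw_sublist _ _) (dn_vw _ _) (Or.inr ⟨_, rfl, fun x hx => (mem_vw.1 hx).2,
      fun hy => get_none.1 hg _ hy rfl, ⟨s.cur, Or.inl ⟨hN.2, rfl, Nat.zero_le _⟩⟩, ?_,
      fun h5 => absurd h5 (by simp [wonN])⟩) ?_
  · intro i hi ht y hy h5 hb
    have hp := hpre i hi ht y hy h5 hb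
    refine ⟨fun x hx hl => (hl.trans_lt (mem_vw.1 hx).2).2 hp, Or.inl ?_⟩
    exact (hc i hi ht).2 y (mem_EE.2 ⟨hy, h5, hp⟩) hb
  · refine ⟨fun _ => ?_, fun h' => absurd h' (by simp [wonN]),
      fun h' => absurd h' (by simp [wonN]), fun h' => absurd (isOwn_iff.1 h') (by simp [wonN]),
      fun h' => absurd h' (by simp [wonN]), fun h' => absurd h' (by simp [wonN])⟩
    obtain ⟨y, hy⟩ := Option.isSome_iff_exists.1 hsome
    refine ⟨s.j, w.2, y, ?_, fun hyx => hv (hyx ▸ hy), fun p hp => ?_⟩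
    · refine ev_mono (zip2_mono (List.prefix_refl _) (cd_mono ?_)) hy
      exact (List.prefix_append _ _).trans (List.prefix_append _ _)
    · exact val_mono (List.prefix_append _ _) (htab p hp)
  · intro i hi ht x hx h5 hb
    rcases pre_snoc.1 (hpre i hi ht x hx h5 hb) with h' | h'
    · exact h'
    · exact absurd h' (mem_vw.1 hx).2.ne

lemma eff_cert (h : Inv X s) (hN : AtN s) (hg : get s.S (s.cur ++ [0]) = none) :
    ∃ ext S0, Eff X s (fin X s [] (lpL X s.L s.j)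
      (vw s.S (s.cur ++ [0]) ++ [cert (s.cur ++ [0]) s.sg.length (lpL X s.L s.j) s.j])) ext S0 := by
  have hlit : LitOK X s.sg (lpL X s.L s.j) := h.lit.cons_zero _
  refine eff_fin (S0 := vw s.S (s.cur ++ [0]))
    (act_nil (fun l hl => List.mem_cons_of_mem _ hl) fun l hl h0 => ?_)
    hlit (vw_sublist _ _) (dn_vw _ _) (Or.inr ⟨_, rfl, fun x hx => (mem_vw.1 hx).2,
      fun hy => get_none.1 hg _ hy rfl, ⟨s.cur, Or.inl ⟨hN.2, rfl, le_refl 1⟩⟩, ?_,
      fun h5 => absurd h5 (by simp [cert])⟩) fun _ hi => absurd hi List.not_mem_nil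
  · rcases List.mem_cons.1 hl with rfl | hl
    · exact absurd rfl h0
    · exact hl
  · exact ⟨fun h' => absurd h' (by simp [cert]), fun _ => wk_new hlit _ _ _,
      fun h' => absurd h' (by simp [cert]), fun h' => absurd (isOwn_iff.1 h') (by simp [cert]),
      fun h' => absurd h' (by simp [cert]), fun h' => absurd h' (by simp [cert])⟩

lemma eff_new (h : Inv X s) (hM : AtM s) (hP : ¬ Pass s)
    (ho : own (vw s.S (s.cur ++ [2])) (s.cur ++ [2]) = none) :
    ∃ ext S0, Eff X s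
      (fin X s [] s.L (vw s.S (s.cur ++ [1]) ++ [wait (s.cur ++ [1])])) ext S0 := by
  have hq := own_none.1 ho
  have h12 : s.cur ++ [1] < s.cur ++ [2] := snoc_lt_snoc.2 (by omega)
  have h01 : s.cur ++ [0] < s.cur ++ [1] := snoc_lt_snoc.2 (by omega)
  have he : eS (s.cur ++ [1]) = eS (s.cur ++ [2]) := by rw [eS_snoc, eS_snoc]
  refine eff_fin (S0 := vw s.S (s.cur ++ [1])) (act_nil (fun _ hl => hl) fun _ hl _ => hl)
    h.lit (vw_sublist _ _) (dn_vw _ _) (Or.inr ⟨_, rfl, fun x hx => (mem_vw.1 hx).2,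
      fun hy => hq (mem_qq.2 ⟨_, mem_vw.2 ⟨hy, h12⟩, rfl, he⟩),
      ⟨s.cur, Or.inr ⟨hM.2, Or.inr (Or.inl ⟨rfl, Or.inl rfl⟩)⟩⟩, ?_,
      fun h5 => absurd h5 (by simp [wait])⟩) fun _ hi => absurd hi List.not_mem_nil
  refine ⟨fun h' => absurd h' (by simp [wait]), fun h' => absurd h' (by simp [wait]),
    fun h' => absurd h' (by simp [wait]), fun _ => ⟨fun h' => hq ?_, ?_⟩,
    fun h' => absurd h' (by simp [wait]), fun h' => absurd h' (by simp [wait])⟩
  · rw [← he]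
    exact qq_vw_mono h12.le h'
  · show get (vw s.S (s.cur ++ [1])) (wonS (s.cur ++ [1])) = none
    rw [wonS_snoc, get_vw h01]
    exact Option.not_isSome_iff_eq_none.1 fun h' => hP (Or.inr h')

lemma eff_fent (h : Inv X s) (o : Ent) (hM : AtM s)
    (ho : own (vw s.S (s.cur ++ [2])) (s.cur ++ [2]) = some o) (h4 : o.tag = 4)
    (hg : get s.S (s.cur ++ [2]) = none) :
    ∃ ext S0, Eff X s (fin X s [] s.L
      (vw s.S (s.cur ++ [2]) ++ [fent (s.cur ++ [2]) (fresh s.sg s.S) s.sg.length s.L])) ext S0 := by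
  refine eff_fin (S0 := vw s.S (s.cur ++ [2])) (act_nil (fun _ hl => hl) fun _ hl _ => hl)
    h.lit (vw_sublist _ _) (dn_vw _ _) (Or.inr ⟨_, rfl, fun x hx => (mem_vw.1 hx).2,
      fun hy => get_none.1 hg _ hy rfl,
      ⟨s.cur, Or.inr ⟨hM.2, Or.inr (Or.inr ⟨rfl, rfl⟩)⟩⟩, ?_, fun _ x hx _ hb => ?_⟩)
    fun _ hi => absurd hi List.not_mem_nil
  · refine ⟨fun h' => absurd h' (by simp [fent]), fun _ => wk_new h.lit _ _ _,
      fun h' => absurd h' (by simp [fent]), fun h' => absurd (isOwn_iff.1 h') (by simp [fent]),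
      fun h' => absurd h' (by simp [fent]), fun _ => ⟨⟨o, ho, h4⟩, fun i hi ht hc => ?_⟩⟩
    rw [List.append_nil] at hi
    rcases List.mem_append.1 hi with hi | hi
    · have h1 := lt_big hi
      have h2 := col_le i.p
      have h3 : col i.p = big s.sg + lmax (s.S.map fun x => x.b) := hc
      omega
    · rw [List.mem_singleton.1 hi] at ht
      exact absurd ht (tnz_hk _ _)
  · have h1 : x.b ≤ lmax (s.S.map fun x => x.b) :=
      le_lmax (List.mem_map.2 ⟨x, (mem_vw.1 hx).1, rfl⟩)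
    have h2 : x.b = lmax (s.sg.map fun i => i.p) + 1 + lmax (s.S.map fun x => x.b) := hb
    omega

end EffSAux

open EffSAux in
/-- every step has an effect of the described form -/
theorem effS (h1 : EffNW1) (h2 : EffFill) (h3 : EffW1) (h4 : EffW2) (h5 : EffCod) : EffS := by
  intro X s b s' hX h hs
  cases hs with
  | cap _ => exact eff_stay h
  | nRef x _ _ _ => exact eff_cut h _
  | nMov x _ _ _ => exact eff_mov h _
  | nAb _ _ _ => exact eff_stay h
  | nW1 w hN hg _ hw => exact h1 X s w hX h hN hg hw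
  | nLoop w _ _ _ _ _ _ => exact eff_loop h
  | nWx w hN hg _ hx hv => exact eff_wx h w hN hg hx hv
  | nCert hN hg _ _ => exact eff_cert h hN hg
  | mPass _ _ => exact eff_mov h _
  | mNew hM hP ho => exact eff_new h hM hP ho
  | mFill o hM _ ho ht hz => exact h2 X s o h hM ho ht hz
  | mWait o _ _ _ _ _ => exact eff_mov h _
  | mW1 o w y hM _ ho ht _ hw hy => exact h3 X s o w y h hM ho ht hw hy
  | mCert o hM _ ho ht hg _ => exact eff_fent h o hM ho ht hg
  | mRef o x _ _ _ _ _ _ => exact eff_cut h _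
  | mFin o x _ _ _ _ _ _ _ => exact eff_mov h _
  | mW2 o x i hM _ ho ht hg _ hz hi hn hc hd => exact h4 X s o x i h hM ho ht hg hz hi hn hc hd
  | mCod o x hM _ _ _ hg _ hz _ => exact h5 X s x h hM hg hz

end Pool.Agent.MP_68d28f_lc.CE.T4
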