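import Pool.Agent.MP_68d28f_lc.ce.t4.Spec

/-! Block T4: the true path and the end of the proof. -/

namespace Pool.Agent.MP_68d28f_lc.CE.T4

open Pool.Agent.MP_b427ce_lc

namespace Fn

lemma inv_zero (X : ℕ → ℕ) : Inv X ⟨[], [], [], [], 0, 0⟩ where
  lit := fun _ hl => absurd hl List.not_mem_nil
  srt := List.Pairwise.nil
  shp := fun _ hx => absurd hx List.not_mem_nil
  len := Nat.le_refl 0
  hk := fun p hp => absurd hp (Nat.not_lt_zero p)
  ent := fun _ hx => absurd hx List.not_mem_nil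
  dif := fun _ hx => absurd hx List.not_mem_nil
  cln := fun _ hx => absurd hx List.not_mem_nil
  lp := fun j hj => absurd hj (Nat.not_lt_zero j)

lemma not_lt_zero {δ : List ℕ} {u : ℕ} : ¬ δ ++ [u] < [0] := by
  cases δ with
  | nil =>
    intro h
    rcases List.cons_lt_cons_iff.1 h with h | ⟨_, h⟩
    · exact Nat.not_lt_zero _ h
    · exact List.not_lt_nil _ h
  | cons a δ =>
    intro h
    rcases List.cons_lt_cons_iff.1 h with h | ⟨_, h⟩
    · exact Nat.not_lt_zero _ h
    · exact List.not_lt_nil _ h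

lemma vw_root {X : ℕ → ℕ} {s : St} (h : Inv X s) : vw s.S ([] ++ [0]) = [] := by
  unfold vw
  rw [List.filter_eq_nil_iff]
  intro x hx hlt
  rw [ltB_iff] at hlt
  obtain ⟨δ, hδ⟩ := h.shp x hx
  rcases hδ with ⟨_, e, _⟩ | ⟨_, ⟨e, _⟩ | ⟨e, _⟩ | ⟨e, _⟩⟩ <;>
    exact not_lt_zero (e ▸ hlt)

lemma tp_root {X : ℕ → ℕ} {st : ℕ → St} {b : ℕ → ℕ} (g : Good X st b) : TP st [] := by
  refine ⟨fun i => ?_, 0, fun i _ => ⟨fun h => List.not_lt_nil _ h.1, ?_⟩⟩
  · obtain ⟨i', h1, h2, h3⟩ := g.ends i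
    exact ⟨i', h1, h2, Nat.lt_of_le_of_lt (Nat.zero_le i) h3⟩
  · rw [vw_root (g.inv i), vw_root (g.inv 0)]

/-- the path determined by a choice of outcomes -/
def path (nx : List ℕ → ℕ) : ℕ → List ℕ
  | 0 => []
  | n + 1 => path nx n ++ [nx (path nx n)]

lemma length_path (nx : List ℕ → ℕ) (n : ℕ) : (path nx n).length = n := by
  induction n with
  | zero => rfl
  | succ n ih => simp [path, ih]

lemma getD_path (nx : List ℕ → ℕ) {m n : ℕ} (h : m < n) :
    (path nx n).getD m 0 = nx (path nx m) := by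
  induction n with
  | zero => exact absurd h (Nat.not_lt_zero m)
  | succ n ih =>
    rcases Nat.lt_succ_iff_lt_or_eq.1 h with h | rfl
    · rw [path, List.getD_append _ _ _ _ (by rw [length_path]; exact h), ih h]
    · rw [path, List.getD_append_right _ _ _ _ (by rw [length_path]), length_path]
      simp

lemma red_maskF {C h : ℕ → ℕ} (hC : Red C h) (sd : ℕ) : Red (maskF sd C) h := by
  unfold Red at hC ⊢
  unfold maskF
  fun_prop

lemma eN_lev (e i : ℕ) : eN (2 * Nat.pair e i + 1) = e := by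
  have : (2 * Nat.pair e i + 1) / 2 = Nat.pair e i := by omega
  simp [eN, this]

lemma lamN_lev (e l sd : ℕ) (h : sd ≤ 1) : lamN (2 * Nat.pair e (2 * l + sd) + 1) = l := by
  have : (2 * Nat.pair e (2 * l + sd) + 1) / 2 = Nat.pair e (2 * l + sd) := by omega
  simp only [lamN, this, Nat.unpair_pair]
  omega

lemma sdN_lev (e l sd : ℕ) (h : sd ≤ 1) : sdN (2 * Nat.pair e (2 * l + sd) + 1) = sd := by
  have : (2 * Nat.pair e (2 * l + sd) + 1) / 2 = Nat.pair e (2 * l + sd) := by omega
  simp only [sdN, this, Nat.unpair_pair]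
  omega

end Fn

open Fn

theorem fin4 (hB : LemB) (h1 : CompS) (h2 : InvS) (h3 : GoodS) (h4 : LimS) (h5 : TpN)
    (h6 : TpM) : T4 := by
  intro X x01 xK dom nce
  obtain ⟨step, hc, hstep⟩ := h1 X xK
  obtain ⟨st, b, stc, st0, stS, binf, low⟩ :=
    hB St X dom step ⟨[], [], [], [], 0, 0⟩ hc
  have inv : ∀ i, Inv X (st i) := by
    intro i
    induction i with
    | zero => rw [st0]; exact inv_zero X
    | succ i ih =>
      refine h2 X (st i) (b i) _ x01 ih ?_
      rw [stS]
      exact hstep _ _ ih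
  have run : Run X st b :=
    ⟨x01, xK, nce, st0, fun i => by rw [stS]; exact hstep _ _ (inv i), binf, low⟩
  have g := h3 X st b run
  obtain ⟨G, A, lim, hG, hA, hC⟩ := h4 X st b g stc
  have nxt : ∀ δ : List ℕ, ∃ o, TP st δ → TP st (δ ++ [o]) ∧ (δ.length % 2 = 1 →
      ((o = 0 ∧ (triv δ ∨ WonF X st G δ.length)) ∨
        (2 ≤ o ∧ ∀ z, Cmp (eN δ.length) (jn X (gG G)) z → Red z A))) := by
    intro δ
    by_cases hδ : TP st δ
    · rcases Nat.mod_two_eq_zero_or_one δ.length with h | h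
      · exact ⟨0, fun _ => ⟨(h5 X st b G A δ g lim hδ h).1, fun h' => by omega⟩⟩
      · obtain ⟨o, ho, ho'⟩ := h6 X st b G A δ g lim hδ h
        exact ⟨o, fun _ => ⟨ho, fun _ => ho'⟩⟩
    · exact ⟨0, fun h => absurd h hδ⟩
  choose nx hnx using nxt
  have tp : ∀ n, TP st (path nx n) := by
    intro n
    induction n with
    | zero => exact tp_root g
    | succ n ih => exact (hnx _ ih).1
  refine ⟨gG G, A, hG, hA, ?_, ?_⟩
  · intro h
    obtain ⟨e, he⟩ := red_iff.1 h
    have hl : (path nx (2 * e)).length = 2 * e := length_path nx _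
    have := (h5 X st b G A _ g lim (tp (2 * e)) (by rw [hl]; omega)).2
    rw [hl, Nat.mul_div_cancel_left e (by norm_num : 0 < 2)] at this
    exact this he
  · intro Z hZ
    obtain ⟨e, he⟩ := red_iff.1 hZ
    by_cases hx : ∃ m, m % 2 = 1 ∧ eN m = e ∧ 2 ≤ nx (path nx m)
    · obtain ⟨m, hm, hme, h2m⟩ := hx
      have hl := length_path nx m
      rcases (hnx _ (tp m)).2 (by rw [hl]; exact hm) with ⟨h0, _⟩ | ⟨_, hz⟩
      · omega
      · rw [hl, hme] at hz
        exact Or.inl ((hz Z he).trans (red_jn_left _ _))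
    · have won : ∀ i, WonF X st G (2 * Nat.pair e i + 1) := by
        intro i
        have hl := length_path nx (2 * Nat.pair e i + 1)
        rcases (hnx _ (tp (2 * Nat.pair e i + 1))).2 (by rw [hl]; omega) with
          ⟨_, ht | hw⟩ | ⟨h2o, _⟩
        · obtain ⟨m, hm, hm2, hme, h2m⟩ := ht
          rw [hl] at hm hme
          rw [getD_path nx hm] at h2m
          exact absurd ⟨m, hm2, hme.trans (eN_lev e i), h2m⟩ hx
        · rwa [hl] at hw
        · exact absurd ⟨_, by omega, eN_lev e i, h2o⟩ hx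
      have tot : ∀ p, ∃ i, (val (e + 1) (tru Z) (st i).sg p).isSome = true := by
        intro p
        have hw := (won p Z (by rw [eN_lev]; exact he)).1 p
          (by have := Nat.right_le_pair e p; omega)
        rwa [eN_lev] at hw
      obtain ⟨C, hCr, hCv⟩ := hC e Z tot
      have key : ∀ sd, sd ≤ 1 → ¬ Red (maskF (1 - sd) C) (jn (maskF sd C) (gG G)) := by
        intro sd hsd h
        obtain ⟨l, hl⟩ := red_iff.1 h
        have hw := (won (2 * l + sd) Z (by rw [eN_lev]; exact he)).2 C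
          (by rw [eN_lev]; exact hCv)
        rw [lamN_lev e l sd hsd, sdN_lev e l sd hsd] at hw
        exact hw hl
      exact Or.inr ⟨maskF 0 C, maskF 1 C, red_maskF hCr 0, red_maskF hCr 1,
        key 1 (le_refl 1), key 0 (Nat.zero_le 1)⟩

end Pool.Agent.MP_68d28f_lc.CE.T4
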