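import Pool.Agent.MP_68d28f_lc.ce.t4.Bas

/-! Block T4: every run is good. -/

namespace Pool.Agent.MP_68d28f_lc.CE.T4

open Pool.Agent.MP_b427ce_lc

namespace GD

variable {X : ℕ → ℕ} {st : ℕ → St} {b : ℕ → ℕ}

lemma inv0 (X : ℕ → ℕ) : Inv X ⟨[], [], [], [], 0, 0⟩ where
  lit := fun _ h => absurd h List.not_mem_nil
  srt := List.Pairwise.nil
  shp := fun _ h => absurd h List.not_mem_nil
  len := Nat.zero_le _
  hk := fun _ h => absurd h (Nat.not_lt_zero _)
  ent := fun _ h => absurd h List.not_mem_nil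
  dif := fun _ h => absurd h List.not_mem_nil
  cln := fun _ h => absurd h List.not_mem_nil
  lp := fun _ h => absurd h (Nat.not_lt_zero _)

lemma inv_all (h1 : InvS) (hr : Run X st b) : ∀ i, Inv X (st i) := by
  intro i
  induction i with
  | zero => rw [hr.ini]; exact inv0 X
  | succ i ih => exact h1 X (st i) (b i) (st (i + 1)) hr.x01 ih (hr.stp i)

lemma kind_stg {s s' : St} (h : Kind s s') : s.stg ≤ s'.stg := by
  cases h with
  | stay _ h _ => omega
  | ownc o h => have := h.stg; omega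
  | prox α k h _ _ _ _ _ => have := h.stg; omega
  | move o _ h _ _ => omega
  | loop _ h _ _ => omega

lemma mono_all (he : ∀ i, ∃ ext S0, Eff X (st i) (st (i + 1)) ext S0)
    (hk : ∀ i, Kind (st i) (st (i + 1))) (i i' : ℕ) (h : i ≤ i') :
    (st i).sg <+: (st i').sg ∧ (∀ l ∈ (st i).L, l ∈ (st i').L) ∧ (st i).stg ≤ (st i').stg := by
  induction i', h using Nat.le_induction with
  | base => exact ⟨List.prefix_refl _, fun _ h => h, le_rfl⟩
  | succ n _ ih =>
    obtain ⟨ext, S0, hE⟩ := he n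
    refine ⟨ih.1.trans ?_, fun l hl => hE.ok.sub l (ih.2.1 l hl), ih.2.2.trans (kind_stg (hk n))⟩
    rw [hE.sg]
    exact List.prefix_append _ _

lemma not_pre_nil (γ : List ℕ) (o : ℕ) : ¬ γ ++ [o] <+: [] := by
  intro h
  have := h.length_le
  simp at this

lemma pass_all (hk : ∀ i, Kind (st i) (st (i + 1))) (i1 i3 : ℕ) (γ : List ℕ) (o : ℕ)
    (h : i1 ≤ i3) (h1 : ¬ γ ++ [o] <+: (st i1).cur) (h3 : γ ++ [o] <+: (st i3).cur) :
    ∃ i, i1 ≤ i ∧ i < i3 ∧ (st i).cur = γ ∧ (st (i + 1)).cur = γ ++ [o] := by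
  induction i3, h using Nat.le_induction with
  | base => exact absurd h3 h1
  | succ n hn ih =>
    by_cases hp : γ ++ [o] <+: (st n).cur
    · obtain ⟨i, a1, a2, a3, a4⟩ := ih hp
      exact ⟨i, a1, by omega, a3, a4⟩
    · cases hk n with
      | stay hc _ _ => rw [hc] at h3; exact absurd h3 (not_pre_nil γ o)
      | ownc o' hc => rw [hc.cur] at h3; exact absurd h3 (not_pre_nil γ o)
      | prox α k hc _ _ _ _ _ => rw [hc.cur] at h3; exact absurd h3 (not_pre_nil γ o)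
      | move o' hc _ _ _ =>
        rw [hc] at h3
        rcases pre_snoc.1 h3 with h4 | h4
        · exact absurd h4 hp
        · refine ⟨n, hn, Nat.lt_succ_self n, ?_, ?_⟩
          · exact (List.append_inj' h4 rfl).1.symm
          · rw [hc, h4]
      | loop hc _ _ _ => rw [hc] at h3; exact absurd h3 hp

lemma stab_all (hk : ∀ i, Kind (st i) (st (i + 1))) (k : List ℕ) (i1 : ℕ)
    (hl : ∀ i, i1 ≤ i → ¬ left (st i).cur k)
    (hc : ∀ i, i1 ≤ i → ∀ κ, κ < k → Cut (st i) (st (i + 1)) κ →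
      wt (vw (st (i + 1)).S k) < wt (vw (st i).S k)) :
    ∃ i2, i1 ≤ i2 ∧ ∀ i, i2 ≤ i → vw (st i).S k = vw (st i2).S k := by
  have cut : ∀ i, i1 ≤ i → ∀ κ, Cut (st i) (st (i + 1)) κ →
      vw (st (i + 1)).S k = vw (st i).S k ∨ wt (vw (st (i + 1)).S k) < wt (vw (st i).S k) := by
    intro i hi κ h
    rcases lt_or_ge κ k with h1 | h1
    · exact Or.inr (hc i hi κ h1 h)
    · exact Or.inl (vw_congr h.low h1)
  have step : ∀ i, i1 ≤ i →
      vw (st (i + 1)).S k = vw (st i).S k ∨ wt (vw (st (i + 1)).S k) < wt (vw (st i).S k) := by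
    intro i hi
    cases hk i with
    | stay _ _ h => exact Or.inl (by rw [h])
    | ownc o h => exact cut i hi _ h
    | prox α κ h _ _ _ _ _ => exact cut i hi _ h
    | move o h1 _ _ h2 =>
      left
      rw [h2]
      apply vw_keep
      rw [← h1]
      exact hl (i + 1) (by omega)
    | loop _ _ h _ => exact Or.inl (by rw [h])
  have ex : ∃ m, ∃ i, i1 ≤ i ∧ wt (vw (st i).S k) = m := ⟨_, i1, le_rfl, rfl⟩
  classical
  obtain ⟨i2, h2, hm⟩ := Nat.find_spec ex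
  refine ⟨i2, h2, fun i hi => ?_⟩
  induction i, hi using Nat.le_induction with
  | base => rfl
  | succ n hn ih =>
    rcases step n (h2.trans hn) with h | h
    · rw [h, ih]
    · exfalso
      rw [ih, hm] at h
      exact Nat.find_min ex h ⟨n + 1, by omega, rfl⟩

lemma mem_S0 {s s' : St} {ext : List Ins} {S0 : List Ent} (h : Eff X s s' ext S0) {x : Ent}
    (hx : x ∈ s.S) (hx' : x ∈ s'.S) : x ∈ S0 := by
  rcases h.st with h1 | ⟨y, h1, _, hy, _⟩
  · rwa [h1] at hx'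
  · rw [h1] at hx'
    rcases List.mem_append.1 hx' with h2 | h2
    · exact h2
    · rw [List.mem_singleton.1 h2] at hx
      exact absurd hx hy

lemma frozen_one {s s' : St} {ext : List Ins} {S0 : List Ent} (h : Eff X s s' ext S0) {o : Ent}
    (hx : o ∈ s.S) (hx' : o ∈ s'.S) (ho : isOwn o = true) :
    Lz (eS o.sl) s'.sg s'.L ≤ Lz (eS o.sl) s.sg s.L := by
  have hq : eS o.sl ∈ qq S0 := mem_qq.2 ⟨o, mem_S0 h hx hx', ho, rfl⟩
  refine Lz_le (fun i hi hc => ?_) (fun l hl hc => h.ok.nl l hl _ hq hc)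
  rw [h.sg] at hi
  rcases List.mem_append.1 hi with h1 | h1
  · exact h1
  · exact absurd hc (h.ok.fz i h1 _ hq)

lemma wrote_one {s s' : St} {ext : List Ins} {S0 : List Ent} (h : Eff X s s' ext S0) {x : Ent}
    (hx : x ∈ s.S) (hx' : x ∈ s'.S) (ht : x.tag = 5) (h1 : ¬ x.sl <+: s.cur)
    (h2 : ¬ x.sl <+: s'.cur) : RR X x.b s'.sg ≤ RR X x.b s.sg := by
  refine RR_le fun i hi hz hc => ?_
  rw [h.sg] at hi
  rcases List.mem_append.1 hi with h3 | h3
  · exact h3
  · rcases h.wr i h3 hz x (mem_S0 h hx hx') ht hc.symm with h4 | h4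
    · exact absurd h4 h1
    · exact absurd (h4 ▸ List.prefix_refl _) h2

lemma stp_tri {s s' : St} {c : ℕ} (h : Stp X s c s') :
    (s'.cur = [] ∧ s'.stg = s.stg + 1) ∨
    (s'.stg = s.stg ∧ s.cur.length < s.stg ∧ s'.cur.length = s.cur.length + 1) ∨
    (s' = ⟨s.sg, s.L, s.S, s.cur, s.j + 1, s.stg⟩ ∧ ¬ Abort X s c ∧
      ¬ Fnd c (bobj X (vw s.S (s.cur ++ [0])) (s.cur ++ [0]) s.L s.sg)) := by
  have mv : ∀ (ext : List Ins) (o : ℕ), s.cur.length < s.stg →
      (mov s ext o).stg = s.stg ∧ s.cur.length < s.stg ∧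
        (mov s ext o).cur.length = s.cur.length + 1 :=
    fun ext o h => ⟨rfl, h, by simp [mov]⟩
  cases h with
  | cap _ => exact Or.inl ⟨rfl, rfl⟩
  | nRef _ _ _ _ => exact Or.inl ⟨rfl, rfl⟩
  | nMov _ h _ _ => exact Or.inr (Or.inl (mv _ _ h.1))
  | nAb _ _ _ => exact Or.inl ⟨rfl, rfl⟩
  | nW1 _ _ _ _ _ => exact Or.inl ⟨rfl, rfl⟩
  | nLoop _ _ _ h1 h2 _ _ => exact Or.inr (Or.inr ⟨rfl, h1, h2⟩)
  | nWx _ _ _ _ _ _ => exact Or.inl ⟨rfl, rfl⟩
  | nCert _ _ _ _ => exact Or.inl ⟨rfl, rfl⟩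
  | mPass h _ => exact Or.inr (Or.inl (mv _ _ h.1))
  | mNew _ _ _ => exact Or.inl ⟨rfl, rfl⟩
  | mFill _ _ _ _ _ _ => exact Or.inl ⟨rfl, rfl⟩
  | mWait _ h _ _ _ _ => exact Or.inr (Or.inl (mv _ _ h.1))
  | mW1 _ _ _ _ _ _ _ _ _ _ => exact Or.inl ⟨rfl, rfl⟩
  | mCert _ _ _ _ _ _ _ => exact Or.inl ⟨rfl, rfl⟩
  | mRef _ _ _ _ _ _ _ _ => exact Or.inl ⟨rfl, rfl⟩
  | mFin _ _ h _ _ _ _ _ _ => exact Or.inr (Or.inl (mv _ _ h.1))
  | mW2 _ _ _ _ _ _ _ _ _ _ _ _ _ _ => exact Or.inl ⟨rfl, rfl⟩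
  | mCod _ _ h _ _ _ _ _ _ _ => exact Or.inr (Or.inl (mv _ _ h.1))

/-- the loop cannot run for ever -/
lemma no_loop (h4 : LoopS) (hr : Run X st b) (hi : ∀ i, Inv X (st i)) (i1 : ℕ)
    (h : ∀ i, i1 ≤ i → st (i + 1) =
        ⟨(st i).sg, (st i).L, (st i).S, (st i).cur, (st i).j + 1, (st i).stg⟩ ∧
      ¬ Abort X (st i) (b i) ∧
      ¬ Fnd (b i) (bobj X (vw (st i).S ((st i).cur ++ [0])) ((st i).cur ++ [0]) (st i).L
        (st i).sg)) : False := by
  have same : ∀ n, st (i1 + n) =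
      ⟨(st i1).sg, (st i1).L, (st i1).S, (st i1).cur, (st i1).j + n, (st i1).stg⟩ := by
    intro n
    induction n with
    | zero => rfl
    | succ n ih =>
      have := (h (i1 + n) (Nat.le_add_right _ _)).1
      rw [← Nat.add_assoc, this, ih]
      rfl
  refine hr.nce (h4 X (st i1) hr.x01 hr.xK (hi i1) ?_ ?_ ?_)
  · intro x hx w hw
    obtain ⟨N, hN⟩ := fnd_of hw
    obtain ⟨i2, h2⟩ := hr.binf N
    have h3 := (h (i1 + i2) (Nat.le_add_right _ _)).2.1
    have h5 := hN _ (h2 (i1 + i2) (Nat.le_add_left _ _))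
    rw [same i2] at h3
    exact h3 ⟨x, hx, h5⟩
  · intro w hw
    obtain ⟨N, hN⟩ := fnd_of hw
    obtain ⟨i2, h2⟩ := hr.binf N
    have h3 := (h (i1 + i2) (Nat.le_add_right _ _)).2.2
    have h5 := hN _ (h2 (i1 + i2) (Nat.le_add_left _ _))
    rw [same i2] at h3
    exact h3 h5
  · intro j
    have h3 := hi (i1 + (j + 1))
    rw [same (j + 1)] at h3
    exact h3.lp j (by show j < (st i1).j + (j + 1); omega)

/-- every stage ends -/
lemma stage_ends (h4 : LoopS) (hr : Run X st b) (hi : ∀ i, Inv X (st i)) (i0 : ℕ) :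
    ∃ i, i0 ≤ i ∧ (st (i + 1)).cur = [] ∧ (st (i + 1)).stg = (st i).stg + 1 := by
  by_contra hn
  have hn' : ∀ i, i0 ≤ i → ¬ ((st (i + 1)).cur = [] ∧ (st (i + 1)).stg = (st i).stg + 1) :=
    fun i h1 h2 => hn ⟨i, h1, h2⟩
  have ex : ∃ m, ∃ i, i0 ≤ i ∧ (st i).stg - (st i).cur.length = m := ⟨_, i0, le_rfl, rfl⟩
  classical
  obtain ⟨i1, h1, hm⟩ := Nat.find_spec ex
  have mn : ∀ i, i0 ≤ i → Nat.find ex ≤ (st i).stg - (st i).cur.length :=
    fun i h => Nat.find_min' ex ⟨i, h, rfl⟩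
  have cst : ∀ i, i1 ≤ i → (st i).stg - (st i).cur.length = Nat.find ex := by
    intro i h
    induction i, h using Nat.le_induction with
    | base => exact hm
    | succ n h ih =>
      rcases stp_tri (hr.stp n) with h2 | h2 | h2
      · exact absurd h2 (hn' n (h1.trans h))
      · have := mn (n + 1) (by omega)
        omega
      · rw [h2.1]; exact ih
  refine no_loop h4 hr hi i1 fun i h => ?_
  rcases stp_tri (hr.stp i) with h2 | h2 | h2
  · exact absurd h2 (hn' i (h1.trans h))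
  · have a1 := cst i h
    have a2 := cst (i + 1) (by omega)
    omega
  · exact h2

lemma ends_all (h4 : LoopS) (hr : Run X st b) (hi : ∀ i, Inv X (st i))
    (hm : ∀ i i', i ≤ i' → (st i).stg ≤ (st i').stg) (n i : ℕ) :
    ∃ i', i ≤ i' ∧ (st i').cur = [] ∧ n < (st i').stg := by
  induction n with
  | zero =>
    obtain ⟨i', a1, a2, a3⟩ := stage_ends h4 hr hi i
    exact ⟨i' + 1, by omega, a2, by omega⟩
  | succ n ih =>
    obtain ⟨i1, a1, _, a3⟩ := ih
    obtain ⟨i', c1, c2, c3⟩ := stage_ends h4 hr hi i1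
    have := hm i1 i' c1
    exact ⟨i' + 1, by omega, c2, by omega⟩

end GD

theorem goodS (h1 : InvS) (h2 : EffS) (h3 : KindS) (h4 : LoopS) (h5 : LowS) : GoodS := by
  intro X st b hr
  have hi : ∀ i, Inv X (st i) := GD.inv_all h1 hr
  have he : ∀ i, ∃ ext S0, Eff X (st i) (st (i + 1)) ext S0 :=
    fun i => h2 X (st i) (b i) (st (i + 1)) hr.x01 (hi i) (hr.stp i)
  have hk : ∀ i, Kind (st i) (st (i + 1)) :=
    fun i => h3 X (st i) (b i) (st (i + 1)) (hi i) (hr.stp i)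
  have hm := GD.mono_all he hk
  exact
    { run := hr
      inv := hi
      eff := he
      kind := hk
      lowN := (h5 X st b hr).1
      lowM := (h5 X st b hr).2
      mono := hm
      ends := fun i => GD.ends_all h4 hr hi (fun i i' h => (hm i i' h).2.2) i i
      pass := GD.pass_all hk
      stab := GD.stab_all hk
      frozen := fun i o a1 a2 a3 => by
        obtain ⟨ext, S0, hE⟩ := he i
        exact GD.frozen_one hE a1 a2 a3
      wrote := fun i x a1 a2 a3 a4 a5 => by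
        obtain ⟨ext, S0, hE⟩ := he i
        exact GD.wrote_one hE a1 a2 a3 a4 a5 }

end Pool.Agent.MP_68d28f_lc.CE.T4
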