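import Pool.Agent.MP_68d28f_lc.ce.t4.Bas

/-!
Block T4: every step has a kind.
-/

namespace Pool.Agent.MP_68d28f_lc.CE.T4

open Pool.Agent.MP_b427ce_lc

namespace Knd

variable {X : ℕ → ℕ} {s : St} {ext : List Ins} {L' : Lit} {k : List ℕ}

/-- deleting the entry at the slot `k` is a cut -/
lemma cut_del {x : Ent} (h : get s.S k = some x) : Cut s (fin X s ext L' (vw s.S k)) k where
  cur := rfl
  stg := rfl
  low := vw_vw le_rfl
  chg := by
    change get (vw s.S k) k ≠ _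
    rw [get_vw_none le_rfl, h]
    simp
  top := fun _ hx => (mem_vw.1 hx).2.le

/-- writing a new entry at its slot is a cut -/
lemma cut_new {y : Ent} (h : get s.S y.sl ≠ some y) :
    Cut s (fin X s ext L' (vw s.S y.sl ++ [y])) y.sl where
  cur := rfl
  stg := rfl
  low := by
    change vw (vw s.S y.sl ++ [y]) y.sl = _
    rw [vw_snoc_le le_rfl, vw_vw le_rfl]
  chg := by
    change get (vw s.S y.sl ++ [y]) y.sl ≠ _
    rw [get_snoc_self fun x hx => (mem_vw.1 hx).2.ne]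
    exact h.symm
  top := fun x hx => by
    rcases List.mem_append.1 hx with hx | hx
    · exact (mem_vw.1 hx).2.le
    · exact le_of_eq (congrArg Ent.sl (List.mem_singleton.1 hx))

lemma wt_ge {S : List Ent} (hS : S.Pairwise fun x y => x.sl < y.sl) {o : Ent} (ho : o ∈ S)
    {k' : List ℕ} (hk : o.sl < k') : wt (vw S o.sl) + wt [o] ≤ wt (vw S k') := by
  have h1 : o.sl ++ [0] ≤ k' := not_lt.1 fun h => absurd hk (not_lt.2 (lt_snoc_zero.1 h))
  have h2 := vw_succ hS o.sl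
  rw [get_of_mem hS ho, Option.toList_some] at h2
  rw [← wt_append, ← h2, ← vw_vw (S := S) h1]
  exact wt_sublist (vw_sublist _ _)

lemma wt_new {S : List Ent} {y : Ent} {k' : List ℕ} (hk : y.sl < k') :
    wt (vw (vw S y.sl ++ [y]) k') = wt (vw S y.sl) + wt [y] := by
  rw [vw_snoc_lt hk, vw_eq_self fun x hx => (mem_vw.1 hx).2.trans hk, wt_append]

/-- facts about the owner found by an M-node -/
lemma own_facts (hI : Inv X s) {t : List ℕ} {o : Ent} (h : own (vw s.S t) t = some o) :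
    o ∈ s.S ∧ ∃ α : List ℕ, α.length % 2 = 1 ∧ o.sl = α ++ [1] ∧
      get s.S (α ++ [1]) = some o ∧ get s.S (α ++ [0]) = none := by
  obtain ⟨h1, h2, -⟩ := own_some h
  have h3 := (mem_vw.1 h1).1
  obtain ⟨α, h4, h5⟩ := (hI.shp o h3).own h2
  refine ⟨h3, α, h4, h5, h5 ▸ get_of_mem hI.srt h3, ?_⟩
  have h6 := ((hI.ent o h3).ow h2).2
  rwa [h5, wonS_snoc, get_vw (snoc_lt_snoc.2 Nat.zero_lt_one)] at h6

/-- a win of an owner -/
lemma won (hI : Inv X s) {t : List ℕ} {o : Ent} (h : own (vw s.S t) t = some o) (h4 : o.tag = 4)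
    (c : List ℕ) (p : ℕ) :
    Kind s (fin X s ext L' (vw s.S (wonS o.sl) ++ [wonM (wonS o.sl) c p])) := by
  obtain ⟨ho, α, hα, hs, hg1, hg0⟩ := own_facts hI h
  rw [hs, wonS_snoc]
  refine Kind.prox α (α ++ [0]) (cut_new (y := wonM (α ++ [0]) c p) ?_) hα (Or.inl rfl)
    (by rw [hg1]; rfl) hg0 fun k' hk => ?_
  · change get s.S (α ++ [0]) ≠ _
    rw [hg0]
    simp
  · have h01 : α ++ [0] < α ++ [1] := snoc_lt_snoc.2 Nat.zero_lt_one
    have h1 := wt_ge hI.srt ho (hs ▸ hk)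
    have h2 : wt (vw (vw s.S (α ++ [0]) ++ [wonM (α ++ [0]) c p]) k') =
        wt (vw s.S (α ++ [0])) + wt [wonM (α ++ [0]) c p] :=
      wt_new (y := wonM (α ++ [0]) c p) (h01.trans hk)
    have h3 : wt (vw s.S (α ++ [0])) ≤ wt (vw s.S o.sl) := by
      rw [hs, ← vw_vw (S := s.S) h01.le]
      exact wt_sublist (vw_sublist _ _)
    have h5 : wt [o] = 1 := by simp [wt, h4, eqB]
    have h6 : wt [wonM (α ++ [0]) c p] = 0 := by simp [wt, wonM, eqB]
    change wt (vw (vw s.S (α ++ [0]) ++ [wonM (α ++ [0]) c p]) k') < _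
    omega

/-- a fill of an owner -/
lemma filled (hI : Inv X s) {t : List ℕ} {o : Ent} (h : own (vw s.S t) t = some o)
    (h3 : o.tag = 3) (z c : List ℕ) (p : ℕ) :
    Kind s (fin X s ext L' (vw s.S o.sl ++ [ready o.sl z c p])) := by
  obtain ⟨ho, α, hα, hs, hg1, hg0⟩ := own_facts hI h
  refine Kind.prox α o.sl (cut_new (y := ready o.sl z c p) ?_) hα (Or.inr hs)
    (by rw [hg1]; rfl) hg0 fun k' hk => ?_
  · change get s.S o.sl ≠ _
    rw [get_of_mem hI.srt ho]
    intro he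
    have := congrArg Ent.tag (Option.some.inj he)
    rw [h3] at this
    cases this
  · have hk' : o.sl < k' := hs ▸ hk
    have h1 := wt_ge hI.srt ho hk'
    have h2 : wt (vw (vw s.S o.sl ++ [ready o.sl z c p]) k') =
        wt (vw s.S o.sl) + wt [ready o.sl z c p] := wt_new (y := ready o.sl z c p) hk'
    have h5 : wt [o] = 2 := by simp [wt, h3, eqB]
    have h6 : wt [ready o.sl z c p] = 1 := by simp [wt, ready, eqB]
    change wt (vw (vw s.S o.sl ++ [ready o.sl z c p]) k') < _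
    omega

lemma new_of_none {y : Ent} (o : ℕ) (hy : y.sl = s.cur ++ [o]) (h : get s.S (s.cur ++ [o]) = none) :
    Kind s (fin X s ext L' (vw s.S (s.cur ++ [o]) ++ [y])) := by
  refine Kind.ownc o ?_
  rw [← hy] at h ⊢
  exact cut_new (by rw [h]; simp)

end Knd

open Knd in
theorem kindS : KindS := by
  intro X s b s' hI h
  cases h with
  | cap _ => exact Kind.stay rfl rfl rfl
  | nRef x _ hx _ => exact Kind.ownc 0 (cut_del hx)
  | nMov x ha _ _ => exact Kind.move 0 rfl rfl ha.1 rfl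
  | nAb _ _ _ => exact Kind.stay rfl rfl rfl
  | nW1 w _ hn _ _ => exact new_of_none 0 rfl hn
  | nLoop w _ _ _ _ _ _ => exact Kind.loop rfl rfl rfl rfl
  | nWx w _ hn _ _ _ => exact new_of_none 0 rfl hn
  | nCert _ hn _ _ => exact new_of_none 0 rfl hn
  | mPass ha _ => exact Kind.move 0 rfl rfl ha.1 rfl
  | mNew _ _ hn =>
    refine Kind.ownc 1 (cut_new (y := wait (s.cur ++ [1])) fun he => ?_)
    refine own_none.1 hn (mem_qq.2 ⟨wait (s.cur ++ [1]), mem_vw.2 ⟨(get_some he).1, ?_⟩, rfl, ?_⟩)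
    · exact snoc_lt_snoc.2 Nat.one_lt_two
    · change eS (s.cur ++ [1]) = _
      rw [eS_snoc, eS_snoc]
  | mFill o _ _ ho h3 _ => exact filled hI ho h3 _ _ _
  | mWait o ha _ _ _ _ => exact Kind.move 3 rfl rfl ha.1 rfl
  | mW1 o w y _ _ ho h4 _ _ _ => exact won hI ho h4 _ _
  | mCert o _ _ _ _ hn _ => exact new_of_none 2 rfl hn
  | mRef o x _ _ _ _ hx _ => exact Kind.ownc 2 (cut_del hx)
  | mFin o x ha _ _ _ _ _ _ => exact Kind.move 3 rfl rfl ha.1 rfl
  | mW2 o x i _ _ ho h4 _ _ _ _ _ _ _ => exact won hI ho h4 _ _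
  | mCod o x ha _ _ _ _ _ _ _ => exact Kind.move 2 rfl rfl ha.1 rfl

end Pool.Agent.MP_68d28f_lc.CE.T4
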