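import Pool.Agent.MP_68d28f_lc.ce.t4.Bas
import Pool.Agent.MP_68d28f_lc.ce.t4.Cmp1

/-! Block T4: the loop of an N-node cannot succeed at all arguments. -/

namespace Pool.Agent.MP_68d28f_lc.CE.T4

open Pool.Agent.MP_b427ce_lc

namespace Loop

/-- a true promise on channel zero makes an extension silent for the false value -/
lemma sil_of_resp {X : ℕ → ℕ} (hX : ∀ n, X n ≤ 1) {L : Lit} {J j : ℕ} {τ : List Ins}
    (h : resp ((0, pre X J) :: L) τ) (hj : j < J) : sil 0 j (1 - X j) τ := by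
  intro i hi hc
  have hp : pre X J <+: i.z := h i hi (0, pre X J) List.mem_cons_self hc
  have hl : J ≤ i.z.length := by simpa using hp.length_le
  refine ⟨by omega, ?_⟩
  rw [getD_of_isPrefix hp (by simpa using hj), getD_pre X hj]
  have := hX j
  omega

lemma ob2_mono {V : List Ent} {t : List ℕ} {L L' : Lit} {ρ τ : List Ins} {n v : ℕ} {c : List ℕ}
    (h : ob2 V t L' ρ n v τ c) (hL : ∀ l ∈ L, l ∈ L') : ob2 V t L ρ n v τ c := by
  obtain ⟨o, h1, h2, h3⟩ := h
  exact ⟨o, h1, h2.mono hL, h3⟩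

lemma c_dec' {α T : Type} [Primcodable α] [Primcodable T] [Inhabited T] {O : Set (ℕ →. ℕ)}
    {f : α → ℕ} (hf : ComputableIn O f) : ComputableIn O fun a => dec T (f a) := by
  unfold dec
  fun_prop

lemma dec_list {α β : Type} [Primcodable α] {O : Set (ℕ →. ℕ)} {P : α → β → Prop}
    (h : ∀ x, DecIn O fun a => P a x) (l : List β) : DecIn O fun a => ∃ x ∈ l, P a x := by
  induction l with
  | nil => exact ⟨fun _ => false, c_const _, fun a => by simp⟩
  | cons y l ih => exact ((h y).or ih).of_iff fun a => by simp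

lemma dec_le {α : Type} [Primcodable α] {O : Set (ℕ →. ℕ)} {f g : α → ℕ}
    (hf : ComputableIn O f) (hg : ComputableIn O g) : DecIn O fun a => f a ≤ g a :=
  ⟨fun a => leB (f a) (g a), c_leB hf hg, fun _ => leB_iff⟩

/-- validity becomes security after a long true promise -/
lemma valid_sec {X : ℕ → ℕ} (hX : ∀ n, X n ≤ 1) (hn : ¬ Computable X) {V : List Ent}
    {t : List ℕ} {L : Lit} {ρ : List Ins} {n v : ℕ} (h : valid V t L ρ n v) :
    ∃ J0, ∀ J, J0 ≤ J → sec V t ((0, pre X J) :: L) ρ n v := by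
  have key : ∃ j, ∀ τ c, ¬ (ob2 V t L ρ n v τ c ∧ sil 0 j (1 - X j) τ) := by
    by_contra hc
    push Not at hc
    apply hn
    have hd : DecIn ∅ fun p : ℕ × (ℕ × List Ins × List ℕ) =>
        p.2.1 ≤ 1 ∧ ob2 V t L ρ n v p.2.2.1 p.2.2.2 ∧ sil 0 p.1 p.2.1 p.2.2.1 := by
      refine (dec_le (by fun_prop) (by fun_prop)).and (DecIn.and ?_ ?_)
      · exact dec_ob2.comp (g := fun p : ℕ × (ℕ × List Ins × List ℕ) =>
          ((V, t, L, ρ), (n, v), p.2.2.1, p.2.2.2)) (by fun_prop)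
      · exact dec_sil.comp (g := fun p : ℕ × (ℕ × List Ins × List ℕ) =>
          (0, p.1, p.2.1, p.2.2.1)) (by fun_prop)
    obtain ⟨B, hB, hB'⟩ := hd
    have hdec : ComputableIn ∅ fun p : ℕ × ℕ => dec (ℕ × List Ins × List ℕ) p.2 :=
      c_dec' (by fun_prop)
    refine toC (c_search (P := fun j w => B (j, dec (ℕ × List Ins × List ℕ) w))
      (v := fun _ w => 1 - (dec (ℕ × List Ins × List ℕ) w).1)
      (c_comp hB (c_pair (by fun_prop) hdec)) (c_sub (c_const _) (c_fst hdec)) ?_ ?_)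
    · intro j
      obtain ⟨τ, c, h1, h2⟩ := hc j
      refine ⟨Encodable.encode (1 - X j, τ, c), ?_⟩
      rw [dec_encode]
      exact (hB' _).2 ⟨by simp, h1, h2⟩
    · intro j w hw
      obtain ⟨h1, h2, h3⟩ := (hB' _).1 hw
      obtain ⟨u, hu, hu'⟩ := h j
      obtain ⟨τ, c, h4, h5⟩ := hc j
      have e1 : u ≠ (dec (ℕ × List Ins × List ℕ) w).1 := by
        intro e
        exact hu' _ _ ⟨h2, by rw [e]; exact h3⟩
      have e2 : u ≠ 1 - X j := by
        intro e
        exact hu' _ _ ⟨h4, by rw [e]; exact h5⟩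
      have := hX j
      simp only at h1
      omega
  obtain ⟨j, hj⟩ := key
  refine ⟨j + 1, fun J hJ τ c hob => hj τ c ⟨ob2_mono hob fun l hl => List.mem_cons_of_mem _ hl, ?_⟩⟩
  obtain ⟨o, _, h2, _⟩ := hob
  exact sil_of_resp hX h2 (by omega)

/-- candidates: a value and an object -/
abbrev CT : Type := ℕ × (List Ins × List ℕ)

/-- refutations: a position, an argument and two objects -/
abbrev RT : Type := ℕ × ℕ × (List Ins × List ℕ) × (List Ins × List ℕ)

/-- `w` refutes the candidate `a` for the argument `j` -/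
def Ref (X : ℕ → ℕ) (V : List Ent) (t : List ℕ) (L : Lit) (σ : List Ins) (j : ℕ) (a : CT)
    (w : RT) : Prop :=
  ¬ crt (val 0 (tru X) σ) V t L σ j a.1 a.2 ∨
    (w.1 + 1 ≤ a.2.2.length ∧ val 0 (tru X) σ w.1 = none ∧ ¬ a.2.2.getD w.1 0 = 0 ∧
      ∃ x ∈ EE V t, x.b = col w.1 ∧
        (ob2 (vw V x.sl) x.sl L (σ ++ a.2.1) (row w.1) (a.2.2.getD w.1 0 - 1)
          w.2.2.1.1 w.2.2.1.2 ∧ sil 0 w.2.1 0 w.2.2.1.1) ∧
        (ob2 (vw V x.sl) x.sl L (σ ++ a.2.1) (row w.1) (a.2.2.getD w.1 0 - 1)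
          w.2.2.2.1 w.2.2.2.2 ∧ sil 0 w.2.1 1 w.2.2.2.1))

lemma dec_Ref (X : ℕ → ℕ) (V : List Ent) (t : List ℕ) (L : Lit) (σ : List Ins) :
    DecIn ∅ fun p : ℕ × CT × RT => Ref X V t L σ p.1 p.2.1 p.2.2 := by
  have hT : ComputableIn ∅ (val 0 (tru X) σ) := c_table X σ
  have hrow : ComputableIn ∅ fun p : ℕ × CT × RT => row p.2.2.1 := by
    unfold row; fun_prop
  have hcol : ComputableIn ∅ fun p : ℕ × CT × RT => col p.2.2.1 := by
    unfold col; fun_prop
  have hget : ComputableIn ∅ fun p : ℕ × CT × RT => p.2.1.2.2.getD p.2.2.1 0 := by fun_prop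
  have happ : ComputableIn ∅ fun p : ℕ × CT × RT => σ ++ p.2.1.2.1 := by fun_prop
  unfold Ref
  refine DecIn.or (DecIn.not ?_) ((dec_le (by fun_prop) (by fun_prop)).and
    ((DecIn.eq (c_comp hT (by fun_prop)) (c_const _)).and
      ((DecIn.eq hget (c_const _)).not.and (dec_list (fun x => ?_) _))))
  · exact (dec_crt (α := ℕ) (Tb := fun _ => val 0 (tru X) σ) (c_comp hT (by fun_prop))).comp
      (g := fun p : ℕ × CT × RT => (0, (V, t, L, σ), (p.1, p.2.1.1), p.2.1.2)) (by fun_prop)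
  · refine (DecIn.eq (c_const _) hcol).and (DecIn.and (DecIn.and ?_ ?_) (DecIn.and ?_ ?_))
    · exact dec_ob2.comp (g := fun p : ℕ × CT × RT =>
        ((vw V x.sl, x.sl, L, σ ++ p.2.1.2.1), (row p.2.2.1, p.2.1.2.2.getD p.2.2.1 0 - 1),
          p.2.2.2.2.1.1, p.2.2.2.2.1.2))
        (c_pair (c_pair (c_const _) (c_pair (c_const _) (c_pair (c_const _) happ)))
          (c_pair (c_pair hrow (c_sub hget (c_const _))) (by fun_prop)))
    · exact dec_sil.comp (g := fun p : ℕ × CT × RT => (0, p.2.2.2.1, 0, p.2.2.2.2.1.1))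
        (by fun_prop)
    · exact dec_ob2.comp (g := fun p : ℕ × CT × RT =>
        ((vw V x.sl, x.sl, L, σ ++ p.2.1.2.1), (row p.2.2.1, p.2.1.2.2.getD p.2.2.1 0 - 1),
          p.2.2.2.2.2.1, p.2.2.2.2.2.2))
        (c_pair (c_pair (c_const _) (c_pair (c_const _) (c_pair (c_const _) happ)))
          (c_pair (c_pair hrow (c_sub hget (c_const _))) (by fun_prop)))
    · exact dec_sil.comp (g := fun p : ℕ × CT × RT => (0, p.2.2.2.1, 1, p.2.2.2.2.2.1))
        (by fun_prop)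

/-- an unrefuted candidate with the wrong value gives a wrong secured certificate -/
lemma wrong {X : ℕ → ℕ} (hX : ∀ n, X n ≤ 1) (hn : ¬ Computable X) {V : List Ent} {t : List ℕ}
    {L : Lit} {σ : List Ins} {j : ℕ} {a : CT} (h : ∀ w, ¬ Ref X V t L σ j a w)
    (hv : a.1 ≠ X j) : ∃ w, bobj X V t L σ w := by
  have hc : crt (val 0 (tru X) σ) V t L σ j a.1 a.2 := by
    by_contra hc
    exact h default (Or.inl hc)
  have ha : a.1 = 1 - X j := by
    have h1 := hc.1
    have h2 := hX j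
    omega
  have hval : ∀ p, p < a.2.2.length → val 0 (tru X) σ p = none → a.2.2.getD p 0 ≠ 0 →
      ∀ x ∈ EE V t, x.b = col p →
        valid (vw V x.sl) x.sl L (σ ++ a.2.1) (row p) (a.2.2.getD p 0 - 1) := by
    intro p hp h1 h2 x hx h3 j'
    by_contra hcon
    push Not at hcon
    obtain ⟨τ0, c0, h4⟩ := hcon 0 (by omega)
    obtain ⟨τ1, c1, h5⟩ := hcon 1 (by omega)
    exact h (p, j', (τ0, c0), (τ1, c1)) (Or.inr ⟨hp, h1, h2, x, hx, h3, h4, h5⟩)
  have hev : ∀ᶠ J in Filter.atTop, ∀ p ∈ {p | p < a.2.2.length}, ∀ x ∈ {x | x ∈ EE V t},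
      val 0 (tru X) σ p = none → a.2.2.getD p 0 ≠ 0 → x.b = col p →
        sec (vw V x.sl) x.sl ((0, pre X J) :: L) (σ ++ a.2.1) (row p) (a.2.2.getD p 0 - 1) := by
    refine (Filter.eventually_all_finite (Set.finite_lt_nat _)).2 fun p hp => ?_
    refine (Filter.eventually_all_finite (List.finite_toSet _)).2 fun x hx => ?_
    by_cases hh : val 0 (tru X) σ p = none ∧ a.2.2.getD p 0 ≠ 0 ∧ x.b = col p
    · obtain ⟨J0, hJ0⟩ := valid_sec hX hn (hval p hp hh.1 hh.2.1 x hx hh.2.2)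
      exact Filter.eventually_atTop.2 ⟨J0, fun J hJ _ _ _ => hJ0 J hJ⟩
    · exact Filter.Eventually.of_forall fun J h1 h2 h3 => absurd ⟨h1, h2, h3⟩ hh
  obtain ⟨J, hJ⟩ := hev.exists
  refine ⟨(j, J, a.2), ?_, fun p hp h1 h2 x hx h3 => hJ p hp x hx h1 h2 h3⟩
  rw [ha] at hc
  exact hc

/-- a verified object with the right value is not refuted -/
lemma right {X : ℕ → ℕ} (hX : ∀ n, X n ≤ 1) {s : St} (hI : Inv X s)
    (h1 : ∀ x ∈ EE (vw s.S (s.cur ++ [0])) (s.cur ++ [0]),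
      ∀ w, ¬ w1obj X (vw s.S x.sl) x.sl x.L (s.sg.take x.a) w) {j : ℕ}
    {o : List Ins × List ℕ}
    (ho : xobj X (vw s.S (s.cur ++ [0])) (s.cur ++ [0]) (lpL X s.L j) s.sg j o)
    (hv : xval (s.cur ++ [0]) s.sg j o = some (X j)) (w : RT) :
    ¬ Ref X (vw s.S (s.cur ++ [0])) (s.cur ++ [0]) s.L s.sg j (X j, o) w := by
  obtain ⟨⟨hr, hf, hz⟩, hval, _⟩ := ho
  have hrL : resp s.L o.1 := hr.mono fun l hl => List.mem_cons_of_mem _ hl
  have hopen : ∀ p, p < o.2.length → val 0 (tru X) s.sg p = none → o.2.getD p 0 ≠ 0 →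
      ∃ i ∈ o.1, tnz X i = true ∧ i.p = p ∧ i.w = o.2.getD p 0 := by
    intro p hp hn hne
    have h2 := hval p hp
    rw [val_append, hn, Option.none_or] at h2
    obtain ⟨i, hi, e1, e2, e3, e4⟩ := val_some h2
    exact ⟨i, hi, tnz_iff.2 ⟨e1, e3, by rw [e4]; exact hne⟩, e2, e4⟩
  rintro (hc | ⟨hp, hn, hne, x, hx, hb, h0, h1'⟩)
  · refine hc ⟨hX j, hrL, sil_of_resp hX hr (by omega), hf, hv, fun p hp => ⟨fun u hu => ?_,
      fun hn hne => ?_⟩⟩
    · have h2 := hval p hp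
      rw [val_mono (List.prefix_append _ _) hu] at h2
      exact (Option.some.inj h2).symm
    · obtain ⟨i, hi, e1, e2, _⟩ := hopen p hp hn hne
      rw [← e2]
      exact (hz i hi e1).1
  · obtain ⟨i, hi, e1, e2, e3⟩ := hopen w.1 hp hn hne
    obtain ⟨hxV, htag, hxp⟩ := mem_EE.1 hx
    obtain ⟨hxS, hxl⟩ := mem_vw.1 hxV
    have hob : ∃ τ c, ob2 (vw (vw s.S (s.cur ++ [0])) x.sl) x.sl s.L (s.sg ++ o.1) (row w.1)
        (o.2.getD w.1 0 - 1) τ c ∧ sil 0 w.2.1 (X w.2.1) τ := by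
      have := hX w.2.1
      rcases (by omega : X w.2.1 = 0 ∨ X w.2.1 = 1) with e | e
      · exact ⟨_, _, h0.1, by rw [e]; exact h0.2⟩
      · exact ⟨_, _, h1'.1, by rw [e]; exact h1'.2⟩
    obtain ⟨τ2, c, hob, hsil⟩ := hob
    rw [vw_vw hxl.le] at hob
    obtain ⟨k1, k2, k3, k4, k5⟩ := (hI.ent x hxS).wk (Or.inr htag)
    have hcat : s.sg.take x.a ++ (s.sg.drop x.a ++ o.1) = s.sg ++ o.1 := by
      rw [← List.append_assoc, List.take_append_drop]
    refine h1 x hx (s.sg.drop x.a ++ o.1, row w.1, o.2.getD w.1 0 - 1, w.2.1, τ2, c)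
      ⟨⟨resp_append.2 ⟨k3, hrL.mono k2⟩,
        frz_append.2 ⟨k4, hf.mono fun e he => qq_vw_mono hxl.le he⟩, fun i' hi' ht => ?_⟩,
        ?_, ?_, hsil⟩
    · simp only at hi' ⊢
      rw [hcat]
      rcases List.mem_append.1 hi' with hi' | hi'
      · refine ⟨k5 i' hi' ht, fun y hy hyb => ?_⟩
        obtain ⟨hyV, hytag, hyp⟩ := mem_EE.1 hy
        obtain ⟨hyS, hyl⟩ := mem_vw.1 hyV
        have hyc : y.sl <+: s.cur := by
          rcases pre_snoc.1 (hyp.trans hxp) with h | h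
          · exact h
          · rw [h] at hyl
            exact absurd (hyl.trans hxl) (lt_irrefl _)
        exact zd_mono (List.prefix_append _ _)
          (hI.cln y hyS hytag hyc i' (List.mem_of_mem_drop hi') ht hyb.symm)
      · refine ⟨fun hd => (hz i' hi' ht).1 (NB_mono hxl.le hd), fun y hy hyb => ?_⟩
        obtain ⟨hyV, hytag, hyp⟩ := mem_EE.1 hy
        obtain ⟨hyS, hyl⟩ := mem_vw.1 hyV
        exact (hz i' hi' ht).2 y
          (mem_EE.2 ⟨mem_vw.2 ⟨hyS, hyl.trans hxl⟩, hytag, hyp.trans hxp⟩) hyb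
    · simp only
      rw [hcat, ← e3, ← e2]
      exact (hz i hi e1).2 x hx (by rw [e2]; exact hb)
    · simp only
      rw [hcat]
      exact ob2_mono hob k2

end Loop

open Loop in
theorem loopS (h : LemC) : LoopS := by
  intro X s hX hK hI h1 h2 h3
  by_cases hn : Computable X
  · exact cedeg_of_computable hn
  have hXc : ComputableIn (orc X) X := Red.refl X
  have hd : DecIn (orc X) fun p : ℕ × (List Ins × List ℕ) =>
      xobj X (vw s.S (s.cur ++ [0])) (s.cur ++ [0]) (lpL X s.L p.1) s.sg p.1 p.2 ∧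
        xval (s.cur ++ [0]) s.sg p.1 p.2 = some (X p.1) := by
    have hp : ComputableIn (orc X) fun p : ℕ × (List Ins × List ℕ) => pre X (p.1 + 1) :=
      c_pre (f := fun _ n => X n) (c_comp hXc (by fun_prop)) (by fun_prop)
    have hl : ComputableIn (orc X) fun p : ℕ × (List Ins × List ℕ) => lpL X s.L p.1 :=
      c_cons (c_pair (c_const _) hp) (c_const _)
    refine DecIn.and ?_ (DecIn.eq ?_ (c_some (c_comp hXc (by fun_prop))))
    · exact (dec_xobj hXc).comp (g := fun p : ℕ × (List Ins × List ℕ) =>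
        ((vw s.S (s.cur ++ [0]), s.cur ++ [0], lpL X s.L p.1, s.sg), p.1, p.2))
        (c_pair (c_pair (c_const _) (c_pair (c_const _) (c_pair hl (c_const _)))) (by fun_prop))
    · unfold xval cd enc
      fun_prop
  obtain ⟨B, hB, hB'⟩ := hd
  have hdec : ComputableIn (orc X) fun p : ℕ × ℕ => dec (List Ins × List ℕ) p.2 :=
    c_dec' (by fun_prop)
  have hex : ∀ j, ∃ n, B (j, dec (List Ins × List ℕ) n) = true := by
    intro j
    obtain ⟨w, hw⟩ := h3 j
    exact ⟨Encodable.encode w, by rw [dec_encode]; exact (hB' (j, w)).2 hw⟩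
  have hfind := c_find (p := fun j n => B (j, dec (List Ins × List ℕ) n))
    (c_comp hB (c_pair (by fun_prop) hdec)) hex
  obtain ⟨R, hR, hR'⟩ := dec_Ref X (vw s.S (s.cur ++ [0])) (s.cur ++ [0]) s.L s.sg
  refine h CT X hK (fun j => (X j, dec (List Ins × List ℕ) (Nat.find (hex j)))) (fun a => a.1)
    (fun j a n => R (j, a, dec RT n)) (c_pair hXc (c_dec' hfind)) (toC (by fun_prop))
    (toC (c_comp hR (c_pair (by fun_prop) (c_pair (by fun_prop) (c_dec' (by fun_prop))))))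
    (fun j n => ?_) fun j a ha => ?_
  · obtain ⟨k1, k2⟩ := (hB' _).1 (Nat.find_spec (hex j))
    rw [Bool.eq_false_iff]
    intro hr
    exact right hX hI h1 k1 k2 _ ((hR' _).1 hr)
  · by_contra hv
    obtain ⟨w, hw⟩ := wrong hX hn (V := vw s.S (s.cur ++ [0])) (t := s.cur ++ [0]) (L := s.L)
      (σ := s.sg) (j := j) (a := a) (fun w hw => by
        have := ha (Encodable.encode w)
        rw [dec_encode, (hR' (j, a, w)).2 hw] at this
        exact absurd this (by simp)) hv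
    exact h2 w hw

end Pool.Agent.MP_68d28f_lc.CE.T4
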