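import Pool.Agent.MP_68d28f_lc.ce.t4.Bas
import Pool.Agent.MP_68d28f_lc.ce.t4.Cmp1

/-! Block T4: the searches are eventually within the bound, and the limits of a run. -/

namespace Pool.Agent.MP_68d28f_lc.CE.T4

open Pool.Agent.MP_b427ce_lc

namespace Low

section cmp
variable {α : Type} [Primcodable α] {O : Set (ℕ →. ℕ)}

lemma st_eqv : Primrec St.eqv := Primrec.of_equiv
lemma ent_eqv : Primrec Ent.eqv := Primrec.of_equiv
lemma ins_eqv : Primrec Ins.eqv := Primrec.of_equiv

lemma l_sg {f : α → St} (hf : ComputableIn O f) : ComputableIn O fun a => (f a).sg :=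
  c_fst (c_prim st_eqv hf)
lemma l_L {f : α → St} (hf : ComputableIn O f) : ComputableIn O fun a => (f a).L :=
  c_fst (c_snd (c_prim st_eqv hf))
lemma l_S {f : α → St} (hf : ComputableIn O f) : ComputableIn O fun a => (f a).S :=
  c_fst (c_snd (c_snd (c_prim st_eqv hf)))
lemma l_cur {f : α → St} (hf : ComputableIn O f) : ComputableIn O fun a => (f a).cur :=
  c_fst (c_snd (c_snd (c_snd (c_prim st_eqv hf))))
lemma l_j {f : α → St} (hf : ComputableIn O f) : ComputableIn O fun a => (f a).j :=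
  c_fst (c_snd (c_snd (c_snd (c_snd (c_prim st_eqv hf)))))
lemma l_stg {f : α → St} (hf : ComputableIn O f) : ComputableIn O fun a => (f a).stg :=
  c_snd (c_snd (c_snd (c_snd (c_snd (c_prim st_eqv hf)))))
lemma l_sl {f : α → Ent} (hf : ComputableIn O f) : ComputableIn O fun a => (f a).sl :=
  c_fst (c_prim ent_eqv hf)
lemma l_c {f : α → Ins} (hf : ComputableIn O f) : ComputableIn O fun a => (f a).c :=
  c_fst (c_prim ins_eqv hf)
lemma l_z {f : α → Ins} (hf : ComputableIn O f) : ComputableIn O fun a => (f a).z :=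
  c_fst (c_snd (c_prim ins_eqv hf))
lemma l_p {f : α → Ins} (hf : ComputableIn O f) : ComputableIn O fun a => (f a).p :=
  c_fst (c_snd (c_snd (c_prim ins_eqv hf)))
lemma l_w {f : α → Ins} (hf : ComputableIn O f) : ComputableIn O fun a => (f a).w :=
  c_snd (c_snd (c_snd (c_prim ins_eqv hf)))

lemma l_dec (T : Type) [Primcodable T] [Inhabited T] {f : α → ℕ} (hf : ComputableIn O f) :
    ComputableIn O fun a => dec T (f a) :=
  c_optGetD (c_decode hf) (c_const _)

lemma l_vw {f : α → List Ent} (hf : ComputableIn O f) (t : List ℕ) :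
    ComputableIn O fun a => vw (f a) t :=
  c_filter (g := fun _ (x : Ent) => ltB x.sl t) hf (c_ltB (l_sl (c_snd c_id)) (c_const _))

lemma l_get {f : α → List Ent} (hf : ComputableIn O f) (t : List ℕ) :
    ComputableIn O fun a => get (f a) t :=
  c_find? (g := fun _ (x : Ent) => eqB x.sl t) hf (c_eqB (l_sl (c_snd c_id)) (c_const _))

lemma l_pre {β : Type} [Primcodable β] {z : ℕ → β} (hz : ComputableIn O z) {g : α → ℕ}
    (hg : ComputableIn O g) : ComputableIn O fun a => pre z (g a) :=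
  c_pre (f := fun _ => z) (c_comp hz (c_snd c_id)) hg

lemma l_lpL {X : ℕ → ℕ} (hX : ComputableIn O X) {f : α → Lit} {g : α → ℕ}
    (hf : ComputableIn O f) (hg : ComputableIn O g) :
    ComputableIn O fun a => lpL X (f a) (g a) :=
  c_cons (c_pair (c_const 0) (l_pre hX (c_add hg (c_const 1)))) hf

lemma l_tru {z : ℕ → ℕ} (hz : ComputableIn O z) {f : α → List ℕ} (hf : ComputableIn O f) :
    ComputableIn O fun a => tru z (f a) :=
  c_eqB hf (l_pre hz (c_length hf))

lemma l_val (c : ℕ) {z : ℕ → ℕ} (hz : ComputableIn O z) {f : α → List Ins} {g : α → ℕ}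
    (hf : ComputableIn O f) (hg : ComputableIn O g) :
    ComputableIn O fun a => val c (tru z) (f a) (g a) :=
  c_optMap (g := fun _ (i : Ins) => i.w)
    (c_find? (g := fun a (i : Ins) => eqB i.c c && eqB i.p (g a) && tru z i.z) hf
      (c_and (c_and (c_eqB (l_c (c_snd c_id)) (c_const _))
        (c_eqB (l_p (c_snd c_id)) (c_comp hg (c_fst c_id)))) (l_tru hz (l_z (c_snd c_id)))))
    (l_w (c_snd c_id))

lemma dec_form (δ t : List ℕ) :
    DecIn O fun s : St => s.cur = δ ∧ δ.length < s.stg ∧ get s.S t = none := by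
  refine ⟨fun s => eqB s.cur δ && (leB (δ.length + 1) s.stg && (get s.S t).isNone),
    c_and (c_eqB (l_cur c_id) (c_const _))
      (c_and (c_leB (c_const _) (l_stg c_id)) (c_isNone (l_get (l_S c_id) t))), fun s => ?_⟩
  simp only [Bool.and_eq_true, eqB_iff, leB_iff, Option.isNone_iff_eq_none, Nat.succ_le_iff]

end cmp

variable {X : ℕ → ℕ} {st : ℕ → St} {b : ℕ → ℕ}

/-- a search that succeeds at all late states of a decidable form is eventually within the
bound -/
lemma low_gen {T : Type} [Primcodable T] [Inhabited T] (h : Run X st b) {Q : St → Prop}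
    {P : St → T → Prop} (hQ : DecIn (orc X) Q)
    (hP : DecIn (orc X) fun p : St × T => P p.1 p.2) (i0 : ℕ)
    (hex : ∀ i, i0 ≤ i → Q (st i) → ∃ w, P (st i) w) :
    ∃ i1, ∀ i, i1 ≤ i → Q (st i) → Fnd (b i) (P (st i)) := by
  obtain ⟨BQ, hBQ, eQ⟩ := hQ
  obtain ⟨BP, hBP, eP⟩ := hP
  obtain ⟨i1, h1⟩ := h.low (fun s w => !BQ s || BP (s, dec T w))
    (c_or (c_not (c_comp hBQ (c_fst c_id)))
      (c_comp hBP (c_pair (c_fst c_id) (l_dec T (c_snd c_id))))) i0 (fun i hi => by
      by_cases hq : Q (st i)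
      · obtain ⟨w, hw⟩ := hex i hi hq
        refine ⟨Encodable.encode w, ?_⟩
        rw [dec_encode, (eP (st i, w)).2 hw, Bool.or_true]
      · refine ⟨0, ?_⟩
        have : BQ (st i) = false := by
          cases e : BQ (st i)
          · rfl
          · exact absurd ((eQ _).1 e) hq
        rw [this]; rfl)
  refine ⟨i1, fun i hi hq => ?_⟩
  obtain ⟨w, hw, hW⟩ := h1 i hi
  rw [(eQ _).2 hq] at hW
  exact ⟨w, hw, (eP (st i, dec T w)).1 (by simpa using hW)⟩

lemma long (h : Good X st b) (n : ℕ) : ∃ i, n < (st i).sg.length := by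
  obtain ⟨i, -, -, hi⟩ := h.ends n
  exact ⟨i, hi.trans_le (h.inv i).len⟩

/-- the limit of the strings of instructions -/
lemma exists_G (h : Good X st b) :
    ∃ G : ℕ → Ins, ∀ i n, n < (st i).sg.length → (st i).sg.getD n default = G n := by
  choose t ht using long h
  refine ⟨fun n => (st (t n)).sg.getD n default, fun i n hn => ?_⟩
  exact (getD_of_isPrefix (h.mono i _ (le_max_left i (t n))).1 hn default).symm.trans
    (getD_of_isPrefix (h.mono (t n) _ (le_max_right i (t n))).1 (ht n) default)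

/-- a table that is written everywhere is computable from the condition and the limit -/
lemma exists_tab (h : Good X st b) {G : ℕ → Ins}
    (hG : ∀ i, (st i).sg = pre G (st i).sg.length) (c : ℕ) (z : ℕ → ℕ)
    (hz : ∀ p, ∃ i, (val c (tru z) (st i).sg p).isSome = true) :
    ∃ C : ℕ → ℕ, Red C (jn z (gG G)) ∧
      ∀ i p w, val c (tru z) (st i).sg p = some w → C p = w := by
  choose t ht using hz
  have key : ∀ i p w, val c (tru z) (st i).sg p = some w →
      (val c (tru z) (st (t p)).sg p).getD 0 = w := by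
    intro i p w hw
    obtain ⟨u, hu⟩ := Option.isSome_iff_exists.1 (ht p)
    have h1 := val_mono (h.mono i _ (le_max_left i (t p))).1 hw
    have h2 := val_mono (h.mono (t p) _ (le_max_right i (t p))).1 hu
    rw [hu, Option.getD_some]
    exact Option.some.inj (h2.symm.trans h1)
  refine ⟨fun p => (val c (tru z) (st (t p)).sg p).getD 0, ?_, key⟩
  have hGc : ComputableIn (orc (jn z (gG G))) G :=
    cin_of_eq (l_dec Ins (red_jn_right z (gG G))) fun n => dec_encode (G n)
  have hv : ComputableIn (orc (jn z (gG G)))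
      fun q : ℕ × ℕ => val c (tru z) (pre G q.2) q.1 :=
    l_val c (red_jn_left z (gG G)) (l_pre hGc (c_snd c_id)) (c_fst c_id)
  refine c_search (P := fun p m => (val c (tru z) (pre G m) p).isSome)
    (v := fun p m => (val c (tru z) (pre G m) p).getD 0) (c_isSome hv)
    (c_optGetD hv (c_const 0)) (fun p => ⟨(st (t p)).sg.length, ?_⟩) fun p m hm => ?_
  · rw [← hG]; exact ht p
  · obtain ⟨u, hu⟩ := Option.isSome_iff_exists.1 hm
    obtain ⟨i, hi⟩ := long h m
    have hp : pre G m <+: (st i).sg := by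
      rw [hG i]; exact pre_isPrefix G hi.le
    rw [key i p u (val_mono hp hu), hu, Option.getD_some]

end Low

open Low

theorem lowS : LowS := by
  intro X st b h
  have hX : ComputableIn (orc X) X := Red.refl X
  constructor
  · intro δ i0 hex
    obtain ⟨i1, h1⟩ := low_gen h (dec_form δ (δ ++ [0]))
      (P := fun s w => xobj X (vw s.S (δ ++ [0])) (δ ++ [0]) (lpL X s.L s.j) s.sg s.j w)
      ((dec_xobj hX).comp (g := fun p : St × (List Ins × List ℕ) =>
        ((vw p.1.S (δ ++ [0]), δ ++ [0], lpL X p.1.L p.1.j, p.1.sg), p.1.j, p.2))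
        (c_pair (c_pair (l_vw (l_S (c_fst c_id)) _) (c_pair (c_const _)
          (c_pair (l_lpL hX (l_L (c_fst c_id)) (l_j (c_fst c_id))) (l_sg (c_fst c_id)))))
          (c_pair (l_j (c_fst c_id)) (c_snd c_id)))) i0
      fun i hi hq => hex i hi hq.1 hq.2.1 hq.2.2
    exact ⟨i1, fun i hi a1 a2 a3 => h1 i hi ⟨a1, a2, a3⟩⟩
  · intro γ i0 hex
    obtain ⟨i1, h1⟩ := low_gen h (dec_form γ (γ ++ [2]))
      (P := fun s w => w1obj X (vw s.S (γ ++ [2])) (γ ++ [2]) s.L s.sg w)
      ((dec_w1obj hX).comp (g := fun p : St × W1T =>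
        ((vw p.1.S (γ ++ [2]), γ ++ [2], p.1.L, p.1.sg), p.2))
        (c_pair (c_pair (l_vw (l_S (c_fst c_id)) _) (c_pair (c_const _)
          (c_pair (l_L (c_fst c_id)) (l_sg (c_fst c_id))))) (c_snd c_id))) i0
      fun i hi hq => hex i hi hq.1 hq.2.1 hq.2.2
    exact ⟨i1, fun i hi a1 a2 a3 => h1 i hi ⟨a1, a2, a3⟩⟩

theorem limS : LimS := by
  intro X st b h hst
  obtain ⟨G, hG⟩ := exists_G h
  have hg : ∀ i, (st i).sg = pre G (st i).sg.length := fun i => eq_pre_of rfl (hG i)
  obtain ⟨A, hA, hA'⟩ := exists_tab h hg 0 X fun p => by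
    obtain ⟨i, -, -, hi⟩ := h.ends p
    exact ⟨i, (h.inv i).hk p hi⟩
  refine ⟨G, A, ⟨hg, hA'⟩, ?_, hA, fun e z hz => exists_tab h hg (e + 1) z hz⟩
  have hs : ComputableIn (orc KK) fun q : ℕ × ℕ => (st q.2).sg :=
    l_sg (c_comp hst (c_snd c_id))
  refine c_search (P := fun n i => leB (n + 1) (st i).sg.length)
    (v := fun n i => enc ((st i).sg.getD n default))
    (c_leB (c_add (c_fst c_id) (c_const 1)) (c_length hs))
    (c_encode (c_getD hs (c_fst c_id) (c_const _))) (fun n => ?_) fun n i hi => ?_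
  · obtain ⟨i, hi⟩ := long h n
    exact ⟨i, leB_iff.2 hi⟩
  · rw [hG i n (leB_iff.1 hi)]; rfl

end Pool.Agent.MP_68d28f_lc.CE.T4
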