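import Pool.Agent.MP_68d28f_lc.ce.t4.Bas

/-! Block T4: an M-node on the true path. -/

namespace Pool.Agent.MP_68d28f_lc.CE.T4

open Pool.Agent.MP_b427ce_lc

namespace TpMF

variable {X : ℕ → ℕ} {st : ℕ → St} {b : ℕ → ℕ} {G : ℕ → Ins} {A : ℕ → ℕ}

lemma stg_big (h : Good X st b) (N : ℕ) : ∃ i1, ∀ i, i1 ≤ i → N ≤ (st i).stg := by
  obtain ⟨i', -, -, h2⟩ := h.ends N
  exact ⟨i', fun i hi => h2.le.trans (h.mono _ _ hi).2.2⟩

lemma zd_eq (hL : Lim X st G A) {e : ℕ} {z : ℕ → ℕ} (hz : Cmp e (jn X (gG G)) z) {i n v : ℕ}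
    (hv : zd X e (st i).sg n = some v) : v = z n := by
  rw [hL.g i, zd_pre] at hv
  exact hz.eq hv

lemma zdet_late (h : Good X st b) (hL : Lim X st G A) {e : ℕ} {z : ℕ → ℕ}
    (hz : Cmp e (jn X (gG G)) z) (R : ℕ) : ∃ i1, ∀ i, i1 ≤ i → zdet X e (st i).sg R := by
  choose N hN using hz.ev_ge
  obtain ⟨i1, h1⟩ := stg_big h ((Finset.range R).sup N)
  refine ⟨i1, fun i hi n hn => ?_⟩
  rw [hL.g i, zd_pre, hN n _ ?_]
  · rfl
  · exact (Finset.le_sup (f := N) (Finset.mem_range.2 hn)).trans ((h1 i hi).trans (h.inv i).len)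

lemma not_total (h : Good X st b) (hL : Lim X st G A) {e i1 : ℕ} {F : ℕ → ℕ}
    (hF : ∀ i, i1 ≤ i → F (i + 1) ≤ F i)
    (hn : ∀ i, ∃ i', i ≤ i' ∧ ¬ zdet X e (st i').sg (F i')) (z : ℕ → ℕ) :
    ¬ Cmp e (jn X (gG G)) z := by
  intro hz
  have hb : ∀ i, i1 ≤ i → F i ≤ F i1 := by
    intro i hi
    induction i, hi using Nat.le_induction with
    | base => exact le_rfl
    | succ i hi ih => exact (hF i hi).trans ih
  obtain ⟨i2, h2⟩ := zdet_late h hL hz (F i1)
  obtain ⟨i, hi, hd⟩ := hn (max i1 i2)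
  exact hd fun n hn => h2 i ((le_max_right _ _).trans hi) n
    (hn.trans_le (hb i ((le_max_left _ _).trans hi)))

lemma step3 {s s' : St} {c : ℕ} {o : Ent} (hs : Stp X s c s') (hM : AtM s) (hP : ¬ Pass s)
    (ho : own (vw s.S (s.cur ++ [2])) (s.cur ++ [2]) = some o) (ht : o.tag = 3)
    (hm : o ∈ s'.S) :
    s'.cur = s.cur ++ [3] ∧ ¬ zdet X (eS o.sl) s.sg (Lz (eS o.sl) s.sg s.L) := by
  have hN : ¬ AtN s := fun h => by have := h.2; have := hM.2; omega
  cases hs with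
  | cap h => have := hM.1; omega
  | nRef x h => exact (hN h).elim
  | nMov x h => exact (hN h).elim
  | nAb h => exact (hN h).elim
  | nW1 w h => exact (hN h).elim
  | nLoop w h => exact (hN h).elim
  | nWx w h => exact (hN h).elim
  | nCert h => exact (hN h).elim
  | mPass _ h => exact (hP h).elim
  | mNew _ _ h => rw [h] at ho; cases ho
  | mFill o' _ _ h =>
    rw [h] at ho
    cases ho
    rcases List.mem_append.1 hm with h1 | h1
    · exact (lt_irrefl _ (mem_vw.1 h1).2).elim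
    · rw [List.mem_singleton.1 h1] at ht
      cases ht
  | mWait o' _ _ h _ hd =>
    rw [h] at ho
    cases ho
    exact ⟨rfl, hd⟩
  | mW1 o' w y _ _ h h4 => rw [h] at ho; cases ho; omega
  | mCert o' _ _ h h4 => rw [h] at ho; cases ho; omega
  | mRef o' x _ _ h h4 => rw [h] at ho; cases ho; omega
  | mFin o' x _ _ h h4 => rw [h] at ho; cases ho; omega
  | mW2 o' x i _ _ h h4 => rw [h] at ho; cases ho; omega
  | mCod o' x _ _ h h4 => rw [h] at ho; cases ho; omega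

lemma step4 {s s' : St} {c : ℕ} {o x : Ent} (hI : Inv X s) (hs : Stp X s c s') (hM : AtM s)
    (hP : ¬ Pass s) (ho : own (vw s.S (s.cur ++ [2])) (s.cur ++ [2]) = some o) (ht : o.tag = 4)
    (hx : get s.S (s.cur ++ [2]) = some x) (hm : x ∈ s'.S) :
    (s'.cur = s.cur ++ [3] ∧ ¬ zdet X (eS x.sl) s.sg (RR X x.b s.sg)) ∨
      (s'.cur = s.cur ++ [2] ∧ s'.sg = s.sg ++ cod X (eS x.sl) x.b s.sg s.L) := by
  have hN : ¬ AtN s := fun h => by have := h.2; have := hM.2; omega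
  cases hs with
  | cap h => have := hM.1; omega
  | nRef x h => exact (hN h).elim
  | nMov x h => exact (hN h).elim
  | nAb h => exact (hN h).elim
  | nW1 w h => exact (hN h).elim
  | nLoop w h => exact (hN h).elim
  | nWx w h => exact (hN h).elim
  | nCert h => exact (hN h).elim
  | mPass _ h => exact (hP h).elim
  | mNew _ _ h => rw [h] at ho; cases ho
  | mFill o' _ _ h h3 => rw [h] at ho; cases ho; omega
  | mWait o' _ _ h h3 => rw [h] at ho; cases ho; omega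
  | mW1 o' w y _ _ _ _ h => rw [h] at hx; cases hx
  | mCert o' _ _ _ _ h => rw [h] at hx; cases hx
  | mRef o' x' =>
    have h1 := (mem_vw.1 hm).2
    rw [(get_some hx).2] at h1
    exact (lt_irrefl _ h1).elim
  | mFin o' x' _ _ _ _ h _ hd =>
    rw [h] at hx
    cases hx
    exact Or.inl ⟨rfl, hd⟩
  | mW2 o' x' i _ _ h =>
    rw [h] at ho
    cases ho
    obtain ⟨hoV, hoo, -⟩ := own_some h
    obtain ⟨hoS, hol⟩ := mem_vw.1 hoV
    obtain ⟨α, -, hα⟩ := (hI.shp o hoS).own hoo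
    obtain ⟨hxS, hxl⟩ := get_some hx
    rcases List.mem_append.1 hm with h1 | h1
    · have h2 := (mem_vw.1 h1).2
      rw [hα] at hol
      rw [hα, wonS_snoc, hxl] at h2
      exact (lt_irrefl _ ((h2.trans (snoc_lt_snoc.2 Nat.one_pos)).trans hol)).elim
    · have h2 := (hI.shp x hxS).tagM hxl hM.2
      have h3 : x.tag = 2 := by rw [List.mem_singleton.1 h1]; rfl
      omega
  | mCod o' x' _ _ _ _ h =>
    rw [h] at hx
    cases hx
    exact Or.inr ⟨rfl, rfl⟩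

lemma one_le_RR (d : ℕ) (σ : List Ins) : 1 ≤ RR X d σ := Nat.le_add_left _ _

lemma cod_val {e d n : ℕ} {σ : List Ins} {L : Lit} (hn : n < RR X d σ) :
    ∃ w, w ≠ 0 ∧ val 0 (tru X) (σ ++ cod X e d σ L) (mkp d n (big σ)) = some w := by
  have hi : (⟨0, pre X (JJ L), mkp d n (big σ), (zd X e σ n).getD 0 + 1⟩ : Ins) ∈
      σ ++ cod X e d σ L := List.mem_append_right _ (mem_cod.2 ⟨n, hn, rfl⟩)
  obtain ⟨w, hw⟩ := Option.isSome_iff_exists.1 (val_isSome (T := tru X) hi (tru_pre X _))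
  refine ⟨w, ?_, hw⟩
  obtain ⟨i, hi1, -, hi2, -, hi3⟩ := val_some hw
  rcases List.mem_append.1 hi1 with h1 | h1
  · have h2 := lt_big h1
    have h3 := le_mkp d n (big σ)
    have h4 : i.p = mkp d n (big σ) := hi2
    omega
  · obtain ⟨m, -, rfl⟩ := mem_cod.1 h1
    rw [← hi3]
    exact Nat.succ_ne_zero _

lemma cod_RR {e d : ℕ} {σ : List Ins} {L : Lit} :
    RR X d σ < RR X d (σ ++ cod X e d σ L) := by
  have h1 := one_le_RR (X := X) d σ
  have hi : (⟨0, pre X (JJ L), mkp d (RR X d σ - 1) (big σ),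
      (zd X e σ (RR X d σ - 1)).getD 0 + 1⟩ : Ins) ∈ σ ++ cod X e d σ L :=
    List.mem_append_right _ (mem_cod.2 ⟨_, by omega, rfl⟩)
  have h2 := row_lt_RR (X := X) (d := d) hi
    (tnz_iff.2 ⟨rfl, tru_pre X _, Nat.succ_ne_zero _⟩) (col_mkp _ _ _)
  have h3 : row (mkp d (RR X d σ - 1) (big σ)) + 1 < RR X d (σ ++ cod X e d σ L) := h2
  rw [row_mkp] at h3
  omega

lemma red_of_cod (h : Good X st b) (hL : Lim X st G A) {x : Ent} (hx : x.tag = 5)
    (hc : ∀ i, ∃ i', i ≤ i' ∧ x ∈ (st (i' + 1)).S ∧ (st (i' + 1)).cur = x.sl ∧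
      (st (i' + 1)).sg = (st i').sg ++ cod X (eS x.sl) x.b (st i').sg (st i').L)
    {z : ℕ → ℕ} (hz : Cmp (eS x.sl) (jn X (gG G)) z) : Red z A := by
  have hR : ∀ n, ∃ i1, ∀ i, i1 ≤ i → n < RR X x.b (st i).sg := by
    intro n
    induction n with
    | zero => exact ⟨0, fun i _ => one_le_RR _ _⟩
    | succ n ih =>
      obtain ⟨i1, h1⟩ := ih
      obtain ⟨i2, hi2, -, -, h2⟩ := hc i1
      refine ⟨i2 + 1, fun i hi => ?_⟩
      have h3 := h1 i2 hi2
      have h4 := cod_RR (X := X) (e := eS x.sl) (d := x.b) (σ := (st i2).sg) (L := (st i2).L)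
      rw [← h2] at h4
      have h5 : RR X x.b (st (i2 + 1)).sg ≤ RR X x.b (st i).sg :=
        RR_le fun j hj _ _ => (h.mono _ _ hi).1.subset hj
      omega
  have hA := Red.refl A
  unfold Red at hA ⊢
  refine c_search (P := fun n m => !eqB (A (Nat.pair x.b (Nat.pair n m))) 0)
    (v := fun n m => A (Nat.pair x.b (Nat.pair n m)) - 1) (by fun_prop) (by fun_prop)
    (fun n => ?_) fun n m hm => ?_
  · obtain ⟨i1, h1⟩ := hR n
    obtain ⟨i, hi, -, -, h2⟩ := hc i1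
    obtain ⟨w, hw0, hw⟩ := cod_val (e := eS x.sl) (L := (st i).L) (h1 i hi)
    rw [← h2] at hw
    have h3 : A (Nat.pair x.b (Nat.pair n (big (st i).sg))) = w := hL.a _ _ _ hw
    exact ⟨big (st i).sg, by simp [h3, hw0]⟩
  · have hne : A (mkp x.b n m) ≠ 0 := by simpa [mkp] using hm
    obtain ⟨i1, h1⟩ := stg_big h (mkp x.b n m + 1)
    obtain ⟨i, hi, hxS, hcur, -⟩ := hc i1
    obtain ⟨w, hw⟩ := Option.isSome_iff_exists.1
      ((h.inv (i + 1)).hk (mkp x.b n m) (h1 (i + 1) (by omega)))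
    have hAw := hL.a _ _ _ hw
    obtain ⟨j, hj, hj0, hjp, hjt, hjw⟩ := val_some hw
    have h2 := (h.inv (i + 1)).cln x hxS hx (by rw [hcur]) j hj
      (tnz_iff.2 ⟨hj0, hjt, by rw [hjw, ← hAw]; exact hne⟩) (by rw [hjp, col_mkp])
    have h3 := zd_eq hL hz h2
    rw [hjp, row_mkp, hjw, ← hAw] at h3
    exact h3

end TpMF

open TpMF in
theorem tpM (h0 : TpM0) (h1 : TpM1) (h2 : TpM2) (h3 : TpM3) : TpM := by
  intro X st b G A γ h hL hT hγ
  by_cases hc : triv γ ∨ ∀ i, ∃ i', i ≤ i' ∧ (get (st i').S (γ ++ [0])).isSome = true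
  · obtain ⟨ha, hb⟩ := h0 X st b G A γ h hL hT hγ hc
    exact ⟨0, ha, Or.inl ⟨rfl, hb⟩⟩
  have hnt : ¬ triv γ := fun ht => hc (Or.inl ht)
  obtain ⟨i0, hi0⟩ : ∃ i0, ∀ i, i0 ≤ i → get (st i).S (γ ++ [0]) = none := by
    by_contra hcon
    refine hc (Or.inr fun i => ?_)
    by_contra hcon2
    refine hcon ⟨i, fun i' hi' => ?_⟩
    cases hg : get (st i').S (γ ++ [0]) with
    | none => rfl
    | some y => exact (hcon2 ⟨i', hi', by rw [hg]; rfl⟩).elim
  obtain ⟨i1', V, o, ho, hV'⟩ := h1 X st b γ i0 h hT hγ hnt hi0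
  obtain ⟨i1, hV⟩ : ∃ i1, ∀ i, i1 ≤ i → get (st i).S (γ ++ [0]) = none ∧
      ¬ left (st i).cur (γ ++ [2]) ∧ vw (st i).S (γ ++ [2]) = V :=
    ⟨max i0 i1', fun i hi => ⟨hi0 i ((le_max_left _ _).trans hi),
      hV' i ((le_max_right _ _).trans hi)⟩⟩
  obtain ⟨hoV, hoo, hoe⟩ := own_some ho
  have hoS : ∀ i, i1 ≤ i → o ∈ (st i).S := fun i hi => by
    rw [← (hV i hi).2.2] at hoV
    exact (mem_vw.1 hoV).1
  have hvis : ∀ i, i1 ≤ i → (st i).cur = γ → γ.length < (st i).stg →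
      AtM (st i) ∧ ¬ Pass (st i) ∧
        own (vw (st i).S ((st i).cur ++ [2])) ((st i).cur ++ [2]) = some o := by
    intro i hi hcur hlt
    refine ⟨⟨by rw [hcur]; exact hlt, by rw [hcur]; exact hγ⟩, ?_, ?_⟩
    · rintro (hp | hp)
      · exact hnt (hcur ▸ hp)
      · rw [hcur, (hV i hi).1] at hp
        cases hp
    · rw [hcur, (hV i hi).2.2]
      exact ho
  rcases isOwn_iff.1 hoo with ht | ht
  · have key : ∀ i, i1 ≤ i → (st i).cur = γ → γ.length < (st i).stg →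
        (st (i + 1)).cur = γ ++ [3] ∧
          ¬ zdet X (eS o.sl) (st i).sg (Lz (eS o.sl) (st i).sg (st i).L) := by
      intro i hi hcur hlt
      obtain ⟨ha, hb, hd⟩ := hvis i hi hcur hlt
      have := step3 (h.run.stp i) ha hb hd ht (hoS (i + 1) (by omega))
      rwa [hcur] at this
    refine ⟨3, (h3 X st b γ i1 V h hT hγ fun i hi =>
      ⟨(hV i hi).2.1, (hV i hi).2.2, fun ha hb => (key i hi ha hb).1⟩).1,
      Or.inr ⟨by omega, fun z hz => ?_⟩⟩
    rw [← eS_snoc γ 2, ← hoe] at hz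
    refine (not_total h hL (i1 := i1) (F := fun i => Lz (eS o.sl) (st i).sg (st i).L)
      (fun i hi => h.frozen i o (hoS i hi) (hoS (i + 1) (by omega)) hoo) (fun i => ?_) z hz).elim
    obtain ⟨i', hi', ha, hb⟩ := hT.1 (max i i1)
    exact ⟨i', (le_max_left _ _).trans hi', (key i' ((le_max_right _ _).trans hi') ha hb).2⟩
  · obtain ⟨i2', x, hx'⟩ := h2 X st b γ i1 V o h hT hγ hnt hV ho ht
    obtain ⟨i2, hi2, hx⟩ : ∃ i2, i1 ≤ i2 ∧ ∀ i, i2 ≤ i → get (st i).S (γ ++ [2]) = some x :=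
      ⟨max i1 i2', le_max_left _ _, fun i hi => hx' i ((le_max_right _ _).trans hi)⟩
    have hxl : x.sl = γ ++ [2] := (get_some (hx i2 le_rfl)).2
    have hxS : ∀ i, i2 ≤ i → x ∈ (st i).S := fun i hi => (get_some (hx i hi)).1
    have hx5 : x.tag = 5 := by
      have := ((h.inv i2).shp x (hxS i2 le_rfl)).tagM hxl hγ
      omega
    have hxe : eN γ.length = eS x.sl := by rw [hxl, eS_snoc]
    have key : ∀ i, i2 ≤ i → (st i).cur = γ → γ.length < (st i).stg →
        ((st (i + 1)).cur = γ ++ [3] ∧ ¬ zdet X (eS x.sl) (st i).sg (RR X x.b (st i).sg)) ∨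
        ((st (i + 1)).cur = γ ++ [2] ∧
          (st (i + 1)).sg = (st i).sg ++ cod X (eS x.sl) x.b (st i).sg (st i).L) := by
      intro i hi hcur hlt
      obtain ⟨ha, hb, hd⟩ := hvis i (hi2.trans hi) hcur hlt
      have := step4 (h.inv i) (h.run.stp i) ha hb hd ht (by rw [hcur]; exact hx i hi)
        (hxS (i + 1) (by omega))
      rwa [hcur] at this
    by_cases hc2 : ∀ i, ∃ i', i ≤ i' ∧ (st (i' + 1)).cur = γ ++ [2] ∧
        (st (i' + 1)).sg = (st i').sg ++ cod X (eS x.sl) x.b (st i').sg (st i').L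
    · refine ⟨2, ⟨fun i => ?_, i2, fun i hi => ⟨(hV i (hi2.trans hi)).2.1, ?_⟩⟩,
        Or.inr ⟨le_rfl, fun z hz => ?_⟩⟩
      · obtain ⟨i3, h4⟩ := stg_big h ((γ ++ [2]).length + 1)
        obtain ⟨i', hi', ha, -⟩ := hc2 (max i i3)
        have h5 := le_max_left i i3
        have h6 := le_max_right i i3
        exact ⟨i' + 1, by omega, ha, h4 (i' + 1) (by omega)⟩
      · rw [vw_succ (h.inv i).srt, vw_succ (h.inv i2).srt, (hV i (hi2.trans hi)).2.2,
          (hV i2 hi2).2.2, hx i hi, hx i2 le_rfl]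
      · rw [hxe] at hz
        refine red_of_cod h hL hx5 (fun i => ?_) hz
        obtain ⟨i', hi', ha, hb⟩ := hc2 (max i i2)
        have h5 := le_max_left i i2
        have h6 := le_max_right i i2
        exact ⟨i', by omega, hxS _ (by omega), by rw [ha, hxl], hb⟩
    · obtain ⟨i3, hi3, key3⟩ : ∃ i3, i2 ≤ i3 ∧ ∀ i, i3 ≤ i → (st i).cur = γ →
          γ.length < (st i).stg → (st (i + 1)).cur = γ ++ [3] ∧
            ¬ zdet X (eS x.sl) (st i).sg (RR X x.b (st i).sg) := by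
        obtain ⟨i3, h4⟩ := not_forall.1 hc2
        refine ⟨max i2 i3, le_max_left _ _, fun i hi ha hb => ?_⟩
        rcases key i ((le_max_left _ _).trans hi) ha hb with h5 | h5
        · exact h5
        · exact (h4 ⟨i, (le_max_right _ _).trans hi, h5⟩).elim
      obtain ⟨hT3, i4, h4⟩ := h3 X st b γ i3 V h hT hγ fun i hi =>
        ⟨(hV i (by omega)).2.1, (hV i (by omega)).2.2, fun ha hb => (key3 i hi ha hb).1⟩
      refine ⟨3, hT3, Or.inr ⟨by omega, fun z hz => ?_⟩⟩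
      rw [hxe] at hz
      have h5 := le_max_left i3 i4
      have h6 := le_max_right i3 i4
      refine (not_total h hL (i1 := max i3 i4) (F := fun i => RR X x.b (st i).sg)
        (fun i hi => h.wrote i x (hxS i (by omega)) (hxS (i + 1) (by omega)) hx5
          (by rw [hxl]; exact h4 i (by omega)) (by rw [hxl]; exact h4 (i + 1) (by omega)))
        (fun i => ?_) z hz).elim
      obtain ⟨i', hi', ha, hb⟩ := hT.1 (max i i3)
      exact ⟨i', (le_max_left _ _).trans hi', (key3 i' ((le_max_right _ _).trans hi') ha hb).2⟩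

end Pool.Agent.MP_68d28f_lc.CE.T4
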