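import Pool.Agent.MP_68d28f_lc.ce.t4.BasA

/-! Block T4: an M-node on the true path that is trivial or wins. -/

namespace Pool.Agent.MP_68d28f_lc.CE.T4

open Pool.Agent.MP_b427ce_lc

namespace TpM0F

/-- at an M-node that passes the step is the cap or the move to the outcome zero -/
lemma step_pass {X : ℕ → ℕ} {s s' : St} {b : ℕ} (h : Stp X s b s') (ho : s.cur.length % 2 = 1)
    (hp : Pass s) : (s.stg ≤ s.cur.length ∧ s'.S = s.S) ∨ s' = mov s [] 0 := by
  have hN : ¬ AtN s := fun hn => by have := hn.2; omega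
  cases h with
  | cap h => exact Or.inl ⟨h, rfl⟩
  | nRef x h => exact absurd h hN
  | nMov x h => exact absurd h hN
  | nAb h => exact absurd h hN
  | nW1 w h => exact absurd h hN
  | nLoop w h => exact absurd h hN
  | nWx w h => exact absurd h hN
  | nCert h => exact absurd h hN
  | mPass => exact Or.inr rfl
  | mNew _ h => exact absurd hp h
  | mFill o _ h => exact absurd hp h
  | mWait o _ h => exact absurd hp h
  | mW1 o w y _ h => exact absurd hp h
  | mCert o _ h => exact absurd hp h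
  | mRef o x _ h => exact absurd hp h
  | mFin o x _ h => exact absurd hp h
  | mW2 o x i _ h => exact absurd hp h
  | mCod o x _ h => exact absurd hp h

lemma not_left_zero {a γ : List ℕ} (h : ¬ left a γ) : ¬ left a (γ ++ [0]) := by
  rw [left_snoc]
  rintro (h' | ⟨v, hv, -⟩)
  · exact h h'
  · omega

/-- a cut at another slot does not change the entry -/
lemma cut_get {s s' : St} {k t : List ℕ} (hc : Cut s s' k) (hv : vw s'.S t = vw s.S t)
    (hk : k ≠ t) : get s'.S t = get s.S t := by
  rcases lt_trichotomy k t with h | h | h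
  · exact absurd (get_congr hv h) hc.chg
  · exact absurd h hk
  · exact get_congr hc.low h

/-- the entry of a win survives a step -/
lemma keep_step {X : ℕ → ℕ} {s s' : St} {b : ℕ} {γ : List ℕ} {x : Ent} (h : Stp X s b s')
    (hk : Kind s s') (ho : γ.length % 2 = 1) (hl : ¬ left s'.cur γ)
    (hv : vw s'.S (γ ++ [0]) = vw s.S (γ ++ [0])) (hx : get s.S (γ ++ [0]) = some x) :
    get s'.S (γ ++ [0]) = some x := by
  cases hk with
  | stay _ _ hS => rw [hS, hx]
  | loop _ _ hS => rw [hS, hx]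
  | move o hc _ _ hS => rw [hS, get_keep (hc ▸ not_left_zero hl), hx]
  | ownc o hc =>
    by_cases hk : s.cur ++ [o] = γ ++ [0]
    · have hγ : s.cur = γ := List.append_inj_left' hk rfl
      have hp : Pass s := Or.inr (by rw [hγ, hx]; rfl)
      rcases step_pass h (hγ ▸ ho) hp with h1 | h1
      · rw [h1.2, hx]
      · have := hc.cur
        rw [h1] at this
        simp [mov] at this
    · rw [cut_get hc hv hk, hx]
  | prox α k hc _ hk _ hn =>
    by_cases hk' : k = γ ++ [0]
    · rcases hk with hk | hk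
      · rw [← hk, hk', hx] at hn
        cases hn
      · have := List.append_inj_right' (hk.symm.trans hk') rfl
        simp at this
    · rw [cut_get hc hv hk', hx]

variable {X : ℕ → ℕ} {st : ℕ → St} {b : ℕ → ℕ} {G : ℕ → Ins} {A : ℕ → ℕ} {γ : List ℕ}

/-- the entry of a win is permanent after the time of the true path -/
lemma perm (hG : Good X st b) (ho : γ.length % 2 = 1) {i0 : ℕ}
    (h0 : ∀ i, i0 ≤ i → ¬ left (st i).cur γ ∧ vw (st i).S (γ ++ [0]) = vw (st i0).S (γ ++ [0]))
    {i1 : ℕ} (h1 : i0 ≤ i1) {x : Ent} (hx : get (st i1).S (γ ++ [0]) = some x) :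
    ∀ i, i1 ≤ i → get (st i).S (γ ++ [0]) = some x := by
  intro i hi
  induction i, hi using Nat.le_induction with
  | base => exact hx
  | succ i hi ih =>
    exact keep_step (hG.run.stp i) (hG.kind i) ho (h0 (i + 1) (by omega)).1
      (((h0 (i + 1) (by omega)).2).trans (h0 i (by omega)).2.symm) ih

lemma stg_large (hG : Good X st b) (n : ℕ) : ∃ i1, ∀ i, i1 ≤ i → n < (st i).stg := by
  obtain ⟨i1, -, -, h⟩ := hG.ends n
  exact ⟨i1, fun i hi => lt_of_lt_of_le h (hG.mono i1 i hi).2.2⟩

/-- the outcome zero is on the true path -/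
lemma tp_zero (hG : Good X st b) (hT : TP st γ) (ho : γ.length % 2 = 1) {i1 : ℕ}
    (hp : ∀ i, i1 ≤ i → triv γ ∨ (get (st i).S (γ ++ [0])).isSome = true)
    (hc : ∀ i, i1 ≤ i → get (st i).S (γ ++ [0]) = get (st i1).S (γ ++ [0])) :
    TP st (γ ++ [0]) := by
  obtain ⟨hv, i0, h0⟩ := hT
  obtain ⟨i2, h2⟩ := stg_large hG (γ.length + 1)
  refine ⟨fun i => ?_, max i0 i1, fun i hi => ⟨not_left_zero (h0 i (by omega)).1, ?_⟩⟩
  · obtain ⟨i', hi', hcur, hlen⟩ := hv (max i (max i1 i2))
    have hP : Pass (st i') := by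
      unfold Pass
      rw [hcur]
      exact hp i' (by omega)
    rcases step_pass (hG.run.stp i') (hcur ▸ ho) hP with h | h
    · rw [hcur] at h
      omega
    · refine ⟨i' + 1, by omega, by rw [h]; simp [mov, hcur], ?_⟩
      have := h2 (i' + 1) (by omega)
      simpa using this
  · rw [vw_succ (hG.inv i).srt, vw_succ (hG.inv (max i0 i1)).srt, (h0 i (by omega)).2,
      (h0 (max i0 i1) (by omega)).2, hc i (by omega), hc (max i0 i1) (by omega)]

lemma cd_pre0 (G : ℕ → Ins) (n : ℕ) : cd (pre G n) = pre (gG G) n := map_pre enc G n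

lemma zd_pre0 (e n m : ℕ) : zd X e (pre G m) n = ev e (pre (jn X (gG G)) m) n := by
  unfold zd
  rw [length_pre, cd_pre0, pre_jn]

lemma mask_pre0 (sd : ℕ) (C : ℕ → ℕ) (m : ℕ) : mask sd (pre C m) = pre (maskF sd C) m := by
  unfold mask
  rw [length_pre]
  exact pre_congr fun j hj => by rw [getD_pre C hj]; rfl

lemma cons_of_cmp (hL : Lim X st G A) {e : ℕ} {z : ℕ → ℕ} (hz : Cmp e (jn X (gG G)) z) (i : ℕ) :
    cons X e (st i).sg z := by
  intro n v hv
  rw [hL.g i, zd_pre0] at hv
  exact (hz.eq hv).symm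

lemma oval_pre (hL : Lim X st G A) (x : Ent) (C : ℕ → ℕ) (m i : ℕ) :
    oval x (pre C m) (st i).sg = ev (lamS x.sl)
      (pre (jn (maskF (sdS x.sl) C) (gG G)) (min m (st i).sg.length)) x.b := by
  unfold oval
  rw [mask_pre0]
  conv_lhs => rw [hL.g i]
  rw [cd_pre0, zip2_pre]

/-- a permanent win -/
lemma won (hG : Good X st b) (hL : Lim X st G A) (ho : γ.length % 2 = 1) {i1 : ℕ} {x : Ent}
    (hx : ∀ i, i1 ≤ i → get (st i).S (γ ++ [0]) = some x) : WonF X st G γ.length := by
  have hsl : x.sl = γ ++ [0] := (get_some (hx i1 le_rfl)).2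
  have htag : x.tag = 2 := by
    rcases ((hG.inv i1).shp x (get_some (hx i1 le_rfl)).1).tagM hsl ho with h | h | h
    · exact h.2
    · omega
    · omega
  have hw := fun i (hi : i1 ≤ i) => ((hG.inv i).ent x (get_some (hx i hi)).1).wm htag
  have he : eS x.sl = eN γ.length := by rw [hsl, eS_snoc]
  have hl : lamS x.sl = lamN γ.length := by rw [hsl, lamS_snoc]
  have hs : sdS x.sl = sdN γ.length := by rw [hsl, sdS_snoc]
  intro z hz
  obtain ⟨hb, hlen, htab, -⟩ := hw i1 le_rfl
  rw [he] at htab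
  have hval := htab z (cons_of_cmp hL hz i1)
  refine ⟨fun p hp => ⟨i1, ?_⟩, fun C hC hcmp => ?_⟩
  · rw [hval p (by rw [hsl] at hlen; simp at hlen; omega)]
    rfl
  · have hCl : ∀ p, p < x.l2.length → C p = x.l2.getD p 0 := fun p hp => hC i1 p _ (hval p hp)
    have hl2 : x.l2 = pre C x.l2.length := by
      conv_lhs => rw [← pre_getD x.l2 0]
      exact pre_congr fun j hj => (hCl j hj).symm
    have hm : maskF (1 - sdN γ.length) C x.b = C x.b := by
      have h1 := sdN_le γ.length
      have h2 : x.b % 2 = 1 - sdN γ.length := by rw [hs] at hb; omega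
      simp [maskF, h2, eqB]
    obtain ⟨n0, hn0⟩ := hcmp.ev_ge x.b
    obtain ⟨i2, h2⟩ := stg_large hG n0
    obtain ⟨-, -, -, halt⟩ := hw (max i1 i2) (by omega)
    rcases halt with ⟨hlt, y, hy, hne⟩ | hnone
    · rw [hl2, oval_pre hL, hl, hs] at hy
      exact hne (by rw [hcmp.eq hy, hm, hCl _ hlt])
    · have h3 := hnone [] (pre C (max n0 x.l2.length)) (fun _ h => by cases h)
        (fun _ h => by cases h) (by
          conv_lhs => rw [hl2]
          exact pre_isPrefix C (by omega))
      have h4 := (hG.inv (max i1 i2)).len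
      have h5 := h2 (max i1 i2) (by omega)
      rw [List.append_nil, oval_pre hL, hl, hs, hn0 _ (by omega)] at h3
      cases h3

end TpM0F

open TpM0F in
theorem tpM0 : TpM0 := by
  intro X st b G A γ hG hL hT ho hh
  obtain ⟨i0, h0⟩ := hT.2
  by_cases hex : ∃ i1, i0 ≤ i1 ∧ ∃ x, get (st i1).S (γ ++ [0]) = some x
  · obtain ⟨i1, h1, x, hx⟩ := hex
    have hp := perm hG ho h0 h1 hx
    refine ⟨tp_zero hG hT ho (i1 := i1) (fun i hi => Or.inr (by rw [hp i hi]; rfl))
      (fun i hi => by rw [hp i hi, hx]), Or.inr (won hG hL ho hp)⟩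
  · have hn : ∀ i, i0 ≤ i → get (st i).S (γ ++ [0]) = none := fun i hi => by
      cases h : get (st i).S (γ ++ [0]) with
      | none => rfl
      | some x => exact absurd ⟨i, hi, x, h⟩ hex
    have ht : triv γ := by
      rcases hh with h | h
      · exact h
      · obtain ⟨i', hi', h'⟩ := h i0
        rw [hn i' hi'] at h'
        cases h'
    exact ⟨tp_zero hG hT ho (i1 := i0) (fun _ _ => Or.inl ht)
      (fun i hi => by rw [hn i hi, hn i0 le_rfl]), Or.inl ht⟩

end Pool.Agent.MP_68d28f_lc.CE.T4
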