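import Pool.Agent.MP_68d28f_lc.ce.t4.BasA

/-! Block T4: the owner of an M-node on the true path is permanent; the outcome three. -/

namespace Pool.Agent.MP_68d28f_lc.CE.T4

open Pool.Agent.MP_b427ce_lc

namespace TpM1

variable {X : ℕ → ℕ} {s s' : St} {b : ℕ}

lemma snoc_inj {a c : List ℕ} {u v : ℕ} (h : a ++ [u] = c ++ [v]) : a = c ∧ u = v := by
  have h1 := List.append_inj' h rfl
  exact ⟨h1.1, by simpa using h1.2⟩

lemma not_snoc_pre (a : List ℕ) (u : ℕ) : ¬ a ++ [u] <+: a := by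
  intro h
  have := h.length_le
  simp at this

/-- an M-node that does not pass moves only to outcomes at least two -/
lemma mov_out (h : Stp X s b s') (hodd : s.cur.length % 2 = 1) (hp : ¬ Pass s) {v : ℕ}
    (hc : s'.cur = s.cur ++ [v]) : 2 ≤ v := by
  cases h with
  | nMov x hN _ _ => have := hN.2; omega
  | mPass _ h2 => exact absurd h2 hp
  | mWait o _ _ _ _ _ => have := (snoc_inj hc).2; omega
  | mFin o x _ _ _ _ _ _ _ => have := (snoc_inj hc).2; omega
  | mCod o x _ _ _ _ _ _ _ _ => have := (snoc_inj hc).2; omega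
  | nLoop w hN _ _ _ _ _ => have := hN.2; omega
  | _ => simp [fin] at hc

lemma cut_new {κ : List ℕ} {y : Ent} (hc : Cut s s' κ) (hS : s'.S = vw s.S y.sl ++ [y])
    (hy : get s.S y.sl ≠ some y) : κ = y.sl ∧ get s'.S y.sl = some y := by
  have hg : get s'.S y.sl = some y := by
    rw [hS]
    exact get_snoc_self fun x hx => ne_of_lt (mem_vw.1 hx).2
  refine ⟨hc.unique ⟨hc.cur, hc.stg, ?_, ?_, ?_⟩, hg⟩
  · rw [hS, vw_snoc_le le_rfl, vw_vw le_rfl]
  · rw [hg]
    exact fun h => hy h.symm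
  · intro x hx
    rw [hS, List.mem_append] at hx
    rcases hx with hx | hx
    · exact le_of_lt (mem_vw.1 hx).2
    · rw [List.mem_singleton.1 hx]

lemma cut_del {κ t : List ℕ} {x : Ent} (hc : Cut s s' κ) (hS : s'.S = vw s.S t)
    (hx : get s.S t = some x) : κ = t := by
  refine hc.unique ⟨hc.cur, hc.stg, ?_, ?_, ?_⟩
  · rw [hS, vw_vw le_rfl]
  · rw [hS, get_vw_none le_rfl, hx]
    simp
  · intro y hy
    rw [hS] at hy
    exact le_of_lt (mem_vw.1 hy).2

/-- an occupied slot `γ ++ [1]` gives an owner for `γ ++ [2]` -/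
lemma own_ne_none {S : List Ent} {γ : List ℕ} {x : Ent} (hx : x ∈ S) (hs : x.sl = γ ++ [1])
    (ho : isOwn x = true) : own (vw S (γ ++ [2])) (γ ++ [2]) ≠ none := by
  intro h
  refine own_none.1 h (mem_qq.2 ⟨x, mem_vw.2 ⟨hx, ?_⟩, ho, ?_⟩)
  · rw [hs]
    exact snoc_lt_snoc.2 (by omega)
  · rw [hs, eS_snoc, eS_snoc]

lemma get_wait {γ : List ℕ} (h : own (vw s.S (γ ++ [2])) (γ ++ [2]) = none) :
    get s.S (wait (γ ++ [1])).sl ≠ some (wait (γ ++ [1])) := fun hg =>
  own_ne_none (get_some hg).1 rfl rfl h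

lemma get_fill (hI : Inv X s) {t : List ℕ} {o : Ent} (h : own (vw s.S t) t = some o)
    (h3 : o.tag = 3) :
    get s.S (fillR X o.sl s.sg s.L).sl ≠ some (fillR X o.sl s.sg s.L) := by
  have hm := (mem_vw.1 (own_some h).1).1
  have hg := get_of_mem hI.srt hm
  intro h'
  have h2 : get s.S o.sl = some (fillR X o.sl s.sg s.L) := h'
  rw [hg] at h2
  have h4 := congrArg Ent.tag (Option.some.inj h2)
  rw [h3] at h4
  exact absurd h4 (by simp [fillR, ready])

lemma get_won (hI : Inv X s) {t : List ℕ} {o : Ent} (h : own (vw s.S t) t = some o) :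
    get s.S (wonS o.sl) = none ∧ ∃ α : List ℕ, wonS o.sl = α ++ [0] := by
  have hm := (mem_vw.1 (own_some h).1).1
  have ho := (own_some h).2.1
  obtain ⟨α, _, hα⟩ := (hI.shp o hm).own ho
  have h1 := ((hI.ent o hm).ow ho).2
  refine ⟨?_, α, by rw [hα, wonS_snoc]⟩
  rw [get_vw] at h1
  · exact h1
  · rw [hα, wonS_snoc]
    exact snoc_lt_snoc.2 (by omega)

lemma ne_of_none {t : List ℕ} {y : Ent} (h : get s.S t = none) (hy : y.sl = t) :
    get s.S y.sl ≠ some y := by
  rw [hy, h]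
  simp

lemma isSome_new {κ : List ℕ} {y : Ent} (hc : Cut s s' κ) (hS : s'.S = vw s.S y.sl ++ [y])
    (hy : get s.S y.sl ≠ some y) : (get s'.S κ).isSome = true := by
  obtain ⟨h1, h2⟩ := cut_new hc hS hy
  rw [h1, h2]
  rfl

/-- a cut at a slot that ends with one leaves the slot occupied -/
lemma cut_some (hI : Inv X s) (h : Stp X s b s') {α : List ℕ} (hc : Cut s s' (α ++ [1])) :
    (get s'.S (α ++ [1])).isSome = true := by
  cases h with
  | cap _ => exact absurd rfl hc.chg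
  | nAb _ _ _ => exact absurd rfl hc.chg
  | nLoop w _ _ _ _ _ _ => exact absurd rfl hc.chg
  | nRef x _ hx _ => have := (snoc_inj (cut_del hc rfl hx)).2; omega
  | mRef o x _ _ _ _ hx _ => have := (snoc_inj (cut_del hc rfl hx)).2; omega
  | nW1 w _ hn _ _ => exact isSome_new (y := wonN (s.cur ++ [0])) hc rfl (ne_of_none hn rfl)
  | nWx w _ hn _ _ _ => exact isSome_new (y := wonN (s.cur ++ [0])) hc rfl (ne_of_none hn rfl)
  | nCert _ hn _ _ =>
    exact isSome_new (y := cert (s.cur ++ [0]) s.sg.length (lpL X s.L s.j) s.j) hc rfl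
      (ne_of_none hn rfl)
  | mCert o _ _ _ _ hn _ =>
    exact isSome_new (y := fent (s.cur ++ [2]) (fresh s.sg s.S) s.sg.length s.L) hc rfl
      (ne_of_none hn rfl)
  | mNew _ _ hn => exact isSome_new (y := wait (s.cur ++ [1])) hc rfl (get_wait hn)
  | mFill o _ _ ho h3 _ =>
    exact isSome_new (y := fillR X o.sl s.sg s.L) hc rfl (get_fill hI ho h3)
  | mW1 o w y _ _ ho _ _ _ _ =>
    exact isSome_new (y := wonM (wonS o.sl) (dia w.2.2.2.2.2 o.b y) o.b) hc rfl
      (ne_of_none (get_won hI ho).1 rfl)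
  | mW2 o x i _ _ ho _ _ _ _ _ _ _ _ =>
    exact isSome_new (y := wonM (wonS o.sl) o.l2 o.b) hc rfl (ne_of_none (get_won hI ho).1 rfl)
  | _ => exact absurd hc.cur (by simp [mov])

lemma wt_fill (hI : Inv X s) {γ : List ℕ} {o y : Ent} (hm : o ∈ s.S) (hs : o.sl = γ ++ [1])
    (h3 : o.tag = 3) (hy : y.sl = γ ++ [1]) (h4 : y.tag = 4) :
    wt (vw (vw s.S (γ ++ [1]) ++ [y]) (γ ++ [2])) < wt (vw s.S (γ ++ [2])) := by
  have h12 : γ ++ [1] < γ ++ [2] := snoc_lt_snoc.2 (by omega)
  have hle : γ ++ [1] ++ [0] ≤ γ ++ [2] := by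
    refine not_lt.1 fun h => ?_
    exact absurd (lt_snoc_zero.1 h) (not_le.2 h12)
  have e1 : vw (vw s.S (γ ++ [1]) ++ [y]) (γ ++ [2]) = vw s.S (γ ++ [1]) ++ [y] := by
    rw [vw_snoc_lt (by rw [hy]; exact h12),
      vw_eq_self fun x hx => lt_trans (mem_vw.1 hx).2 h12]
  have e2 : vw s.S (γ ++ [1] ++ [0]) = vw s.S (γ ++ [1]) ++ [o] := by
    rw [vw_succ hI.srt, ← hs, get_of_mem hI.srt hm]
    rfl
  have e3 : wt (vw s.S (γ ++ [1] ++ [0])) ≤ wt (vw s.S (γ ++ [2])) := by
    rw [← vw_vw hle]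
    exact wt_sublist (vw_sublist _ _)
  have w1 : wt [y] = 1 := by simp [wt, h4, eqB]
  have w2 : wt [o] = 2 := by simp [wt, h3, eqB]
  rw [e2, wt_append, w2] at e3
  rw [e1, wt_append, w1]
  omega

/-- a cut of an M-node at its own slot one creates the owner or lowers the weight -/
lemma cut_own (hI : Inv X s) (h : Stp X s b s') (hodd : s.cur.length % 2 = 1)
    (hc : Cut s s' (s.cur ++ [1])) :
    own (vw s.S (s.cur ++ [2])) (s.cur ++ [2]) = none ∨
      wt (vw s'.S (s.cur ++ [2])) < wt (vw s.S (s.cur ++ [2])) := by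
  cases h with
  | cap _ => exact absurd rfl hc.chg
  | nAb hN _ _ => have := hN.2; omega
  | nLoop w hN _ _ _ _ _ => have := hN.2; omega
  | nRef x hN _ _ => have := hN.2; omega
  | nW1 w hN _ _ _ => have := hN.2; omega
  | nWx w hN _ _ _ _ => have := hN.2; omega
  | nCert hN _ _ _ => have := hN.2; omega
  | mRef o x _ _ _ _ hx _ => have := (snoc_inj (cut_del hc rfl hx)).2; omega
  | mCert o _ _ _ _ hn _ =>
    have h1 := (cut_new (y := fent (s.cur ++ [2]) (fresh s.sg s.S) s.sg.length s.L) hc rfl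
      (ne_of_none hn rfl)).1
    have := (snoc_inj h1).2
    omega
  | mNew _ _ hn => exact Or.inl hn
  | mFill o _ _ ho h3 _ =>
    have h1 : s.cur ++ [1] = o.sl :=
      (cut_new (y := fillR X o.sl s.sg s.L) hc rfl (get_fill hI ho h3)).1
    refine Or.inr ?_
    have h2 := wt_fill (y := fillR X o.sl s.sg s.L) hI (mem_vw.1 (own_some ho).1).1 h1.symm h3
      h1.symm rfl
    rw [h1] at h2
    exact h2
  | mW1 o w y _ _ ho _ _ _ _ =>
    have h1 : s.cur ++ [1] = wonS o.sl :=
      (cut_new (y := wonM (wonS o.sl) (dia w.2.2.2.2.2 o.b y) o.b) hc rfl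
        (ne_of_none (get_won hI ho).1 rfl)).1
    obtain ⟨α, hα⟩ := (get_won hI ho).2
    have := (snoc_inj (h1.trans hα)).2
    omega
  | mW2 o x i _ _ ho _ _ _ _ _ _ _ _ =>
    have h1 : s.cur ++ [1] = wonS o.sl :=
      (cut_new (y := wonM (wonS o.sl) o.l2 o.b) hc rfl (ne_of_none (get_won hI ho).1 rfl)).1
    obtain ⟨α, hα⟩ := (get_won hI ho).2
    have := (snoc_inj (h1.trans hα)).2
    omega
  | _ => exact absurd hc.cur (by simp [mov])

/-- without an owner the M-node creates one -/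
lemma new_step (h : Stp X s b s') (hM : AtM s) (hp : ¬ Pass s)
    (hn : own (vw s.S (s.cur ++ [2])) (s.cur ++ [2]) = none) :
    wait (s.cur ++ [1]) ∈ s'.S := by
  have hodd := hM.2
  cases h with
  | cap h1 => have := hM.1; omega
  | nAb hN _ _ => have := hN.2; omega
  | nLoop w hN _ _ _ _ _ => have := hN.2; omega
  | nRef x hN _ _ => have := hN.2; omega
  | nMov x hN _ _ => have := hN.2; omega
  | nW1 w hN _ _ _ => have := hN.2; omega
  | nWx w hN _ _ _ _ => have := hN.2; omega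
  | nCert hN _ _ _ => have := hN.2; omega
  | mPass _ h2 => exact absurd h2 hp
  | mNew _ _ _ => simp [fin]
  | mFill o _ _ ho _ _ => rw [hn] at ho; cases ho
  | mWait o _ _ ho _ _ => rw [hn] at ho; cases ho
  | mW1 o w y _ _ ho _ _ _ _ => rw [hn] at ho; cases ho
  | mCert o _ _ ho _ _ _ => rw [hn] at ho; cases ho
  | mRef o x _ _ ho _ _ _ => rw [hn] at ho; cases ho
  | mFin o x _ _ ho _ _ _ _ => rw [hn] at ho; cases ho
  | mW2 o x i _ _ ho _ _ _ _ _ _ _ _ => rw [hn] at ho; cases ho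
  | mCod o x _ _ ho _ _ _ _ _ => rw [hn] at ho; cases ho

/-- a cut below `γ ++ [u + 1]` that keeps the view of `γ ++ [u]` extends `γ ++ [u]` -/
lemma cut_pre {κ γ : List ℕ} {u : ℕ} (hc : Cut s s' κ)
    (hv : vw s'.S (γ ++ [u]) = vw s.S (γ ++ [u])) (hκ : κ < γ ++ [u + 1]) : γ ++ [u] <+: κ := by
  have h1 : ¬ κ < γ ++ [u] := fun h => hc.chg (get_congr hv h)
  rcases lt_snoc_iff.1 hκ with h | ⟨v, hv1, hv2⟩
  · exact absurd (lt_snoc_iff.2 (Or.inl h)) h1
  · rcases Nat.lt_succ_iff_lt_or_eq.1 hv1 with h | h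
    · exact absurd (lt_snoc_iff.2 (Or.inr ⟨v, h, hv2⟩)) h1
    · rw [← h]
      exact hv2

/-- a cut at a proper extension of `t` while the current node does not extend `t` lowers the
weight of every view to the right of `t` -/
lemma cut_drop (hk : Kind s s') {κ t k : List ℕ} (hc : Cut s s' κ) (ht : t <+: κ) (hne : κ ≠ t)
    (hcur : ¬ t <+: s.cur) (hk' : ∀ a, t <+: a → a < k) :
    wt (vw s'.S k) < wt (vw s.S k) := by
  cases hk with
  | stay _ _ h => exact absurd (by rw [h]) hc.chg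
  | loop _ _ h _ => exact absurd (by rw [h]) hc.chg
  | move o h _ _ _ => exact absurd (h.symm.trans hc.cur) (by simp)
  | ownc o h =>
    have h1 := hc.unique h
    rw [h1] at ht hne
    rcases pre_snoc.1 ht with h2 | h2
    · exact absurd h2 hcur
    · exact absurd h2.symm hne
  | prox α k0 h _ hk0 _ _ hw =>
    have h1 := hc.unique h
    rw [h1] at ht hne
    refine hw k (hk' _ ?_)
    rcases hk0 with h2 | h2
    · rw [h2] at ht hne
      rcases pre_snoc.1 ht with h3 | h3
      · exact h3.trans (List.prefix_append _ _)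
      · exact absurd h3.symm hne
    · rw [← h2]
      exact ht

/-- a cut at `γ ++ [u]` is an own cut of `γ` or a proxy cut -/
lemma cut_at (hk : Kind s s') {γ : List ℕ} {u : ℕ} (hc : Cut s s' (γ ++ [u])) :
    s.cur = γ ∨ (u ≤ 1 ∧ ∀ k', γ ++ [1] < k' → wt (vw s'.S k') < wt (vw s.S k')) := by
  cases hk with
  | stay _ _ h => exact absurd (by rw [h]) hc.chg
  | loop _ _ h _ => exact absurd (by rw [h]) hc.chg
  | move o h _ _ _ => exact absurd (h.symm.trans hc.cur) (by simp)
  | ownc o h => exact Or.inl (snoc_inj (hc.unique h)).1.symm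
  | prox α k0 h _ hk0 _ _ hw =>
    have h1 := hc.unique h
    rcases hk0 with h2 | h2
    · obtain ⟨h3, h4⟩ := snoc_inj (h1.trans h2)
      exact Or.inr ⟨by omega, by rw [h3]; exact hw⟩
    · obtain ⟨h3, h4⟩ := snoc_inj (h1.trans h2)
      exact Or.inr ⟨by omega, by rw [h3]; exact hw⟩

/-- an occupied slot `γ ++ [1]` with a constant view stays occupied -/
lemma persist (hI : Inv X s) (h : Stp X s b s') (hk : Kind s s') {γ : List ℕ}
    (hv : vw s'.S (γ ++ [1]) = vw s.S (γ ++ [1])) (hl : ¬ left s'.cur (γ ++ [1]))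
    (hg : (get s.S (γ ++ [1])).isSome = true) : (get s'.S (γ ++ [1])).isSome = true := by
  have key : ∀ κ, Cut s s' κ → (get s'.S (γ ++ [1])).isSome = true := by
    intro κ hc
    rcases lt_trichotomy κ (γ ++ [1]) with h1 | h1 | h1
    · exact absurd (get_congr hv h1) hc.chg
    · rw [h1] at hc
      exact cut_some hI h hc
    · rw [get_congr hc.low h1]
      exact hg
  cases hk with
  | stay _ _ h => rw [h]; exact hg
  | loop _ _ h _ => rw [h]; exact hg
  | move o h1 _ _ h2 =>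
    rw [h1] at hl
    rw [h2, get_keep hl]
    exact hg
  | ownc o h => exact key _ h
  | prox α k0 h _ _ _ _ _ => exact key _ h

lemma pre_lt {γ a : List ℕ} {u v : ℕ} (huv : u < v) (h : γ ++ [u] <+: a) : a < γ ++ [v] :=
  lt_snoc_iff.2 (Or.inr ⟨u, huv, h⟩)

end TpM1

open TpM1 in
theorem tpM1 : TpM1 := by
  intro X st b γ i0 hG hT hodd htr h0
  obtain ⟨hvis, ia, hia⟩ := hT
  have hnp : ∀ i, i0 ≤ i → (st i).cur = γ → ¬ Pass (st i) := by
    intro i hi hc hp
    rcases hp with hp | hp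
    · exact htr (hc ▸ hp)
    · rw [hc, h0 i hi] at hp
      cases hp
  obtain ⟨i2, hi2, hc2, -⟩ := hvis (max i0 ia)
  have hi0 : i0 ≤ i2 := le_trans (le_max_left _ _) hi2
  have hia2 : ia ≤ i2 := le_trans (le_max_right _ _) hi2
  -- the current node stays off the outcomes zero and one
  have hoff : ∀ i, i2 ≤ i → ∀ v, v < 2 → ¬ γ ++ [v] <+: (st i).cur := by
    intro i hi v hv hp
    obtain ⟨j, hj, -, hj1, hj2⟩ := hG.pass i2 i γ v hi (by rw [hc2]; exact not_snoc_pre _ _) hp
    have := mov_out (hG.run.stp j) (by rw [hj1]; exact hodd) (hnp j (le_trans hi0 hj) hj1)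
      (by rw [hj1]; exact hj2)
    omega
  have hl : ∀ u, u ≤ 2 → ∀ i, i2 ≤ i → ¬ left (st i).cur (γ ++ [u]) := by
    intro u hu i hi h
    rcases left_snoc.1 h with h | ⟨v, hv, h⟩
    · exact (hia i (le_trans hia2 hi)).1 h
    · exact hoff i hi v (by omega) h
  -- the view of the slot one is eventually constant
  obtain ⟨i3, hi3, h3⟩ := hG.stab (γ ++ [1]) i2 (hl 1 (by omega)) (by
    intro i hi κ hκ hc
    have hv : vw (st (i + 1)).S (γ ++ [0]) = vw (st i).S (γ ++ [0]) := by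
      rw [(hia (i + 1) (by omega)).2, (hia i (by omega)).2]
    refine cut_drop (hG.kind i) hc (cut_pre hc hv hκ) ?_ (hoff i hi 0 (by omega))
      fun a ha => pre_lt (by omega) ha
    intro h
    refine hc.chg ?_
    rw [h, h0 (i + 1) (by omega), h0 i (by omega)])
  have hv1 : ∀ i, i3 ≤ i → vw (st (i + 1)).S (γ ++ [1]) = vw (st i).S (γ ++ [1]) := by
    intro i hi
    rw [h3 (i + 1) (by omega), h3 i hi]
  -- eventually every cut at the slot one lowers the weight
  have h4 : ∃ i4, i3 ≤ i4 ∧ ∀ i, i4 ≤ i → Cut (st i) (st (i + 1)) (γ ++ [1]) →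
      wt (vw (st (i + 1)).S (γ ++ [2])) < wt (vw (st i).S (γ ++ [2])) := by
    by_cases hex : ∃ i4, i3 ≤ i4 ∧ (get (st i4).S (γ ++ [1])).isSome = true
    · obtain ⟨i4, hi4, hg4⟩ := hex
      have hall : ∀ i, i4 ≤ i → (get (st i).S (γ ++ [1])).isSome = true := by
        intro i hi
        induction i, hi using Nat.le_induction with
        | base => exact hg4
        | succ n hn ih =>
          exact persist (hG.inv n) (hG.run.stp n) (hG.kind n) (hv1 n (by omega))
            (hl 1 (by omega) (n + 1) (by omega)) ih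
      refine ⟨i4, hi4, fun i hi hc => ?_⟩
      rcases cut_at (hG.kind i) hc with h | h
      · obtain ⟨x, hx⟩ := Option.isSome_iff_exists.1 (hall i hi)
        obtain ⟨hx1, hx2⟩ := get_some hx
        have hxo : isOwn x = true := by
          rcases ((hG.inv i).shp x hx1).tagM hx2 hodd with h1 | h1 | h1
          · omega
          · exact isOwn_iff.2 h1.2
          · omega
        have h5 := cut_own (hG.inv i) (hG.run.stp i) (by rw [h]; exact hodd)
          (by rw [h]; exact hc)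
        rw [h] at h5
        rcases h5 with h5 | h5
        · exact absurd h5 (own_ne_none hx1 hx2 hxo)
        · exact h5
      · exact h.2 _ (snoc_lt_snoc.2 (by omega))
    · refine ⟨i3, le_rfl, fun i hi hc => ?_⟩
      have hn : ∀ j, i3 ≤ j → get (st j).S (γ ++ [1]) = none := by
        intro j hj
        cases hg : get (st j).S (γ ++ [1]) with
        | none => rfl
        | some x => exact absurd ⟨j, hj, by rw [hg]; rfl⟩ hex
      exact absurd (by rw [hn (i + 1) (by omega), hn i hi]) hc.chg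
  obtain ⟨i4, hi4, h4⟩ := h4
  obtain ⟨i5, hi5, h5⟩ := hG.stab (γ ++ [2]) i4 (fun i hi => hl 2 le_rfl i (by omega)) (by
    intro i hi κ hκ hc
    by_cases hκ1 : κ = γ ++ [1]
    · rw [hκ1] at hc
      exact h4 i hi hc
    · exact cut_drop (hG.kind i) hc (cut_pre hc (hv1 i (by omega)) hκ) hκ1
        (hoff i (by omega) 1 (by omega)) fun a ha => pre_lt (by omega) ha)
  cases ho : own (vw (st i5).S (γ ++ [2])) (γ ++ [2]) with
  | some o => exact ⟨i5, _, o, ho, fun i hi => ⟨hl 2 le_rfl i (by omega), h5 i hi⟩⟩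
  | none =>
    exfalso
    obtain ⟨j, hj, hjc, hjs⟩ := hvis i5
    have hw := new_step (hG.run.stp j) ⟨by rw [hjc]; exact hjs, by rw [hjc]; exact hodd⟩
      (hnp j (by omega) hjc) (by rw [hjc, h5 j hj]; exact ho)
    rw [hjc] at hw
    refine own_ne_none hw rfl rfl ?_
    rw [h5 (j + 1) (by omega)]
    exact ho

open TpM1 in
theorem tpM3 : TpM3 := by
  intro X st b γ i1 V hG hT _ h1
  obtain ⟨hvis, -⟩ := hT
  obtain ⟨j0, -, -, hj0⟩ := hG.ends (γ.length + 1)
  obtain ⟨i2, hi2, hc2, -⟩ := hvis (max i1 j0)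
  have hi1 : i1 ≤ i2 := le_trans (le_max_left _ _) hi2
  have hj2 : j0 ≤ i2 := le_trans (le_max_right _ _) hi2
  have hstg : ∀ i, i2 ≤ i → γ.length + 1 < (st i).stg := fun i hi =>
    lt_of_lt_of_le hj0 (hG.mono j0 i (by omega)).2.2
  have hmov : ∀ i, i2 ≤ i → (st i).cur = γ → (st (i + 1)).cur = γ ++ [3] := fun i hi hc =>
    (h1 i (by omega)).2.2 hc (by have := hstg i hi; omega)
  have hoff : ∀ i, i2 ≤ i → ¬ γ ++ [2] <+: (st i).cur := by
    intro i hi hp
    obtain ⟨j, hj, -, hj1, hj3⟩ := hG.pass i2 i γ 2 hi (by rw [hc2]; exact not_snoc_pre _ _) hp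
    have := (snoc_inj (hj3.symm.trans (hmov j hj hj1))).2
    omega
  have hl : ∀ i, i2 ≤ i → ¬ left (st i).cur (γ ++ [3]) := by
    intro i hi h
    rcases left_snoc.1 h with h | ⟨v, hv, h⟩
    · exact (h1 i (by omega)).1 (left_snoc.2 (Or.inl h))
    · rcases Nat.lt_succ_iff_lt_or_eq.1 hv with h2 | h2
      · exact (h1 i (by omega)).1 (left_snoc.2 (Or.inr ⟨v, h2, h⟩))
      · rw [h2] at h
        exact hoff i hi h
  obtain ⟨i3, hi3, h3⟩ := hG.stab (γ ++ [3] ++ [0]) i2 (by
    intro i hi h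
    rcases left_snoc.1 h with h | ⟨v, hv, _⟩
    · exact hl i hi h
    · omega) (by
    intro i hi κ hκ hc
    have hat : ∀ u, 2 ≤ u → κ ≠ γ ++ [u] := by
      intro u hu h
      rw [h] at hc
      rcases cut_at (hG.kind i) hc with h2 | h2
      · exact absurd ((hmov i hi h2).symm.trans hc.cur) (by simp)
      · omega
    have hκ3 : κ < γ ++ [3] := lt_of_le_of_ne (lt_snoc_zero.1 hκ) (hat 3 (by omega))
    have hv : vw (st (i + 1)).S (γ ++ [2]) = vw (st i).S (γ ++ [2]) := by
      rw [(h1 (i + 1) (by omega)).2.1, (h1 i (by omega)).2.1]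
    exact cut_drop (hG.kind i) hc (cut_pre hc hv hκ3) (hat 2 le_rfl) (hoff i hi)
      fun a ha => lt_trans (pre_lt (by omega) ha) (lt_snoc _ _))
  refine ⟨⟨fun i => ?_, i3, fun i hi => ⟨hl i (by omega), h3 i hi⟩⟩, i2, hoff⟩
  obtain ⟨j, hj, hjc, -⟩ := hvis (max i i2)
  have hj1 : i ≤ j := le_trans (le_max_left _ _) hj
  have hj4 : i2 ≤ j := le_trans (le_max_right _ _) hj
  refine ⟨j + 1, by omega, hmov j hj4 hjc, ?_⟩
  have := hstg (j + 1) (by omega)
  simpa using this

end Pool.Agent.MP_68d28f_lc.CE.T4
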