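import Pool.Agent.MP_68d28f_lc.ce.t4.Bas

/-! Block T4: below a permanent ready owner the coding entry becomes permanent. -/

namespace Pool.Agent.MP_68d28f_lc.CE.T4

open Pool.Agent.MP_b427ce_lc

namespace TpM2p

variable {X : ℕ → ℕ} {s s' : St} {b : ℕ} {o : Ent}

lemma capS (h : Stp X s b s') (hc : s.stg ≤ s.cur.length) : s'.S = s.S := by
  cases h with
  | cap => rfl
  | nRef _ h | nMov _ h | nAb h | nW1 _ h | nLoop _ h | nWx _ h | nCert h =>
    exact absurd h.1 (not_lt.2 hc)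
  | mPass h | mNew h | mFill _ h | mWait _ h | mW1 _ _ _ h | mCert _ h | mRef _ _ h | mFin _ _ h
  | mW2 _ _ _ h | mCod _ _ h => exact absurd h.1 (not_lt.2 hc)

lemma not_won {S : List Ent} {c : List ℕ} {p : ℕ} (hs : Shape o) (ho : o.tag = 4) :
    o ∉ vw S (wonS o.sl) ++ [wonM (wonS o.sl) c p] := by
  obtain ⟨α, -, hα⟩ := hs.own (isOwn_iff.2 (Or.inr ho))
  intro h
  rcases List.mem_append.1 h with h | h
  · have h2 := (mem_vw.1 h).2
    rw [hα, wonS_snoc, snoc_lt_snoc] at h2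
    omega
  · have h2 := congrArg Ent.tag (List.mem_singleton.1 h)
    rw [ho] at h2
    exact absurd h2 (by simp [wonM])

lemma visit (h : Stp X s b s') (hI : Inv X s) (hM : AtM s) (hP : ¬ Pass s)
    (ho : own (vw s.S (s.cur ++ [2])) (s.cur ++ [2]) = some o) (h4 : o.tag = 4)
    (ho' : o ∈ s'.S) (hl : ¬ left s'.cur (s.cur ++ [2])) :
    (get s.S (s.cur ++ [2]) = none ∧
      ¬ Fnd b (w1obj X (vw s.S (s.cur ++ [2])) (s.cur ++ [2]) s.L s.sg) ∧
      get s'.S (s.cur ++ [2]) =
        some (fent (s.cur ++ [2]) (fresh s.sg s.S) s.sg.length s.L)) ∨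
    ∃ x, get s.S (s.cur ++ [2]) = some x ∧ (get s'.S (s.cur ++ [2]) = some x ∨
      (RefF X s b x ∧ get s'.S (s.cur ++ [2]) = none)) := by
  have hs : Shape o := hI.shp o (mem_vw.1 (own_some ho).1).1
  have hpar := hM.2
  cases h with
  | cap h => exact absurd hM.1 (not_lt.2 h)
  | nRef _ h | nMov _ h | nAb h | nW1 _ h | nLoop _ h | nWx _ h | nCert h =>
    have := h.2
    omega
  | mPass _ h => exact absurd h hP
  | mNew _ _ h => rw [ho] at h; exact absurd h (by simp)
  | mFill o' _ _ h h3 | mWait o' _ _ h h3 =>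
    rw [ho] at h
    obtain rfl := Option.some.inj h
    omega
  | mW1 o' _ _ _ _ h | mW2 o' _ _ _ _ h =>
    rw [ho] at h
    obtain rfl := Option.some.inj h
    exact absurd ho' (not_won hs h4)
  | mCert o' _ _ _ _ h1 h2 =>
    refine Or.inl ⟨h1, h2, ?_⟩
    exact get_snoc_self (y := fent (s.cur ++ [2]) (fresh s.sg s.S) s.sg.length s.L)
      fun x hx => ne_of_lt (mem_vw.1 hx).2
  | mRef o' x _ _ _ _ h1 h2 => exact Or.inr ⟨x, h1, Or.inr ⟨h2, get_vw_none le_rfl⟩⟩
  | mFin o' x _ _ _ _ h1 => exact Or.inr ⟨x, h1, Or.inl ((get_keep hl).trans h1)⟩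
  | mCod o' x _ _ _ _ h1 => exact Or.inr ⟨x, h1, Or.inl ((get_keep hl).trans h1)⟩

lemma change {γ : List ℕ} (h : Stp X s b s') (hk : Kind s s')
    (hv : vw s'.S (γ ++ [2]) = vw s.S (γ ++ [2])) (hl : ¬ left s'.cur (γ ++ [2]))
    (hne : get s'.S (γ ++ [2]) ≠ get s.S (γ ++ [2])) : s.cur = γ ∧ γ.length < s.stg := by
  have hcut : ∀ k, Cut s s' k → k = γ ++ [2] := by
    intro k hk
    rcases lt_trichotomy k (γ ++ [2]) with h1 | h1 | h1
    · exact absurd (get_congr hv h1) hk.chg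
    · exact h1
    · exact absurd (get_congr hk.low h1) hne
  have h1 : s.cur = γ := by
    cases hk with
    | stay _ _ h | loop _ _ h => rw [h] at hne; exact absurd rfl hne
    | ownc u hc => exact (List.append_inj' (hcut _ hc) rfl).1
    | prox α k hc _ hk =>
      have h2 := hcut _ hc
      rcases hk with rfl | rfl
      · exact absurd (List.append_inj' h2 rfl).2 (by simp)
      · exact absurd (List.append_inj' h2 rfl).2 (by simp)
    | move u h1 _ _ h2 =>
      rw [h2, ← h1] at hne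
      exact absurd (get_keep hl) hne
  refine ⟨h1, not_le.1 fun hc => ?_⟩
  rw [capS h (by rw [h1]; exact hc)] at hne
  exact hne rfl

lemma first {β : Type} {f : ℕ → β} {i j : ℕ} (hij : i ≤ j) (h : f j ≠ f i) :
    ∃ k, i ≤ k ∧ f k = f i ∧ f (k + 1) ≠ f k := by
  induction j, hij using Nat.le_induction with
  | base => exact absurd rfl h
  | succ j hj ih =>
    by_cases h1 : f j = f i
    · exact ⟨j, hj, h1, by rw [h1]; exact h⟩
    · exact ih h1

end TpM2p

open TpM2p in
theorem tpM2 : TpM2 := by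
  intro X st b γ i1 V o hG hTP hodd htr hV ho h4
  by_contra hcon
  have hnp : ∀ i x, get (st i).S (γ ++ [2]) = some x →
      ∃ k, i ≤ k ∧ get (st k).S (γ ++ [2]) = some x ∧ get (st (k + 1)).S (γ ++ [2]) ≠ some x := by
    intro i x hx
    have : ∃ j, i ≤ j ∧ get (st j).S (γ ++ [2]) ≠ some x := by
      by_contra hc
      exact hcon ⟨i, x, fun j hj => by
        by_contra h
        exact hc ⟨j, hj, h⟩⟩
    obtain ⟨j, hj, hne⟩ := this
    obtain ⟨k, h1, h2, h3⟩ := first (f := fun k => get (st k).S (γ ++ [2])) hj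
      (by rw [hx]; exact hne)
    exact ⟨k, h1, h2.trans hx, by rw [← hx, ← h2]; exact h3⟩
  have hch : ∀ i, i1 ≤ i → get (st (i + 1)).S (γ ++ [2]) ≠ get (st i).S (γ ++ [2]) →
      (st i).cur = γ ∧ γ.length < (st i).stg := fun i hi =>
    change (hG.run.stp i) (hG.kind i) (by rw [(hV i hi).2.2, (hV (i + 1) (by omega)).2.2])
      (hV (i + 1) (by omega)).2.1
  have hvis : ∀ i, i1 ≤ i → (st i).cur = γ → γ.length < (st i).stg →
      (get (st i).S (γ ++ [2]) = none ∧
        ¬ Fnd (b i) (w1obj X (vw (st i).S (γ ++ [2])) (γ ++ [2]) (st i).L (st i).sg) ∧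
        get (st (i + 1)).S (γ ++ [2]) =
          some (fent (γ ++ [2]) (fresh (st i).sg (st i).S) (st i).sg.length (st i).L)) ∨
      ∃ x, get (st i).S (γ ++ [2]) = some x ∧ (get (st (i + 1)).S (γ ++ [2]) = some x ∨
        (RefF X (st i) (b i) x ∧ get (st (i + 1)).S (γ ++ [2]) = none)) := by
    intro i hi hc hl
    have h0 := hV i hi
    have h1 := hV (i + 1) (by omega)
    have h2 : o ∈ (st (i + 1)).S := by
      have := (own_some ho).1
      rw [← h1.2.2] at this
      exact (mem_vw.1 this).1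
    subst hc
    refine visit (hG.run.stp i) (hG.inv i) ⟨hl, hodd⟩ ?_ (by rw [h0.2.2]; exact ho) h4 h2 h1.2.1
    rintro (h | h)
    · exact htr h
    · rw [h0.1] at h
      exact absurd h (by simp)
  have href : ∀ i x, i1 ≤ i → get (st i).S (γ ++ [2]) = some x →
      ∃ k, i ≤ k ∧ RefF X (st k) (b k) x ∧ get (st (k + 1)).S (γ ++ [2]) = none := by
    intro i x hi hx
    obtain ⟨k, h1, h2, h3⟩ := hnp i x hx
    obtain ⟨h5, h6⟩ := hch k (by omega) (by rw [h2]; exact h3)
    rcases hvis k (by omega) h5 h6 with h | ⟨y, hy, h | h⟩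
    · rw [h2] at h
      exact absurd h.1 (by simp)
    · rw [h2] at hy
      rw [hy] at h3
      exact absurd h h3
    · rw [h2] at hy
      obtain rfl := Option.some.inj hy
      exact ⟨k, h1, h⟩
  obtain ⟨i2, hi2⟩ := hG.lowM γ i1 fun i hi hc hl hn => by
    rcases hvis i hi hc hl with h | ⟨y, hy, -⟩
    · obtain ⟨k, h1, h2, -⟩ := href (i + 1) _ (by omega) h.2.2
      obtain ⟨w, hw⟩ := Fnd.ex h2
      refine ⟨w, ?_⟩
      have e1 : (st k).sg.take (st i).sg.length = (st i).sg :=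
        (List.prefix_iff_eq_take.1 (hG.mono i k (by omega)).1).symm
      simp only [fent] at hw
      rw [e1, (hV k (by omega)).2.2] at hw
      rw [(hV i hi).2.2]
      exact hw
    · rw [hn] at hy
      exact absurd hy (by simp)
  have hno : ∀ i, max i1 i2 ≤ i → (st i).cur = γ → γ.length < (st i).stg →
      get (st i).S (γ ++ [2]) ≠ none := by
    intro i hi hc hl hn
    rcases hvis i (by omega) hc hl with h | ⟨y, hy, -⟩
    · exact h.2.1 (hi2 i (by omega) hc hl hn)
    · rw [hn] at hy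
      exact absurd hy (by simp)
  obtain ⟨i, hi, hc, hl⟩ := hTP.1 (max i1 i2)
  obtain ⟨x, hx⟩ := Option.ne_none_iff_exists'.1 (hno i hi hc hl)
  obtain ⟨k, h1, -, h3⟩ := href i x (by omega) hx
  obtain ⟨j, hj, hc', hl'⟩ := hTP.1 (k + 1)
  obtain ⟨m, h5, h6, h7⟩ := first (f := fun k => get (st k).S (γ ++ [2])) hj
    (by rw [h3]; exact hno j (by omega) hc' hl')
  obtain ⟨h8, h9⟩ := hch m (by omega) h7
  exact hno m (by omega) h8 h9 (h6.trans h3)

end Pool.Agent.MP_68d28f_lc.CE.T4
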