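import Pool.Agent.MP_68d28f_lc.ce.t4.Bas

/-! Block T4: an N-node on the true path. -/

namespace Pool.Agent.MP_68d28f_lc.CE.T4

open Pool.Agent.MP_b427ce_lc

namespace TpNp

section step
variable {X : ℕ → ℕ} {s s' : St} {b : ℕ}

lemma capS (h : Stp X s b s') (hc : s.stg ≤ s.cur.length) : s'.S = s.S := by
  cases h with
  | cap => rfl
  | nRef _ h | nMov _ h | nAb h | nW1 _ h | nLoop _ h | nWx _ h | nCert h =>
    exact absurd h.1 (not_lt.2 hc)
  | mPass h | mNew h | mFill _ h | mWait _ h | mW1 _ _ _ h | mCert _ h | mRef _ _ h | mFin _ _ h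
  | mW2 _ _ _ h | mCod _ _ h => exact absurd h.1 (not_lt.2 hc)

/-- a visit of an N-node whose slot is occupied -/
lemma visit_some (h : Stp X s b s') (hN : AtN s) {x : Ent}
    (hx : get s.S (s.cur ++ [0]) = some x) :
    (RefN X s b x ∧ get s'.S (s.cur ++ [0]) = none) ∨ (¬ RefN X s b x ∧ s' = mov s [] 0) := by
  have hpar := hN.2
  cases h with
  | cap h => exact absurd hN.1 (not_lt.2 h)
  | nRef y _ h1 h2 =>
    obtain rfl := Option.some.inj (hx.symm.trans h1)
    exact Or.inl ⟨h2, get_vw_none le_rfl⟩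
  | nMov y _ h1 h2 =>
    obtain rfl := Option.some.inj (hx.symm.trans h1)
    exact Or.inr ⟨h2, rfl⟩
  | nAb _ h | nW1 _ _ h | nLoop _ _ h | nWx _ _ h | nCert _ h => rw [hx] at h; cases h
  | mPass h | mNew h | mFill _ h | mWait _ h | mW1 _ _ _ h | mCert _ h | mRef _ _ h | mFin _ _ h
  | mW2 _ _ _ h | mCod _ _ h =>
    have := h.2
    omega

/-- a visit of an N-node whose slot is empty -/
lemma visit_none (h : Stp X s b s') (hN : AtN s) (hx : get s.S (s.cur ++ [0]) = none)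
    (hA : ¬ Abort X s b) :
    get s'.S (s.cur ++ [0]) = some (wonN (s.cur ++ [0])) ∨
    ((∃ w, xobj X (vw s.S (s.cur ++ [0])) (s.cur ++ [0]) (lpL X s.L s.j) s.sg s.j w) ∧
      s'.S = s.S ∧ s'.cur = s.cur ∧ s'.stg = s.stg) ∨
    (¬ Fnd b (xobj X (vw s.S (s.cur ++ [0])) (s.cur ++ [0]) (lpL X s.L s.j) s.sg s.j) ∧
      get s'.S (s.cur ++ [0]) = some (cert (s.cur ++ [0]) s.sg.length (lpL X s.L s.j) s.j)) := by
  have hpar := hN.2
  cases h with
  | cap h => exact absurd hN.1 (not_lt.2 h)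
  | nRef y _ h1 | nMov y _ h1 => rw [hx] at h1; cases h1
  | nAb _ _ h => exact absurd h hA
  | nW1 | nWx =>
    exact Or.inl (get_snoc_self (y := wonN (s.cur ++ [0])) fun x hx => ne_of_lt (mem_vw.1 hx).2)
  | nLoop w _ _ _ _ h => exact Or.inr (Or.inl ⟨⟨w, h⟩, rfl, rfl, rfl⟩)
  | nCert _ _ _ h =>
    exact Or.inr (Or.inr ⟨h, get_snoc_self
      (y := cert (s.cur ++ [0]) s.sg.length (lpL X s.L s.j) s.j)
      fun x hx => ne_of_lt (mem_vw.1 hx).2⟩)
  | mPass h | mNew h | mFill _ h | mWait _ h | mW1 _ _ _ h | mCert _ h | mRef _ _ h | mFin _ _ h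
  | mW2 _ _ _ h | mCod _ _ h =>
    have := h.2
    omega

/-- a move to the outcome two believes the coding entry -/
lemma mov_two (h : Stp X s b s') (hc : s'.cur = s.cur ++ [2]) :
    ∃ x, get s.S (s.cur ++ [2]) = some x ∧ ¬ RefF X s b x := by
  cases h with
  | mCod o x _ _ _ _ h1 h2 => exact ⟨x, h1, h2⟩
  | nLoop => simp at hc
  | nMov | mPass | mWait | mFin => simp [mov] at hc
  | _ => simp [fin] at hc

lemma not_left_zero {a γ : List ℕ} (h : ¬ left a γ) : ¬ left a (γ ++ [0]) := by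
  rw [left_snoc]
  rintro (h' | ⟨v, hv, -⟩)
  · exact h h'
  · omega

/-- only the node changes its slot -/
lemma change {δ : List ℕ} (h : Stp X s b s') (hk : Kind s s') (hev : δ.length % 2 = 0)
    (hv : vw s'.S (δ ++ [0]) = vw s.S (δ ++ [0])) (hl : ¬ left s'.cur δ)
    (hne : get s'.S (δ ++ [0]) ≠ get s.S (δ ++ [0])) : s.cur = δ ∧ δ.length < s.stg := by
  have hcut : ∀ k, Cut s s' k → k = δ ++ [0] := by
    intro k hk
    rcases lt_trichotomy k (δ ++ [0]) with h1 | h1 | h1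
    · exact absurd (get_congr hv h1) hk.chg
    · exact h1
    · exact absurd (get_congr hk.low h1) hne
  have h1 : s.cur = δ := by
    cases hk with
    | stay _ _ h | loop _ _ h => rw [h] at hne; exact absurd rfl hne
    | ownc u hc => exact (List.append_inj' (hcut _ hc) rfl).1
    | prox α k hc ho hk =>
      have h2 := hcut _ hc
      rcases hk with rfl | rfl
      · rw [(List.append_inj' h2 rfl).1] at ho
        omega
      · exact absurd (List.append_inj' h2 rfl).2 (by simp)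
    | move u h1 _ _ h2 =>
      rw [h2, ← h1] at hne
      exact absurd (get_keep (not_left_zero hl)) hne
  refine ⟨h1, not_le.1 fun hc => ?_⟩
  rw [capS h (by rw [h1]; exact hc)] at hne
  exact hne rfl

end step

lemma first {β : Type} {f : ℕ → β} {i j : ℕ} (hij : i ≤ j) (h : f j ≠ f i) :
    ∃ k, i ≤ k ∧ f k = f i ∧ f (k + 1) ≠ f k := by
  induction j, hij using Nat.le_induction with
  | base => exact absurd rfl h
  | succ j hj ih =>
    by_cases h1 : f j = f i
    · exact ⟨j, hj, h1, by rw [h1]; exact h⟩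
    · exact ih h1

lemma take_eq {α : Type} {l l' : List α} (h : l <+: l') {n : ℕ} (hn : n ≤ l.length) :
    l'.take n = l.take n := by
  obtain ⟨u, rfl⟩ := h
  exact List.take_append_of_le_length hn

lemma ee_pre {S : List Ent} {δ : List ℕ} {x : Ent} (hx : x ∈ EE (vw S (δ ++ [0])) (δ ++ [0])) :
    x ∈ S ∧ x.tag = 5 ∧ x.sl <+: δ := by
  obtain ⟨h1, h2, h3⟩ := mem_EE.1 hx
  obtain ⟨h4, h5⟩ := mem_vw.1 h1
  exact ⟨h4, h2, (pre_snoc.1 h3).resolve_right (ne_of_lt h5)⟩

variable {X : ℕ → ℕ} {st : ℕ → St} {b : ℕ → ℕ} {G : ℕ → Ins} {A : ℕ → ℕ} {δ : List ℕ}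

lemma stg_large (hG : Good X st b) (n : ℕ) : ∃ i1, ∀ i, i1 ≤ i → n < (st i).stg := by
  obtain ⟨i1, -, -, h⟩ := hG.ends n
  exact ⟨i1, fun i hi => lt_of_lt_of_le h (hG.mono i1 i hi).2.2⟩

/-- the believed certificates are never refuted -/
lemma no_abort (hG : Good X st b)
    (hv : ∀ i, ∃ i', i ≤ i' ∧ (st i').cur = δ ∧ δ.length < (st i').stg) {i0 : ℕ}
    (h0 : ∀ i, i0 ≤ i → vw (st i).S (δ ++ [0]) = vw (st i0).S (δ ++ [0])) {i : ℕ} (hi : i0 ≤ i)
    (hc : (st i).cur = δ) : ¬ Abort X (st i) (b i) := by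
  rintro ⟨x, hx, hr⟩
  rw [hc] at hx
  obtain ⟨w, hw⟩ := Fnd.ex hr
  obtain ⟨N, hN⟩ := fnd_of hw
  obtain ⟨i1, h1⟩ := hG.run.binf N
  obtain ⟨i2, h2, h3, -⟩ := hG.ends (max i i1)
  obtain ⟨i3, h4, h5, -⟩ := hv i2
  obtain ⟨hS, h5', hp⟩ := ee_pre hx
  obtain ⟨γ, -, hγ⟩ := ((hG.inv i).shp x hS).five h5'
  obtain ⟨k, h6, -, h7, h8⟩ := hG.pass i2 i3 γ 2 h4 (by rw [h3]; simp) (by rw [h5, ← hγ]; exact hp)
  obtain ⟨y, hy, hr'⟩ := mov_two (hG.run.stp k) (by rw [h8, h7])
  have hv' : vw (st k).S (δ ++ [0]) = vw (st i).S (δ ++ [0]) := by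
    rw [h0 k (by omega), h0 i hi]
  have hxk : x ∈ (st k).S := (ee_pre (by rw [hv']; exact hx)).1
  rw [h7, ← hγ, get_of_mem (hG.inv k).srt hxk] at hy
  obtain rfl := Option.some.inj hy
  refine hr' ?_
  unfold RefF
  rw [vw_congr hv' (le_of_pre (mem_EE.1 hx).2.2), take_eq (hG.mono i k (by omega)).1
    (((hG.inv i).ent x hS).wk (Or.inr h5')).1]
  exact hN _ (h1 k (by omega))

/-- the slot of the node is eventually occupied by a permanent entry -/
lemma perm (hG : Good X st b) (hT : TP st δ) (hev : δ.length % 2 = 0) :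
    ∃ i2 x, ∀ i, i2 ≤ i → get (st i).S (δ ++ [0]) = some x := by
  obtain ⟨hv, i0, h0⟩ := hT
  by_contra hcon
  have hch : ∀ i, i0 ≤ i → get (st (i + 1)).S (δ ++ [0]) ≠ get (st i).S (δ ++ [0]) →
      (st i).cur = δ ∧ δ.length < (st i).stg := fun i hi =>
    change (hG.run.stp i) (hG.kind i) hev (by rw [(h0 i hi).2, (h0 (i + 1) (by omega)).2])
      (h0 (i + 1) (by omega)).1
  have href : ∀ i x, i0 ≤ i → get (st i).S (δ ++ [0]) = some x →
      ∃ k, i ≤ k ∧ RefN X (st k) (b k) x ∧ get (st (k + 1)).S (δ ++ [0]) = none := by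
    intro i x hi hx
    have : ∃ j, i ≤ j ∧ get (st j).S (δ ++ [0]) ≠ some x := by
      by_contra hc
      exact hcon ⟨i, x, fun j hj => by
        by_contra h
        exact hc ⟨j, hj, h⟩⟩
    obtain ⟨j, hj, hne⟩ := this
    obtain ⟨k, h1, h2, h3⟩ := first (f := fun k => get (st k).S (δ ++ [0])) hj
      (by rw [hx]; exact hne)
    obtain ⟨h5, h6⟩ := hch k (by omega) h3
    subst h5
    rcases visit_some (hG.run.stp k) ⟨h6, hev⟩ (h2.trans hx) with h | h
    · exact ⟨k, h1, h⟩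
    · refine absurd ?_ h3
      have h7 := not_left_zero (h0 (k + 1) (by omega)).1
      rw [h.2] at h7 ⊢
      exact get_keep h7
  have hvis : ∀ i, i0 ≤ i → (st i).cur = δ → δ.length < (st i).stg →
      get (st i).S (δ ++ [0]) = none →
      ((∃ w, xobj X (vw (st i).S (δ ++ [0])) (δ ++ [0]) (lpL X (st i).L (st i).j) (st i).sg
        (st i).j w) ∧ (st (i + 1)).S = (st i).S ∧ (st (i + 1)).cur = δ ∧
        (st (i + 1)).stg = (st i).stg) ∨
      (¬ Fnd (b i) (xobj X (vw (st i).S (δ ++ [0])) (δ ++ [0]) (lpL X (st i).L (st i).j)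
        (st i).sg (st i).j) ∧ get (st (i + 1)).S (δ ++ [0]) =
        some (cert (δ ++ [0]) (st i).sg.length (lpL X (st i).L (st i).j) (st i).j)) := by
    intro i hi hc hl hn
    have hA := no_abort hG hv (fun i hi => (h0 i hi).2) hi hc
    subst hc
    rcases visit_none (hG.run.stp i) ⟨hl, hev⟩ hn hA with h | h
    · obtain ⟨k, -, h2, -⟩ := href (i + 1) _ (by omega) h
      exact absurd h2.1 (by simp [wonN])
    · exact h
  obtain ⟨i1, hi1⟩ := hG.lowN δ i0 fun i hi hc hl hn => by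
    rcases hvis i hi hc hl hn with h | h
    · exact h.1
    · obtain ⟨k, h1, h2, -⟩ := href (i + 1) _ (by omega) h.2
      obtain ⟨w, hw⟩ := Fnd.ex h2.2
      refine ⟨w, ?_⟩
      simp only [cert] at hw
      rw [take_eq (hG.mono i k (by omega)).1 le_rfl, List.take_length, (h0 k (by omega)).2] at hw
      rw [(h0 i hi).2]
      exact hw
  have hno : ∀ i, max i0 i1 ≤ i → (st i).cur = δ → δ.length < (st i).stg →
      get (st i).S (δ ++ [0]) ≠ none := by
    intro i hi hc hl hn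
    have hall : ∀ k, i ≤ k → (st k).cur = δ ∧ (st k).stg = (st i).stg ∧
        get (st k).S (δ ++ [0]) = none := by
      intro k hk
      induction k, hk using Nat.le_induction with
      | base => exact ⟨hc, rfl, hn⟩
      | succ k hk ih =>
        obtain ⟨h1, h2, h3⟩ := ih
        rcases hvis k (by omega) h1 (by omega) h3 with h | h
        · exact ⟨h.2.2.1, h.2.2.2.trans h2, by rw [h.2.1, h3]⟩
        · exact absurd (hi1 k (by omega) h1 (by omega) h3) h.1
    obtain ⟨i', h1⟩ := stg_large hG (st i).stg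
    have h2 := h1 (max i i') (by omega)
    rw [(hall (max i i') (by omega)).2.1] at h2
    omega
  obtain ⟨i, hi, hc, hl⟩ := hv (max i0 i1)
  obtain ⟨x, hx⟩ := Option.ne_none_iff_exists'.1 (hno i hi hc hl)
  obtain ⟨k, h1, -, h3⟩ := href i x (by omega) hx
  obtain ⟨j, hj, hc', hl'⟩ := hv (k + 1)
  obtain ⟨m, h5, h6, h7⟩ := first (f := fun k => get (st k).S (δ ++ [0])) hj
    (by rw [h3]; exact hno j (by omega) hc' hl')
  obtain ⟨h8, h9⟩ := hch m (by omega) h7
  exact hno m (by omega) h8 h9 (h6.trans h3)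

lemma xval_pre (hL : Lim X st G A) (i j m : ℕ) {σ τ : List Ins} (h : σ ++ τ = (st i).sg) :
    xval (δ ++ [0]) σ j (τ, pre A m) =
      ev (δ.length / 2) (pre (jn A (gG G)) (min m (st i).sg.length)) j := by
  unfold xval
  simp only [h, List.length_append, List.length_singleton, Nat.add_sub_cancel]
  conv_lhs => rw [hL.g i]
  rw [cd_pre, zip2_pre]

end TpNp

open TpNp in
theorem tpN : TpN := by
  intro X st b G A δ hG hL hT hev
  obtain ⟨i2, x, hx⟩ := perm hG hT hev
  obtain ⟨hv, i0, h0⟩ := hT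
  have hmov : ∀ i, i2 ≤ i → (st i).cur = δ → δ.length < (st i).stg →
      ¬ RefN X (st i) (b i) x ∧ (st (i + 1)).cur = δ ++ [0] := by
    intro i hi hc hl
    have h1 := hx (i + 1) (by omega)
    have h2 := hx i hi
    subst hc
    rcases visit_some (hG.run.stp i) ⟨hl, hev⟩ h2 with h | h
    · rw [h.2] at h1
      cases h1
    · exact ⟨h.1, by rw [h.2]; rfl⟩
  have hS : ∀ i, i2 ≤ i → x ∈ (st i).S := fun i hi => (get_some (hx i hi)).1
  have hsl : x.sl = δ ++ [0] := (get_some (hx i2 le_rfl)).2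
  refine ⟨⟨fun i => ?_, max i0 i2, fun i hi => ⟨not_left_zero (h0 i (by omega)).1, ?_⟩⟩,
    fun hcmp => ?_⟩
  · obtain ⟨i3, h3⟩ := stg_large hG (δ.length + 1)
    obtain ⟨i', hi', hc, hl⟩ := hv (max i (max i2 i3))
    refine ⟨i' + 1, by omega, (hmov i' (by omega) hc hl).2, ?_⟩
    simpa using h3 (i' + 1) (by omega)
  · rw [vw_succ (hG.inv i).srt, vw_succ (hG.inv (max i0 i2)).srt, (h0 i (by omega)).2,
      (h0 (max i0 i2) (by omega)).2, hx i (by omega), hx (max i0 i2) (by omega)]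
  · have htag := (((hG.inv i2).shp x (hS i2 le_rfl)).tagN hsl hev).2
    rcases Nat.le_one_iff_eq_zero_or_eq_one.1 htag with h | h
    · obtain ⟨j, ω, y, h1, h2, h3⟩ := ((hG.inv i2).ent x (hS i2 le_rfl)).wn h
      have hω : ω = pre A ω.length :=
        eq_pre_of (d := 0) rfl fun p hp => (hL.a i2 p _ (h3 p hp)).symm
      rw [hω, hsl, xval_pre hL i2 j _ (List.append_nil _)] at h1
      exact h2 (hcmp.eq h1)
    · obtain ⟨n0, hn0⟩ := hcmp.ev_ge x.b
      obtain ⟨i3, h3⟩ := stg_large hG n0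
      obtain ⟨i, hi, hc, -⟩ := hv (max i0 (max i2 i3))
      have hI := hG.inv i
      have hn := h3 i (by omega)
      have hlen := hI.len
      obtain ⟨w1, -, w3, w4, w5⟩ := (hI.ent x (hS i (by omega))).wk (Or.inl h)
      have hob : xobj X (vw (st i).S x.sl) x.sl x.L ((st i).sg.take x.a) x.b
          ((st i).sg.drop x.a, pre A n0) := by
        refine ⟨⟨w3, w4, fun c hc' ht => ⟨w5 c hc' ht, fun y hy hb => ?_⟩⟩, fun p hp => ?_, ?_⟩
        · rw [hsl] at hy
          obtain ⟨y1, y2, y3⟩ := ee_pre hy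
          simp only [List.take_append_drop]
          exact hI.cln y y1 y2 (by rw [hc]; exact y3) c (List.mem_of_mem_drop hc') ht hb.symm
        · simp only [List.take_append_drop, length_pre] at hp ⊢
          obtain ⟨u, hu⟩ := Option.isSome_iff_exists.1 (hI.hk p (by omega))
          rw [hu, getD_pre A hp, hL.a i p u hu]
        · rw [hsl, xval_pre hL i _ _ (List.take_append_drop _ _), hn0 _ (by omega)]
          rfl
      obtain ⟨N, hN⟩ := fnd_of hob
      obtain ⟨i4, h4⟩ := hG.run.binf N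
      obtain ⟨k, hk, hc', hl'⟩ := hv (max i i4)
      refine (hmov k (by omega) hc' hl').1 ⟨h, ?_⟩
      have e1 : vw (st k).S x.sl = vw (st i).S x.sl := by
        rw [hsl, (h0 k (by omega)).2, (h0 i (by omega)).2]
      rw [e1, take_eq (hG.mono i k (by omega)).1 w1]
      exact hN _ (h4 k (by omega))

end Pool.Agent.MP_68d28f_lc.CE.T4
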