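import Pool.Agent.MP_68d28f_lc.ce.LemB
import Pool.Agent.MP_68d28f_lc.ce.LemC
import Pool.Agent.MP_68d28f_lc.ce.t4.Act
import Pool.Agent.MP_68d28f_lc.ce.t4.EffS
import Pool.Agent.MP_68d28f_lc.ce.t4.EffN
import Pool.Agent.MP_68d28f_lc.ce.t4.EffM1
import Pool.Agent.MP_68d28f_lc.ce.t4.EffM2
import Pool.Agent.MP_68d28f_lc.ce.t4.Knd
import Pool.Agent.MP_68d28f_lc.ce.t4.Good
import Pool.Agent.MP_68d28f_lc.ce.t4.Loop
import Pool.Agent.MP_68d28f_lc.ce.t4.Low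
import Pool.Agent.MP_68d28f_lc.ce.t4.Cmp2
import Pool.Agent.MP_68d28f_lc.ce.t4.TpN
import Pool.Agent.MP_68d28f_lc.ce.t4.TpM0
import Pool.Agent.MP_68d28f_lc.ce.t4.TpM1
import Pool.Agent.MP_68d28f_lc.ce.t4.TpM2
import Pool.Agent.MP_68d28f_lc.ce.t4.TpM
import Pool.Agent.MP_68d28f_lc.ce.t4.Fin

/-! Block T4: assembly. -/

namespace Pool.Agent.MP_68d28f_lc.CE

open T4 in
theorem t4 : T4 :=
  have he : EffS := effS effNW1 effFill effW1 effW2 effCod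
  have hi : InvS := invS actS he
  fin4 lemB compS hi (goodS hi he kindS (loopS lemC) lowS) limS tpN (tpM tpM0 tpM1 tpM2 tpM3)

end Pool.Agent.MP_68d28f_lc.CE
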