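import Pool.Agent.MP_68d28f_lc.ce.t4.Defs

/-!
Block T4: the statements that connect the files of the block.
-/

namespace Pool.Agent.MP_68d28f_lc.CE.T4

open Pool.Agent.MP_b427ce_lc

/-- the effect of a step: the extension `ext`, the surviving entries `S0`, at most one new entry -/
structure Eff (X : ℕ → ℕ) (s s' : St) (ext : List Ins) (S0 : List Ent) : Prop where
  sg : s'.sg = s.sg ++ ext
  ok : ActOK X s.sg s.L S0 ext s'.L
  lit : LitOK X s'.sg s'.L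
  sub : S0.Sublist s.S
  dn : ∀ x ∈ S0, vw S0 x.sl = vw s.S x.sl
  st : s'.S = S0 ∨ ∃ y, s'.S = S0 ++ [y] ∧ (∀ x ∈ S0, x.sl < y.sl) ∧ y ∉ s.S ∧ Shape y ∧
    EI X s'.sg s'.L S0 y ∧ (y.tag = 5 → ∀ x ∈ S0, x.tag = 5 → x.b ≠ y.b)
  wr : ∀ i ∈ ext, tnz X i = true → ∀ x ∈ S0, x.tag = 5 → x.b = col i.p →
    x.sl <+: s.cur ∨ x.sl = s'.cur

/-- harmless extensions keep the invariants of the entries -/
def ActS : Prop :=
  ∀ (X : ℕ → ℕ) (σ : List Ins) (L : Lit) (S0 : List Ent) (ext : List Ins) (L' : Lit),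
    (∀ x ∈ S0, EI X σ L (vw S0 x.sl) x) → ActOK X σ L S0 ext L' →
    ∀ x ∈ S0, EI X (σ ++ ext) L' (vw S0 x.sl) x

/-- the effect of the step `nW1` -/
def EffNW1 : Prop :=
  ∀ (X : ℕ → ℕ) (s : St) (w : BT), (∀ n, X n ≤ 1) → Inv X s → AtN s →
    get s.S (s.cur ++ [0]) = none → bobj X (vw s.S (s.cur ++ [0])) (s.cur ++ [0]) s.L s.sg w →
    ∃ ext S0, Eff X s (fin X s (w.2.2.1 ++ opw X ((0, pre X w.2.1) :: s.L) s.sg w.2.2.2)
      ((0, pre X w.2.1) :: s.L) (vw s.S (s.cur ++ [0]) ++ [wonN (s.cur ++ [0])])) ext S0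

/-- the effect of the step `mFill` -/
def EffFill : Prop :=
  ∀ (X : ℕ → ℕ) (s : St) (o : Ent), Inv X s → AtM s →
    own (vw s.S (s.cur ++ [2])) (s.cur ++ [2]) = some o → o.tag = 3 →
    zdet X (eS o.sl) s.sg (Lz (eS o.sl) s.sg s.L) →
    ∃ ext S0, Eff X s
      (fin X s (fillE X o.sl s.sg s.L) s.L (vw s.S o.sl ++ [fillR X o.sl s.sg s.L])) ext S0

/-- the effect of the step `mW1` -/
def EffW1 : Prop :=
  ∀ (X : ℕ → ℕ) (s : St) (o : Ent) (w : W1T) (y : ℕ), Inv X s → AtM s →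
    own (vw s.S (s.cur ++ [2])) (s.cur ++ [2]) = some o → o.tag = 4 →
    w1obj X (vw s.S (s.cur ++ [2])) (s.cur ++ [2]) s.L s.sg w →
    oval o w.2.2.2.2.2 (s.sg ++ w.1 ++ w.2.2.2.2.1) = some y →
    ∃ ext S0, Eff X s
      (fin X s (w.1 ++ w.2.2.2.2.1 ++ wr (eS o.sl + 1) o.l1 (dia w.2.2.2.2.2 o.b y)) s.L
        (vw s.S (wonS o.sl) ++ [wonM (wonS o.sl) (dia w.2.2.2.2.2 o.b y) o.b])) ext S0

/-- the effect of the step `mW2` -/
def EffW2 : Prop :=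
  ∀ (X : ℕ → ℕ) (s : St) (o x : Ent) (i : Ins), Inv X s → AtM s →
    own (vw s.S (s.cur ++ [2])) (s.cur ++ [2]) = some o → o.tag = 4 →
    get s.S (s.cur ++ [2]) = some x → zdet X (eS x.sl) s.sg (RR X x.b s.sg) → i ∈ s.sg →
    tnz X i = true → col i.p = x.b → zd X (eS x.sl) s.sg (row i.p) ≠ some (i.w - 1) →
    ∃ ext S0, Eff X s
      (fin X s [] ((eS x.sl + 1, zstr X (eS x.sl) s.sg (RR X x.b s.sg)) :: s.L)
        (vw s.S (wonS o.sl) ++ [wonM (wonS o.sl) o.l2 o.b])) ext S0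

/-- the effect of the step `mCod` -/
def EffCod : Prop :=
  ∀ (X : ℕ → ℕ) (s : St) (x : Ent), Inv X s → AtM s → get s.S (s.cur ++ [2]) = some x →
    zdet X (eS x.sl) s.sg (RR X x.b s.sg) →
    ∃ ext S0, Eff X s (mov s (cod X (eS x.sl) x.b s.sg s.L) 2) ext S0

/-- the effect of every step -/
def EffS : Prop :=
  ∀ (X : ℕ → ℕ) (s : St) (b : ℕ) (s' : St), (∀ n, X n ≤ 1) → Inv X s → Stp X s b s' →
    ∃ ext S0, Eff X s s' ext S0

/-- every step keeps the invariant -/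
def InvS : Prop :=
  ∀ (X : ℕ → ℕ) (s : St) (b : ℕ) (s' : St), (∀ n, X n ≤ 1) → Inv X s → Stp X s b s' → Inv X s'

/-- every step has a kind -/
def KindS : Prop :=
  ∀ (X : ℕ → ℕ) (s : St) (b : ℕ) (s' : St), Inv X s → Stp X s b s' → Kind s s'

/-- the loop of an N-node cannot succeed at all arguments -/
def LoopS : Prop :=
  ∀ (X : ℕ → ℕ) (s : St), (∀ n, X n ≤ 1) → Red X KK → Inv X s →
    (∀ x ∈ EE (vw s.S (s.cur ++ [0])) (s.cur ++ [0]),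
      ∀ w, ¬ w1obj X (vw s.S x.sl) x.sl x.L (s.sg.take x.a) w) →
    (∀ w, ¬ bobj X (vw s.S (s.cur ++ [0])) (s.cur ++ [0]) s.L s.sg w) →
    (∀ j, ∃ w, xobj X (vw s.S (s.cur ++ [0])) (s.cur ++ [0]) (lpL X s.L j) s.sg j w ∧
      xval (s.cur ++ [0]) s.sg j w = some (X j)) → CEdeg X

/-- the step is computable in the halting set -/
def CompS : Prop :=
  ∀ X : ℕ → ℕ, Red X KK → ∃ step : St → ℕ → St,
    ComputableIn (orc KK) (fun p : St × ℕ => step p.1 p.2) ∧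
      ∀ s b, Inv X s → Stp X s b (step s b)

/-- the searches of an N-node that always succeed are eventually within the bound -/
def LowN (X : ℕ → ℕ) (st : ℕ → St) (b : ℕ → ℕ) : Prop :=
  ∀ (δ : List ℕ) (i0 : ℕ),
    (∀ i, i0 ≤ i → (st i).cur = δ → δ.length < (st i).stg → get (st i).S (δ ++ [0]) = none →
      ∃ w, xobj X (vw (st i).S (δ ++ [0])) (δ ++ [0]) (lpL X (st i).L (st i).j) (st i).sg
        (st i).j w) →
    ∃ i1, ∀ i, i1 ≤ i → (st i).cur = δ → δ.length < (st i).stg →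
      get (st i).S (δ ++ [0]) = none →
      Fnd (b i) (xobj X (vw (st i).S (δ ++ [0])) (δ ++ [0]) (lpL X (st i).L (st i).j) (st i).sg
        (st i).j)

/-- the searches of an M-node that always succeed are eventually within the bound -/
def LowM (X : ℕ → ℕ) (st : ℕ → St) (b : ℕ → ℕ) : Prop :=
  ∀ (γ : List ℕ) (i0 : ℕ),
    (∀ i, i0 ≤ i → (st i).cur = γ → γ.length < (st i).stg → get (st i).S (γ ++ [2]) = none →
      ∃ w, w1obj X (vw (st i).S (γ ++ [2])) (γ ++ [2]) (st i).L (st i).sg w) →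
    ∃ i1, ∀ i, i1 ≤ i → (st i).cur = γ → γ.length < (st i).stg →
      get (st i).S (γ ++ [2]) = none →
      Fnd (b i) (w1obj X (vw (st i).S (γ ++ [2])) (γ ++ [2]) (st i).L (st i).sg)

/-- both kinds of searches -/
def LowS : Prop :=
  ∀ (X : ℕ → ℕ) (st : ℕ → St) (b : ℕ → ℕ), Run X st b → LowN X st b ∧ LowM X st b

/-- the dynamic facts about a run -/
structure Good (X : ℕ → ℕ) (st : ℕ → St) (b : ℕ → ℕ) : Prop where
  run : Run X st b
  inv : ∀ i, Inv X (st i)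
  eff : ∀ i, ∃ ext S0, Eff X (st i) (st (i + 1)) ext S0
  kind : ∀ i, Kind (st i) (st (i + 1))
  lowN : LowN X st b
  lowM : LowM X st b
  mono : ∀ i i', i ≤ i' → (st i).sg <+: (st i').sg ∧ (∀ l ∈ (st i).L, l ∈ (st i').L) ∧
    (st i).stg ≤ (st i').stg
  ends : ∀ i, ∃ i', i ≤ i' ∧ (st i').cur = [] ∧ i < (st i').stg
  pass : ∀ (i1 i3 : ℕ) (γ : List ℕ) (o : ℕ), i1 ≤ i3 → ¬ γ ++ [o] <+: (st i1).cur →
    γ ++ [o] <+: (st i3).cur →
    ∃ i, i1 ≤ i ∧ i < i3 ∧ (st i).cur = γ ∧ (st (i + 1)).cur = γ ++ [o]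
  stab : ∀ (k : List ℕ) (i1 : ℕ), (∀ i, i1 ≤ i → ¬ left (st i).cur k) →
    (∀ i, i1 ≤ i → ∀ κ, κ < k → Cut (st i) (st (i + 1)) κ →
      wt (vw (st (i + 1)).S k) < wt (vw (st i).S k)) →
    ∃ i2, i1 ≤ i2 ∧ ∀ i, i2 ≤ i → vw (st i).S k = vw (st i2).S k
  frozen : ∀ i, ∀ o ∈ (st i).S, o ∈ (st (i + 1)).S → isOwn o = true →
    Lz (eS o.sl) (st (i + 1)).sg (st (i + 1)).L ≤ Lz (eS o.sl) (st i).sg (st i).L
  wrote : ∀ i, ∀ x ∈ (st i).S, x ∈ (st (i + 1)).S → x.tag = 5 → ¬ x.sl <+: (st i).cur →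
    ¬ x.sl <+: (st (i + 1)).cur → RR X x.b (st (i + 1)).sg ≤ RR X x.b (st i).sg

/-- a run is good -/
def GoodS : Prop := ∀ (X : ℕ → ℕ) (st : ℕ → St) (b : ℕ → ℕ), Run X st b → Good X st b

/-- an N-node on the true path -/
def TpN : Prop :=
  ∀ (X : ℕ → ℕ) (st : ℕ → St) (b : ℕ → ℕ) (G : ℕ → Ins) (A : ℕ → ℕ) (δ : List ℕ),
    Good X st b → Lim X st G A → TP st δ → δ.length % 2 = 0 →
    TP st (δ ++ [0]) ∧ ¬ Cmp (δ.length / 2) (jn A (gG G)) X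

/-- an M-node on the true path that is trivial or wins -/
def TpM0 : Prop :=
  ∀ (X : ℕ → ℕ) (st : ℕ → St) (b : ℕ → ℕ) (G : ℕ → Ins) (A : ℕ → ℕ) (γ : List ℕ),
    Good X st b → Lim X st G A → TP st γ → γ.length % 2 = 1 →
    (triv γ ∨ ∀ i, ∃ i', i ≤ i' ∧ (get (st i').S (γ ++ [0])).isSome = true) →
    TP st (γ ++ [0]) ∧ (triv γ ∨ WonF X st G γ.length)

/-- an M-node on the true path that does not win has a permanent owner -/
def TpM1 : Prop :=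
  ∀ (X : ℕ → ℕ) (st : ℕ → St) (b : ℕ → ℕ) (γ : List ℕ) (i0 : ℕ),
    Good X st b → TP st γ → γ.length % 2 = 1 → ¬ triv γ →
    (∀ i, i0 ≤ i → get (st i).S (γ ++ [0]) = none) →
    ∃ i1 V o, own V (γ ++ [2]) = some o ∧
      ∀ i, i1 ≤ i → ¬ left (st i).cur (γ ++ [2]) ∧ vw (st i).S (γ ++ [2]) = V

/-- below a permanent ready owner the coding entry becomes permanent -/
def TpM2 : Prop :=
  ∀ (X : ℕ → ℕ) (st : ℕ → St) (b : ℕ → ℕ) (γ : List ℕ) (i1 : ℕ) (V : List Ent) (o : Ent),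
    Good X st b → TP st γ → γ.length % 2 = 1 → ¬ triv γ →
    (∀ i, i1 ≤ i → get (st i).S (γ ++ [0]) = none ∧ ¬ left (st i).cur (γ ++ [2]) ∧
      vw (st i).S (γ ++ [2]) = V) → own V (γ ++ [2]) = some o → o.tag = 4 →
    ∃ i2 x, ∀ i, i2 ≤ i → get (st i).S (γ ++ [2]) = some x

/-- if the outcome two is eventually not visited then the outcome three is on the true path -/
def TpM3 : Prop :=
  ∀ (X : ℕ → ℕ) (st : ℕ → St) (b : ℕ → ℕ) (γ : List ℕ) (i1 : ℕ) (V : List Ent),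
    Good X st b → TP st γ → γ.length % 2 = 1 →
    (∀ i, i1 ≤ i → ¬ left (st i).cur (γ ++ [2]) ∧ vw (st i).S (γ ++ [2]) = V ∧
      ((st i).cur = γ → γ.length < (st i).stg → (st (i + 1)).cur = γ ++ [3])) →
    TP st (γ ++ [3]) ∧ ∃ i2, ∀ i, i2 ≤ i → ¬ γ ++ [2] <+: (st i).cur

/-- an M-node on the true path -/
def TpM : Prop :=
  ∀ (X : ℕ → ℕ) (st : ℕ → St) (b : ℕ → ℕ) (G : ℕ → Ins) (A : ℕ → ℕ) (γ : List ℕ),
    Good X st b → Lim X st G A → TP st γ → γ.length % 2 = 1 →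
    ∃ o, TP st (γ ++ [o]) ∧ ((o = 0 ∧ (triv γ ∨ WonF X st G γ.length)) ∨
      (2 ≤ o ∧ ∀ z, Cmp (eN γ.length) (jn X (gG G)) z → Red z A))

/-- the limits exist and are computable -/
def LimS : Prop :=
  ∀ (X : ℕ → ℕ) (st : ℕ → St) (b : ℕ → ℕ), Good X st b → ComputableIn (orc KK) st →
    ∃ G A, Lim X st G A ∧ Red (gG G) KK ∧ Red A (jn X (gG G)) ∧
      ∀ (e : ℕ) (z : ℕ → ℕ), (∀ p, ∃ i, (val (e + 1) (tru z) (st i).sg p).isSome = true) →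
        ∃ C : ℕ → ℕ, Red C (jn z (gG G)) ∧
          ∀ i p w, val (e + 1) (tru z) (st i).sg p = some w → C p = w

end Pool.Agent.MP_68d28f_lc.CE.T4
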